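import Mathlib
import Pool.Agent.J4H26.KP.Q
import Pool.Agent.J4H26.KT.W2

set_option autoImplicit false

/-! Project KP, the number of clusters of coalescing walks. -/

namespace Pool.Agent.J4H39.KP

open Finset Filter Real
open Pool.Agent.J4H39 (U U_rec U_zero U_bound)
open Pool.Agent.J4H26.AF (moves moves_pos)
open Pool.Agent.J4H26.KT (cw iw cw_succ cw_zero mpos avg_two sw isE_cw isE_iw cw_single iw_single tail_single cw_mono cw_add cw_sum cw_const)
open Pool.Agent.J4H26.KP (mR mZ)

variable {K : ℕ}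

/-- two coalescing walks have not met -/
theorem cw_ne (i j : Fin K) (s : ℕ) : ∀ z : Fin K → ℤ,
    cw (fun u => if u i = u j then (0 : ℝ) else 1) s z = U (2 * s) (2 * (z j - z i)) := by
  induction s with
  | zero =>
    intro z
    rw [cw_zero]
    by_cases h : z i = z j
    · rw [if_pos h, h, sub_self, mul_zero, mul_zero, U_zero]
    · rw [if_neg h, mul_zero]
      rw [Pool.Agent.J4H39.U_base]
      intro h2
      apply h
      omega
  | succ s ih =>
    intro z
    rw [cw_succ]
    by_cases h : z i = z j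
    · have h1 : ∀ p ∈ moves z, cw (fun u => if u i = u j then (0 : ℝ) else 1) s (fun l => z l + (p l : ℕ)) = 0 := by
        intro p hp
        rw [ih]
        unfold moves at hp
        rw [mem_filter] at hp
        rw [hp.2 i j h, h, sub_self, mul_zero, U_zero]
      rw [sum_congr rfl h1, sum_const_zero, zero_div, h, sub_self, mul_zero, U_zero]
    · have h1 : ∀ p ∈ moves z, cw (fun u => if u i = u j then (0 : ℝ) else 1) s (fun l => z l + (p l : ℕ)) =
          (fun a b : ℕ => U (2 * s) (2 * (z j + b - (z i + a)))) (p i : ℕ) (p j : ℕ) := by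
        intro p _
        rw [ih]
      rw [sum_congr rfl h1, avg_two z h (fun a b : ℕ => U (2 * s) (2 * (z j + b - (z i + a))))]
      obtain ⟨d, hd⟩ : ∃ d, d = z j - z i := ⟨_, rfl⟩
      have hd0 : d ≠ 0 := by rw [hd]; omega
      rw [← hd, show 2 * (s + 1) = 2 * s + 1 + 1 by ring, U_rec (2 * s + 1) (show 2 * d ≠ 0 by omega),
        U_rec (2 * s) (show 2 * d + 1 ≠ 0 by omega), U_rec (2 * s) (show 2 * d - 1 ≠ 0 by omega)]
      push_cast
      rw [show 2 * (z j + 0 - (z i + 0)) = 2 * d by rw [hd]; ring, show 2 * (z j + 1 - (z i + 0)) = 2 * d + 1 + 1 by rw [hd]; ring,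
        show 2 * (z j + 0 - (z i + 1)) = 2 * d - 1 - 1 by rw [hd]; ring, show 2 * (z j + 1 - (z i + 1)) = 2 * d by rw [hd]; ring,
        show 2 * d + 1 - 1 = 2 * d by ring, show 2 * d - 1 + 1 = 2 * d by ring]
      ring

theorem cw_ne_le (i j : Fin K) {s : ℕ} (hs : 1 ≤ s) (z : Fin K → ℤ) :
    cw (fun u => if u i = u j then (0 : ℝ) else 1) s z ≤ 3 * |((z j - z i : ℤ) : ℝ)| / √ (s : ℝ) := by
  rw [cw_ne]
  have hs0 : (0 : ℝ) < s := by exact_mod_cast hs
  refine (U_bound (by omega : 1 ≤ 2 * s) _).trans ?_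
  have h1 : √ (((2 * s : ℕ)) : ℝ) = √ 2 * √ (s : ℝ) := by
    push_cast
    rw [Real.sqrt_mul (by norm_num)]
  have h2 : (4 / 3 : ℝ) ≤ √ 2 := Real.le_sqrt_of_sq_le (by norm_num)
  have hss : 0 < √ (s : ℝ) := Real.sqrt_pos.2 hs0
  rw [h1, div_le_div_iff₀ (by positivity) hss]
  have e : |(((2 * (z j - z i) : ℤ)) : ℝ)| = 2 * |((z j - z i : ℤ) : ℝ)| := by
    push_cast
    rw [abs_mul, abs_of_pos (by norm_num : (0 : ℝ) < 2)]
  rw [e]
  have h3 : 0 ≤ |((z j - z i : ℤ) : ℝ)| * √ (s : ℝ) := by positivity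
  nlinarith

/-- the number of different positions -/
def nc (u : Fin K → ℤ) : ℕ := #(univ.image u)

/-- grouping by cells -/
theorem nc_le (c : Fin K → ℤ) : ∃ r : Fin K → Fin K, (∀ i, c (r i) = c i) ∧ ∀ u : Fin K → ℤ,
    (nc u : ℝ) ≤ #(univ.image c) + ∑ i, if u (r i) = u i then (0 : ℝ) else 1 := by
  classical
  rcases Nat.eq_zero_or_pos K with hK | hK
  · subst hK
    refine ⟨id, fun i => rfl, fun u => ?_⟩
    unfold nc
    simp
  · have hex : ∀ v : ℤ, ∃ i : Fin K, v ∈ univ.image c → c i = v := by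
      intro v
      by_cases hv : v ∈ univ.image c
      · obtain ⟨i, _, hi⟩ := mem_image.1 hv
        exact ⟨i, fun _ => hi⟩
      · exact ⟨⟨0, hK⟩, fun h => absurd h hv⟩
    choose rep hrep using hex
    refine ⟨fun i => rep (c i), fun i => hrep _ (mem_image_of_mem c (mem_univ i)), fun u => ?_⟩
    have hsub : univ.image u ⊆ (univ.image c).image (fun v => u (rep v)) ∪
        (univ.filter (fun i => ¬ u (rep (c i)) = u i)).image u := by
      intro x hx
      obtain ⟨i, _, rfl⟩ := mem_image.1 hx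
      by_cases h : u (rep (c i)) = u i
      · exact mem_union_left _ (mem_image.2 ⟨c i, mem_image_of_mem c (mem_univ i), h⟩)
      · exact mem_union_right _ (mem_image_of_mem u (mem_filter.2 ⟨mem_univ i, h⟩))
    have h1 : nc u ≤ #(univ.image c) + #(univ.filter (fun i => ¬ u (rep (c i)) = u i)) := by
      unfold nc
      refine (card_le_card hsub).trans ((card_union_le _ _).trans ?_)
      exact Nat.add_le_add card_image_le card_image_le
    have h2 : ((#(univ.filter (fun i => ¬ u (rep (c i)) = u i)) : ℕ) : ℝ) = ∑ i, if u (rep (c i)) = u i then (0 : ℝ) else 1 := by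
      rw [card_filter]
      push_cast
      apply sum_congr rfl
      intro i _
      by_cases h : u (rep (c i)) = u i
      · rw [if_pos h, if_neg (not_not.2 h)]
      · rw [if_neg h, if_pos h]
    have h3 : (nc u : ℝ) ≤ ((#(univ.image c) + #(univ.filter (fun i => ¬ u (rep (c i)) = u i)) : ℕ) : ℝ) := by exact_mod_cast h1
    rw [Nat.cast_add, h2] at h3
    exact h3

/-- the expected number of clusters after `k` steps -/
theorem cw_nc {k h : ℕ} (hk : 1 ≤ k) (hh : 1 ≤ h) (z : Fin K → ℤ) :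
    cw (fun u => (nc u : ℝ)) k z ≤ #(univ.image (fun i => z i / (h : ℤ))) + K * (3 * h / √ (k : ℝ)) := by
  obtain ⟨r, hr, hu⟩ := nc_le (fun i => z i / (h : ℤ))
  have hE := isE_cw k z
  refine (hE.mono _ _ hu).trans ?_
  rw [hE.add, hE.const, hE.sum]
  have h1 : ∀ i ∈ (univ : Finset (Fin K)), cw (fun u => if u (r i) = u i then (0 : ℝ) else 1) k z ≤ 3 * h / √ (k : ℝ) := by
    intro i _
    refine (cw_ne_le (r i) i hk z).trans ?_
    apply div_le_div_of_nonneg_right _ (Real.sqrt_nonneg _)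
    have h2 := Pool.Agent.J4H26.KT.cell_close hh (hr i)
    have h3 : |((z i - z (r i) : ℤ) : ℝ)| ≤ h := by
      rw [abs_sub_comm] at h2
      exact_mod_cast h2
    linarith
  have h2 := sum_le_sum h1
  rw [sum_const, card_univ, Fintype.card_fin, nsmul_eq_mul] at h2
  linarith

end Pool.Agent.J4H39.KP
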