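import Mathlib
import Pool.Agent.J4H39.KP.F1

set_option autoImplicit false

/-! Project KP, the number of clusters of coalescing walks is small compared with the number of walks. -/

namespace Pool.Agent.J4H39.KP

open Finset Filter Real
open Pool.Agent.J4H26.KT (cw iw isE_cw isE_iw cw_single iw_single tail_single sw IsE)
open Pool.Agent.J4H26.KP (mR mZ)

variable {K : ℕ}

theorem tail_iw (i : Fin K) {s : ℕ} (hs : 1 ≤ s) {M : ℝ} (hM : 0 < M) :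
    iw (fun u : Fin K → ℤ => if 2 * M * √ (s : ℝ) ≤ |2 * (u i : ℝ) - s| then (1 : ℝ) else 0) s (fun _ => 0) ≤ 1 / (4 * M ^ 2) := by
  have h1 := iw_single (fun x : ℤ => if 2 * M * √ (s : ℝ) ≤ |2 * (x : ℝ) - s| then (1 : ℝ) else 0) s (fun _ => 0) i
  have h2 := cw_single (fun x : ℤ => if 2 * M * √ (s : ℝ) ≤ |2 * (x : ℝ) - s| then (1 : ℝ) else 0) i s (fun _ => 0)
  have h3 := tail_single i hs hM (fun _ => 0)
  rw [h1, ← h2]
  simp only [Int.cast_zero, mul_zero, zero_add] at h3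
  exact h3

theorem cells_le {h s : ℕ} (hh : 1 ≤ h) {M : ℝ} (hM : 0 < M) (z : Fin K → ℤ) :
    (#(univ.image (fun i => z i / (h : ℤ))) : ℝ) ≤ (2 * M * √ (s : ℝ) / h + 2) +
      ∑ i, if 2 * M * √ (s : ℝ) ≤ |2 * (z i : ℝ) - s| then (1 : ℝ) else 0 := by
  classical
  have hh0 : (0 : ℝ) < h := by exact_mod_cast hh
  have hh0z : (0 : ℤ) < h := by exact_mod_cast hh
  have hq : 0 ≤ M * √ (s : ℝ) := by positivity
  obtain ⟨A, hA⟩ : ∃ A : ℝ, A = ((s : ℝ) / 2 - M * √ (s : ℝ)) / h := ⟨_, rfl⟩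
  obtain ⟨B, hB⟩ : ∃ B : ℝ, B = ((s : ℝ) / 2 + M * √ (s : ℝ)) / h := ⟨_, rfl⟩
  have hAh : A * h = (s : ℝ) / 2 - M * √ (s : ℝ) := by rw [hA]; field_simp
  have hBh : B * h = (s : ℝ) / 2 + M * √ (s : ℝ) := by rw [hB]; field_simp
  have hsub : univ.image (fun i => z i / (h : ℤ)) ⊆ Finset.Icc ⌊A⌋ ⌊B⌋ ∪
      (univ.filter (fun i => 2 * M * √ (s : ℝ) ≤ |2 * (z i : ℝ) - s|)).image (fun i => z i / (h : ℤ)) := by
    intro x hx
    obtain ⟨i, _, rfl⟩ := mem_image.1 hx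
    by_cases ho : 2 * M * √ (s : ℝ) ≤ |2 * (z i : ℝ) - s|
    · exact mem_union_right _ (mem_image_of_mem _ (mem_filter.2 ⟨mem_univ i, ho⟩))
    · apply mem_union_left
      rw [not_le, abs_lt] at ho
      rw [mem_Icc]
      constructor
      · rw [Int.le_ediv_iff_mul_le hh0z]
        have h1 : (⌊A⌋ : ℝ) * h ≤ A * h := mul_le_mul_of_nonneg_right (Int.floor_le A) hh0.le
        have h2 : ((⌊A⌋ * (h : ℤ) : ℤ) : ℝ) ≤ (z i : ℝ) := by
          push_cast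
          linarith [ho.1]
        exact_mod_cast h2
      · rw [← Int.lt_add_one_iff, Int.ediv_lt_iff_lt_mul hh0z]
        have h1 : B * h < ((⌊B⌋ : ℝ) + 1) * h := mul_lt_mul_of_pos_right (Int.lt_floor_add_one B) hh0
        have h2 : (z i : ℝ) < (((⌊B⌋ + 1) * (h : ℤ) : ℤ) : ℝ) := by
          push_cast
          linarith [ho.2]
        exact_mod_cast h2
  have h1 : #(univ.image (fun i => z i / (h : ℤ))) ≤ #(Finset.Icc ⌊A⌋ ⌊B⌋) +
      #(univ.filter (fun i => 2 * M * √ (s : ℝ) ≤ |2 * (z i : ℝ) - s|)) := by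
    refine (card_le_card hsub).trans ((card_union_le _ _).trans ?_)
    exact Nat.add_le_add le_rfl card_image_le
  have h2 : ((#(univ.filter (fun i => 2 * M * √ (s : ℝ) ≤ |2 * (z i : ℝ) - s|)) : ℕ) : ℝ) =
      ∑ i, if 2 * M * √ (s : ℝ) ≤ |2 * (z i : ℝ) - s| then (1 : ℝ) else 0 := by
    rw [card_filter]
    push_cast
    rfl
  have h3 : ((#(Finset.Icc ⌊A⌋ ⌊B⌋) : ℕ) : ℝ) ≤ 2 * M * √ (s : ℝ) / h + 2 := by
    rw [Int.card_Icc]
    have hAB : A ≤ B := by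
      rw [hA, hB]
      apply div_le_div_of_nonneg_right _ hh0.le
      linarith
    have h4 : ⌊A⌋ ≤ ⌊B⌋ := Int.floor_le_floor hAB
    have h5 : (((⌊B⌋ + 1 - ⌊A⌋).toNat : ℕ) : ℝ) = (⌊B⌋ : ℝ) + 1 - ⌊A⌋ := by
      have : (((⌊B⌋ + 1 - ⌊A⌋).toNat : ℕ) : ℤ) = ⌊B⌋ + 1 - ⌊A⌋ := Int.toNat_of_nonneg (by omega)
      exact_mod_cast this
    rw [h5]
    have h6 := Int.floor_le B
    have h7 := Int.lt_floor_add_one A
    have h8 : B - A = 2 * M * √ (s : ℝ) / h := by rw [hA, hB]; field_simp; ring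
    linarith
  have h4 : ((#(univ.image (fun i => z i / (h : ℤ))) : ℕ) : ℝ) ≤ ((#(Finset.Icc ⌊A⌋ ⌊B⌋) : ℕ) : ℝ) +
      ((#(univ.filter (fun i => 2 * M * √ (s : ℝ) ≤ |2 * (z i : ℝ) - s|)) : ℕ) : ℝ) := by exact_mod_cast h1
  rw [h2] at h4
  linarith

/-- the expected number of clusters -/
theorem iw_nc {k h s : ℕ} (hk : 1 ≤ k) (hh : 1 ≤ h) (hs : 1 ≤ s) {M : ℝ} (hM : 0 < M) :
    iw (cw (fun u : Fin K → ℤ => (nc u : ℝ)) k) s (fun _ => 0) ≤
      (2 * M * √ (s : ℝ) / h + 2) + K * (1 / (4 * M ^ 2)) + K * (3 * h / √ (k : ℝ)) := by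
  have hE := isE_iw (k := K) s (fun _ => 0)
  refine (hE.mono _ _ (fun z => cw_nc hk hh z)).trans ?_
  rw [hE.add, hE.const]
  have h1 := hE.mono _ _ (fun z => cells_le (s := s) hh hM z)
  rw [hE.add, hE.const, hE.sum] at h1
  have h2 : ∑ i : Fin K, iw (fun u : Fin K → ℤ => if 2 * M * √ (s : ℝ) ≤ |2 * (u i : ℝ) - s| then (1 : ℝ) else 0) s (fun _ => 0) ≤
      ∑ i : Fin K, 1 / (4 * M ^ 2) := sum_le_sum fun i _ => tail_iw i hs hM
  rw [sum_const, card_univ, Fintype.card_fin, nsmul_eq_mul] at h2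
  linarith

/-- few clusters -/
theorem nc_small {γ ρ : ℝ} (hγ : 0 < γ) (hρ : 0 < ρ) : ∃ K₀ : ℕ, ∀ K : ℕ, K₀ ≤ K → ∀ᶠ k : ℕ in atTop, ∀ s : ℕ, 1 ≤ s →
    (s : ℝ) ≤ ρ * k → iw (cw (fun u : Fin K → ℤ => (nc u : ℝ)) k) s (fun _ => 0) ≤ γ * K := by
  obtain ⟨M, hM⟩ : ∃ M : ℝ, M = √ (2 / γ) := ⟨_, rfl⟩
  have hM0 : 0 < M := by rw [hM]; exact Real.sqrt_pos.2 (by positivity)
  have hM2 : M ^ 2 = 2 / γ := by rw [hM]; exact Real.sq_sqrt (by positivity)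
  have hMγ : 1 / (4 * M ^ 2) = γ / 8 := by rw [hM2]; field_simp; norm_num
  obtain ⟨Q, hQ⟩ : ∃ Q : ℝ, Q = 48 * M * √ρ / γ + 2 := ⟨_, rfl⟩
  have hQ0 : 0 ≤ Q := by rw [hQ]; positivity
  refine ⟨⌈2 * Q / γ⌉₊, fun K hK => ?_⟩
  have hKQ : Q ≤ γ / 2 * K := by
    have h1 : 2 * Q / γ ≤ K := (Nat.le_ceil _).trans (by exact_mod_cast hK)
    rw [div_le_iff₀ hγ] at h1
    linarith
  have hsq : Tendsto (fun t : ℕ => √ (t : ℝ)) atTop atTop := Real.tendsto_sqrt_atTop.comp tendsto_natCast_atTop_atTop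
  filter_upwards [eventually_ge_atTop 1, hsq.eventually_ge_atTop (24 / γ)] with k hk hk2
  intro s hs hsk
  have hk0 : (0 : ℝ) < k := by exact_mod_cast hk
  have hkq : 0 < √ (k : ℝ) := Real.sqrt_pos.2 hk0
  obtain ⟨h, hh⟩ : ∃ h : ℕ, h = ⌈γ / 24 * √ (k : ℝ)⌉₊ := ⟨_, rfl⟩
  have hh1 : 1 ≤ h := by rw [hh]; exact Nat.one_le_ceil_iff.2 (by positivity)
  have hhl : γ / 24 * √ (k : ℝ) ≤ h := by rw [hh]; exact Nat.le_ceil _
  have hhu : (h : ℝ) ≤ γ / 24 * √ (k : ℝ) + 1 := by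
    rw [hh]; exact (Nat.ceil_lt_add_one (by positivity)).le
  have hh0 : (0 : ℝ) < h := by exact_mod_cast hh1
  refine (iw_nc hk hh1 hs hM0).trans ?_
  rw [hMγ]
  have e1 : 2 * M * √ (s : ℝ) / h ≤ 48 * M * √ρ / γ := by
    rw [div_le_div_iff₀ hh0 hγ]
    have h1 : √ (s : ℝ) ≤ √ρ * √ (k : ℝ) := by
      rw [← Real.sqrt_mul hρ.le]
      exact Real.sqrt_le_sqrt hsk
    calc 2 * M * √ (s : ℝ) * γ ≤ 2 * M * (√ρ * √ (k : ℝ)) * γ := by gcongr
      _ = 48 * M * √ρ * (γ / 24 * √ (k : ℝ)) := by ring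
      _ ≤ 48 * M * √ρ * h := mul_le_mul_of_nonneg_left hhl (by positivity)
  have e2 : 3 * (h : ℝ) / √ (k : ℝ) ≤ γ / 4 := by
    rw [div_le_iff₀ hkq]
    rw [div_le_iff₀ hγ] at hk2
    linarith
  have e3 : (K : ℝ) * (3 * h / √ (k : ℝ)) ≤ K * (γ / 4) := mul_le_mul_of_nonneg_left e2 (by positivity)
  have hK0 : (0 : ℝ) ≤ K := by positivity
  nlinarith

/-- the moments decay slowly -/
theorem mom_low {δ ε ρ : ℝ} (hδ0 : 0 < δ) (hδ1 : δ ≤ 1) (hε0 : 0 < ε) (hε1 : ε < 1) (hρ : 0 < ρ) : ∃ K₀ : ℕ, ∀ K : ℕ, K₀ ≤ K →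
    ∀ᶠ k : ℕ in atTop, ∀ s : ℕ, 1 ≤ s → (s : ℝ) ≤ ρ * k →
      2 * (1 - ε) ^ K ≤ iw (cw (fun u : Fin K → ℤ => δ ^ nc u) k) s (fun _ => 0) := by
  obtain ⟨l, hl⟩ : ∃ l : ℝ, l = -Real.log δ := ⟨_, rfl⟩
  have hl0 : 0 ≤ l := by rw [hl]; have := Real.log_nonpos hδ0.le hδ1; linarith
  obtain ⟨g, hg⟩ : ∃ g : ℝ, g = -Real.log (1 - ε) := ⟨_, rfl⟩
  have hg0 : 0 < g := by rw [hg]; have := Real.log_neg (by linarith : 0 < 1 - ε) (by linarith); linarith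
  obtain ⟨γ, hγ⟩ : ∃ γ : ℝ, γ = g / (2 * (l + 1)) := ⟨_, rfl⟩
  have hγ0 : 0 < γ := by rw [hγ]; positivity
  have hlγ : l * γ ≤ g / 2 := by
    rw [hγ, ← mul_div_assoc, div_le_div_iff₀ (by positivity) (by norm_num)]
    nlinarith
  obtain ⟨K₁, hK₁⟩ := nc_small hγ0 hρ
  refine ⟨max K₁ ⌈2 / g⌉₊, fun K hK => ?_⟩
  have hKg : 1 ≤ K * (g / 2) := by
    have h1 : 2 / g ≤ K := (Nat.le_ceil _).trans (by exact_mod_cast (le_max_right _ _).trans hK)
    rw [div_le_iff₀ hg0] at h1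
    linarith
  filter_upwards [hK₁ K ((le_max_left _ _).trans hK)] with k hk
  intro s hs hsk
  have hn := hk s hs hsk
  obtain ⟨b, hb⟩ : ∃ b : ℝ, b = γ * K := ⟨_, rfl⟩
  rw [← hb] at hn
  have hpt : ∀ u : Fin K → ℤ, Real.exp (-(l * b)) * (1 + l * b) + (-(Real.exp (-(l * b)) * l)) * (nc u : ℝ) ≤ δ ^ nc u := by
    intro u
    have h1 : δ ^ nc u = Real.exp (-(l * nc u)) := by
      have h0 : δ = Real.exp (Real.log δ) := (Real.exp_log hδ0).symm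
      calc δ ^ nc u = Real.exp (Real.log δ) ^ nc u := by rw [← h0]
        _ = Real.exp (-(l * nc u)) := by
          rw [← Real.exp_nat_mul, hl]
          congr 1; ring
    rw [h1]
    have h2 := Real.add_one_le_exp (l * b - l * nc u)
    have h3 : Real.exp (-(l * nc u)) = Real.exp (-(l * b)) * Real.exp (l * b - l * nc u) := by
      rw [← Real.exp_add]; congr 1; ring
    rw [h3]
    calc Real.exp (-(l * b)) * (1 + l * b) + (-(Real.exp (-(l * b)) * l)) * (nc u : ℝ) =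
          Real.exp (-(l * b)) * (l * b - l * nc u + 1) := by ring
      _ ≤ _ := mul_le_mul_of_nonneg_left h2 (Real.exp_pos _).le
  have hE2 : ∀ z : Fin K → ℤ, Real.exp (-(l * b)) * (1 + l * b) + (-(Real.exp (-(l * b)) * l)) *
      cw (fun u : Fin K → ℤ => (nc u : ℝ)) k z ≤ cw (fun u : Fin K → ℤ => δ ^ nc u) k z := by
    intro z
    have h1 := (isE_cw k z).mono _ _ hpt
    rw [(isE_cw k z).add, (isE_cw k z).const, (isE_cw k z).smul] at h1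
    exact h1
  have hE := isE_iw (k := K) s (fun _ => 0)
  have h1 := hE.mono _ _ hE2
  rw [hE.add, hE.const, hE.smul] at h1
  refine le_trans ?_ h1
  have h2 : Real.exp (-(l * b)) ≤ Real.exp (-(l * b)) * (1 + l * b) + (-(Real.exp (-(l * b)) * l)) *
      iw (cw (fun u : Fin K → ℤ => (nc u : ℝ)) k) s (fun _ => 0) := by
    have h3 : 0 ≤ Real.exp (-(l * b)) * l * (b - iw (cw (fun u : Fin K → ℤ => (nc u : ℝ)) k) s (fun _ => 0)) :=
      mul_nonneg (mul_nonneg (Real.exp_pos _).le hl0) (by linarith)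
    linarith
  refine le_trans ?_ h2
  have h4 : (1 - ε) ^ K = Real.exp (-(g * K)) := by
    have h0 : 1 - ε = Real.exp (Real.log (1 - ε)) := (Real.exp_log (by linarith)).symm
    calc (1 - ε) ^ K = Real.exp (Real.log (1 - ε)) ^ K := by rw [← h0]
      _ = Real.exp (-(g * K)) := by
        rw [← Real.exp_nat_mul, hg]
        congr 1; ring
  have h5 : (2 : ℝ) ≤ Real.exp 1 := by
    have := Real.add_one_le_exp (1 : ℝ)
    linarith
  rw [h4]
  calc 2 * Real.exp (-(g * K)) ≤ Real.exp 1 * Real.exp (-(g * K)) := mul_le_mul_of_nonneg_right h5 (Real.exp_pos _).le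
    _ = Real.exp (1 - g * K) := by rw [← Real.exp_add]; congr 1
    _ ≤ Real.exp (-(l * b)) := by
        apply Real.exp_le_exp.2
        have h6 : l * b ≤ g / 2 * K := by
          rw [hb, ← mul_assoc]
          exact mul_le_mul_of_nonneg_right hlγ (by positivity)
        nlinarith

open Classical in
/-- the product of the means over the clusters -/
theorem mZ_low {δ : ℝ} (hδ0 : 0 ≤ δ) (hδ1 : δ ≤ 1) {m : Finset (Fin K) → ℝ} (hm : ∀ B, B.Nonempty → δ ≤ m B) (z : Fin K → ℤ) :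
    δ ^ nc z ≤ mZ m z := by
  unfold mZ mR
  obtain ⟨C, hC⟩ : ∃ C : Finset (Finset (Fin K)), C = univ.image (fun i => univ.filter (fun j => z i = z j)) := ⟨_, rfl⟩
  have hcard : #C ≤ nc z := by
    have h1 : C = (univ.image z).image (fun v => univ.filter (fun j => v = z j)) := by
      rw [hC, image_image]; rfl
    rw [h1]
    exact card_image_le
  calc δ ^ nc z ≤ δ ^ #C := pow_le_pow_of_le_one hδ0 hδ1 hcard
    _ = ∏ _B ∈ C, δ := by rw [prod_const]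
    _ ≤ ∏ B ∈ C, m B := by
        apply prod_le_prod (fun _ _ => hδ0)
        intro B hB
        apply hm
        rw [hC] at hB
        obtain ⟨i, _, rfl⟩ := mem_image.1 hB
        exact ⟨i, mem_filter.2 ⟨mem_univ i, rfl⟩⟩
    _ = _ := by rw [hC]; congr!

end Pool.Agent.J4H39.KP
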