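import Mathlib
import Pool.Agent.J4H26.KP.Sup

set_option autoImplicit false

/-! Project KP, part TL: the tails of the law of the share, exact statements.  GOAL: for an invariant set `R` of density
`δ`, `0 < δ < 1`, and windows of length `N ^ θ`, the proportion of the windows in which the share of `R` is at least
`1 - ε` lies between `exp (-C √(log (1/ε)))` and `exp (-c √(log (1/ε)))`.  (The expected value of `share ^ K` is that of
`δ ^ nc` for `K` walks, and the number `nc` of the clusters of `K` walks is of the order `√(log K)`.)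

`cw f k z`: expected value of `f` at the positions of coalescing walks from `z` after `k` steps; `iw`: independent walks;
`sw g s d`: one walk; `U (2 * k) (2 * d)`: the probability that two walks at the distance `d` do not meet in `k` steps
(`Pool.Agent.J4H39.KP.cw_ne`); `nc u`: the number of different positions. -/

namespace Pool.Agent.J4H39.KP

open Finset Filter Real
open Pool.Agent.J4H39 (U)
open Pool.Agent.J4H26.KT (iw cw)
open Pool.Agent.J4H26.KP (le1 ge1)

/-- (T1) the events that the walks of disjoint pairs do not meet are negatively correlated.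
Proof by induction on `k` (for all `z`).  One step: `cw_succ`, the induction hypothesis at `z + p` (the moves keep the
order, cf. `Pool.Agent.J4H18.KP.cw_ord`), and the mean over `p ∈ moves z` of the product over `j` of
`φ j (p (p j)) (p (q j))`, `φ j a b = 1 - (1 - x) * U (2 k) (2 (d j + b - a))`, is at most the product of the means: by
induction on `m`; for the last pair with `z (p j) = z (q j)` the factor is `1`; otherwise the bit at the site
`b = z (q j)` occurs in no other factor (average over it with `flipc`), and the other factors are nonincreasing in the bit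
at the site `a = z (p j)` (it occurs in them only as the bit of some `q i`, and `U (2 k) (2 d)` is nondecreasing in
`d ≥ 0`), while the averaged last factor is nondecreasing in it: `E (f g) ≤ E f * E g` (pair `p` with `flipc z a p`).  The
mean of `φ j` is `1 - (1 - x) U (2 (k + 1)) (2 d j)` by the computation in the proof of `cw_ne`. -/
def S_NA : Prop := ∀ (K m k : ℕ) (x : ℝ), 0 ≤ x → x ≤ 1 → ∀ (p q : Fin m → Fin K) (z : Fin K → ℤ),
  (∀ j, z (p j) ≤ z (q j)) → (∀ i j, i < j → z (q i) ≤ z (p j)) →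
  cw (fun u => ∏ j, if u (p j) = u (q j) then (1 : ℝ) else x) k z ≤
    ∏ j, (1 - (1 - x) * U (2 * k) (2 * (z (q j) - z (p j))))

/-- (T2) lower bound for the mass of an interval far out (`Pool.Agent.J4H18.KP.sw_nu`, `nu_set`; the Gaussian measure of
`[4 j, 4 j + 2]` is at least `2 / √(2 π) * exp (-(4 j + 2) ^ 2 / 2)` and `(4 j + 2) ^ 2 / 2 ≤ 16 j ^ 2 + 2`) -/
def S_GMS : Prop := ∃ c : ℝ, 0 < c ∧ ∀ j : ℕ, ∀ᶠ s : ℕ in atTop, c * exp (-16 * (j : ℝ) ^ 2) ≤
  Pool.Agent.J4H26.KT.sw (fun u : ℤ => ge1 ⌈(s : ℝ) / 2 + 2 * j * √s⌉ u * le1 ⌊(s : ℝ) / 2 + (2 * j + 1) * √s⌋ u) s 0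

/-- (T3) few clusters are unlikely.  Proof: `m = ⌊a √(log K)⌋`, intervals `I_j` of (T2), `j < 2 m`; the probability that
one of them contains no `z i` is at most `∑ (1 - c_j) ^ K`; otherwise choose walks in them: the pairs `2 j`, `2 j + 1` are
at a distance of at least `√s ≥ √(ρ' k)`, do not meet with probability at least `c₁` (`S_UL`), `nc u` is at least the number
of the pairs which have not met (`cw_ord`), and (T1) gives `(1 - (1 - δ) c₁) ^ m`. -/
def S_TUP : Prop := ∀ δ ρ ρ' : ℝ, 0 ≤ δ → δ < 1 → 0 < ρ' → 0 < ρ → ∃ c : ℝ, 0 < c ∧ ∃ K₀ : ℕ, ∀ K : ℕ, K₀ ≤ K →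
  ∀ᶠ k : ℕ in atTop, ∀ s : ℕ, ρ' * k ≤ (s : ℝ) → (s : ℝ) ≤ ρ * k →
  iw (cw (fun u : Fin K → ℤ => δ ^ nc u) k) s (fun _ => 0) ≤ exp (-c * √(log K))

/-- (T4) the expected number of the clusters.  Proof: with `σ` sorting `z` (`Tuple.sort`), `nc u ≤ 1 +` the number of the
`j` with `u (σ j) ≠ u (σ (j + 1))`; by `cw_ne_le` the expected value is at most `1 + 3 (max z - min z) / √k`.  And
`max |2 z_i - s| / √s ≤ b + (1/b) ∑ i exp (b (|2 z_i - s| / √s - b))`, `sw (exp (b (2 u - s) / √s)) s 0 =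
cosh (b / √s) ^ s ≤ exp (b ^ 2 / 2)` (`iw_single`), `b = √(2 log K)`, `K exp (-b ^ 2 / 2) = 1`. -/
def S_ENC : Prop := ∀ ρ : ℝ, 0 < ρ → ∃ C : ℝ, 0 < C ∧ ∀ K : ℕ, 2 ≤ K → ∀ᶠ k : ℕ in atTop, ∀ s : ℕ, 1 ≤ s →
  (s : ℝ) ≤ ρ * k → iw (cw (fun u : Fin K → ℤ => (nc u : ℝ)) k) s (fun _ => 0) ≤ C * √(log K)

/-- (T5) few clusters are not too unlikely: with `l = - log δ` and `b = C √(log K)`,
`δ ^ nc ≥ exp (-l b) * (1 + l b - l nc)`. -/
def S_TLO : Prop := ∀ δ ρ : ℝ, 0 < δ → δ ≤ 1 → 0 < ρ → ∃ C : ℝ, 0 < C ∧ ∀ K : ℕ, 2 ≤ K → ∀ᶠ k : ℕ in atTop, ∀ s : ℕ, 1 ≤ s →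
  (s : ℝ) ≤ ρ * k → exp (-C * √(log K)) ≤ iw (cw (fun u : Fin K → ℤ => δ ^ nc u) k) s (fun _ => 0)

end Pool.Agent.J4H39.KP
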