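import Mathlib
import Pool.Agent.J4H39.KP.F2

set_option autoImplicit false

/-! Project KP, (FULL): every invariant set of positive density nearly fills a positive proportion of the windows. -/

namespace Pool.Agent.J4H39.KP

open Finset Filter Real
open Pool.Agent.J4H39 (th0 tN)
open Pool.Agent.J4H26.PC (InvS ct kS)
open Pool.Agent.J4H26.KT (cw iw isE_cw isE_iw)
open Pool.Agent.J4H26.KP (mR mZ mom gR CentK S_MOM S_CENTK S_SHR)

/-- the two times -/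
theorem times {θ : ℝ} (hθ : 0 < θ) (hθ1 : θ < 1) : Tendsto (fun N : ℕ => tN (1 / th0) N - tN (θ / th0) N) atTop atTop ∧
    ∀ᶠ N : ℕ in atTop, 1 ≤ tN (θ / th0) N ∧
      ((tN (θ / th0) N : ℕ) : ℝ) ≤ 2 * θ / (1 - θ) * ((tN (1 / th0) N - tN (θ / th0) N : ℕ) : ℝ) := by
  have h0 := Pool.Agent.J4H39.th0_pos
  have hL : Tendsto (fun N : ℕ => Real.logb 2 (N : ℝ)) atTop atTop :=
    (Real.tendsto_logb_atTop (by norm_num)).comp tendsto_natCast_atTop_atTop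
  have hθ' : 0 < 1 - θ := by linarith
  have low : ∀ N : ℕ, 0 ≤ Real.logb 2 (N : ℝ) → (1 - θ) / th0 * Real.logb 2 (N : ℝ) - 1 ≤
      ((tN (1 / th0) N - tN (θ / th0) N : ℕ) : ℝ) := by
    intro N hN
    have h1 : (1 / th0) * Real.logb 2 (N : ℝ) < ((tN (1 / th0) N : ℕ) : ℝ) + 1 := by unfold tN; exact Nat.lt_floor_add_one _
    have h2 : ((tN (θ / th0) N : ℕ) : ℝ) ≤ (θ / th0) * Real.logb 2 (N : ℝ) := by
      unfold tN; exact Nat.floor_le (by positivity)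
    have h3 : ((tN (1 / th0) N : ℕ) : ℝ) - ((tN (θ / th0) N : ℕ) : ℝ) ≤ ((tN (1 / th0) N - tN (θ / th0) N : ℕ) : ℝ) := by
      have : tN (1 / th0) N ≤ (tN (1 / th0) N - tN (θ / th0) N) + tN (θ / th0) N := by omega
      have h4 : ((tN (1 / th0) N : ℕ) : ℝ) ≤ ((tN (1 / th0) N - tN (θ / th0) N : ℕ) : ℝ) + ((tN (θ / th0) N : ℕ) : ℝ) := by
        exact_mod_cast this
      linarith
    have e : (1 - θ) / th0 * Real.logb 2 (N : ℝ) = (1 / th0) * Real.logb 2 (N : ℝ) - (θ / th0) * Real.logb 2 (N : ℝ) := by ring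
    rw [e]
    linarith
  constructor
  · have h1 : Tendsto (fun N : ℕ => (1 - θ) / th0 * Real.logb 2 (N : ℝ) - 1) atTop atTop :=
      tendsto_atTop_add_const_right _ _ (hL.const_mul_atTop (by positivity))
    have h2 : Tendsto (fun N : ℕ => ((tN (1 / th0) N - tN (θ / th0) N : ℕ) : ℝ)) atTop atTop := by
      apply tendsto_atTop_mono' _ _ h1
      filter_upwards [hL.eventually_ge_atTop 0] with N hN
      exact low N hN
    exact tendsto_natCast_atTop_iff.1 h2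
  · filter_upwards [hL.eventually_ge_atTop (th0 / θ), hL.eventually_ge_atTop (2 * th0 / (1 - θ)), hL.eventually_ge_atTop 0]
      with N h1 h2 h3
    constructor
    · unfold tN
      apply Nat.le_floor
      rw [div_le_iff₀ hθ] at h1
      push_cast
      rw [div_mul_eq_mul_div, le_div_iff₀ h0]
      linarith
    · have h4 : ((tN (θ / th0) N : ℕ) : ℝ) ≤ (θ / th0) * Real.logb 2 (N : ℝ) := by
        unfold tN; exact Nat.floor_le (by positivity)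
      refine h4.trans ?_
      have h5 := mul_le_mul_of_nonneg_left (low N h3) (show 0 ≤ 2 * θ / (1 - θ) by positivity)
      refine le_trans ?_ h5
      have e : 2 * θ / (1 - θ) * ((1 - θ) / th0 * Real.logb 2 (N : ℝ) - 1) =
          2 * (θ / th0 * Real.logb 2 (N : ℝ)) - 2 * θ / (1 - θ) := by field_simp
      rw [e]
      have h6 : 2 * θ / (1 - θ) ≤ θ / th0 * Real.logb 2 (N : ℝ) := by
        calc 2 * θ / (1 - θ) = θ / th0 * (2 * th0 / (1 - θ)) := by field_simp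
          _ ≤ θ / th0 * Real.logb 2 (N : ℝ) := mul_le_mul_of_nonneg_left h2 (by positivity)
      linarith

open Classical in
/-- the share of the large values -/
theorem share_count {N K : ℕ} (hN : 1 ≤ N) {ε : ℝ} (hε1 : ε < 1) {x : ℕ → ℝ} (h0 : ∀ n, 0 ≤ x n) (h1 : ∀ n, x n ≤ 1)
    (h : 3 / 2 * (1 - ε) ^ K ≤ (∑ n ∈ Finset.Icc 1 N, x n ^ K) / N) :
    (1 - ε) ^ K / 2 * N ≤ #((Finset.Icc 1 N).filter (fun n => 1 - ε ≤ x n)) := by
  have hN0 : (0 : ℝ) < N := by exact_mod_cast hN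
  rw [le_div_iff₀ hN0] at h
  have h2 : ∑ n ∈ Finset.Icc 1 N, x n ^ K ≤ ∑ n ∈ Finset.Icc 1 N, ((if 1 - ε ≤ x n then (1 : ℝ) else 0) + (1 - ε) ^ K) := by
    apply sum_le_sum
    intro n _
    have h3 : (0 : ℝ) ≤ (1 - ε) ^ K := pow_nonneg (by linarith) _
    by_cases hx : 1 - ε ≤ x n
    · rw [if_pos hx]
      have := pow_le_one₀ (n := K) (h0 n) (h1 n)
      linarith
    · rw [if_neg hx, zero_add]
      exact pow_le_pow_left₀ (h0 n) (not_le.1 hx).le K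
  rw [sum_add_distrib, sum_const, Nat.card_Icc, Nat.add_sub_cancel, nsmul_eq_mul, ← sum_filter, sum_const, nsmul_eq_mul, mul_one] at h2
  linarith

/-- **Full windows.**  For `0 < θ < 1`, `ε > 0` and `δ₀ > 0` every invariant set of density at least `δ₀` contains at least
`(1 - ε) H` elements of at least `c N` of the windows of length `H = ⌊N ^ θ⌋`. -/
theorem t_FULL (hM : S_MOM) (hC : S_CENTK) (hS : S_SHR) {θ ε δ₀ : ℝ} (hθ : 0 < θ) (hθ1 : θ < 1) (hε : 0 < ε) (hδ₀ : 0 < δ₀) :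
    ∃ c : ℝ, 0 < c ∧ ∀ᶠ N : ℕ in atTop, ∀ s : ℤ, (s = 1 ∨ s = -1) → ∀ R : Set ℤ, InvS s R → ∀ δ : ℝ,
      Tendsto (fun N : ℕ => ct s R N / N) atTop (nhds δ) → δ₀ ≤ δ →
      c * N ≤ ({n : ℕ | (1 ≤ n ∧ n ≤ N) ∧ (1 - ε) * ⌊(N : ℝ) ^ θ⌋₊ ≤
        ({h : ℕ | (1 ≤ h ∧ h ≤ ⌊(N : ℝ) ^ θ⌋₊) ∧ s * n + h ∈ R}.ncard : ℝ)}.ncard : ℝ) := by
  classical
  obtain ⟨e, he⟩ : ∃ e : ℝ, e = min ε (1 / 2) := ⟨_, rfl⟩
  have he0 : 0 < e := by rw [he]; exact lt_min hε (by norm_num)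
  have he1 : e < 1 := lt_of_le_of_lt (by rw [he]; exact min_le_right _ _) (by norm_num : (1 / 2 : ℝ) < 1)
  have heε : e ≤ ε := by rw [he]; exact min_le_left _ _
  obtain ⟨δ₁, hδ₁⟩ : ∃ δ₁ : ℝ, δ₁ = min δ₀ 1 := ⟨_, rfl⟩
  have hδ₁0 : 0 < δ₁ := by rw [hδ₁]; exact lt_min hδ₀ one_pos
  have hδ₁1 : δ₁ ≤ 1 := by rw [hδ₁]; exact min_le_right _ _
  have hδ₁2 : δ₁ ≤ δ₀ := by rw [hδ₁]; exact min_le_left _ _
  have hθ' : 0 < 1 - θ := by linarith
  obtain ⟨K₀, hK₀⟩ := mom_low hδ₁0 hδ₁1 he0 he1 (show 0 < 2 * θ / (1 - θ) by positivity)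
  obtain ⟨ψ, hψ, hcent⟩ := hC
  obtain ⟨q, hq⟩ : ∃ q : ℝ, q = (1 - e) ^ (K₀ + 1) / 4 := ⟨_, rfl⟩
  have hpow : 0 < (1 - e) ^ (K₀ + 1) := pow_pos (by linarith) _
  have hq0 : 0 < q := by rw [hq]; positivity
  obtain ⟨ht1, ht2⟩ := times hθ hθ1
  refine ⟨(1 - e) ^ (K₀ + 1) / 2, by positivity, ?_⟩
  have hNθ : Tendsto (fun N : ℕ => (N : ℝ) ^ θ) atTop atTop := (tendsto_rpow_atTop hθ).comp tendsto_natCast_atTop_atTop
  filter_upwards [hM ψ hψ K₀ θ hθ hθ1 q hq0, hS (K₀ + 1) θ q hθ hθ1 hq0, ht1.eventually (hK₀ (K₀ + 1) (by omega)), ht2,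
    eventually_ge_atTop 1, hNθ.eventually_ge_atTop 2] with N g1 g2 g3 g4 hN hN2
  intro s hs R hR δ hδ hδδ
  obtain ⟨m, hm1, hm2⟩ := hcent (K₀ + 1) s hs (fun _ => R) (fun _ => hR)
  have hmB : ∀ B : Finset (Fin (K₀ + 1)), B.Nonempty → δ₁ ≤ m B := by
    intro B hB
    have h1 := hm1 B
    have e1 : {n : ℤ | ∀ i ∈ B, n ∈ (fun _ : Fin (K₀ + 1) => R) i} = R := by
      ext n
      constructor
      · intro h
        obtain ⟨i, hi⟩ := hB
        exact h i hi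
      · intro h i _
        exact h
    rw [e1] at h1
    have h2 := tendsto_nhds_unique h1 hδ
    rw [h2]
    linarith
  obtain ⟨H, hH⟩ : ∃ H : ℕ, H = ⌊(N : ℝ) ^ θ⌋₊ := ⟨_, rfl⟩
  have hHl : (N : ℝ) ^ θ - 1 < H := by
    have := Nat.lt_floor_add_one ((N : ℝ) ^ θ)
    rw [← hH] at this
    linarith
  have hHu : (H : ℝ) ≤ (N : ℝ) ^ θ := by rw [hH]; exact Nat.floor_le (by positivity)
  have hH1 : (1 : ℝ) ≤ H := by
    have h3 : (1 : ℝ) < H + 1 - 0 := by linarith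
    have h4 : 1 < H + 1 := by
      have : (1 : ℝ) < ((H + 1 : ℕ) : ℝ) := by push_cast; linarith
      exact_mod_cast this
    exact_mod_cast (by omega : 1 ≤ H)
  have hH0 : (0 : ℝ) < H := by linarith
  have b1 := g1 _ _ m hm2 (H : ℝ) (by linarith) (by linarith)
  have b2 := g2 s hs (fun _ => R)
  rw [← hH] at b2
  have b3 := g3 (tN (θ / th0) N) g4.1 g4.2
  have b4 : iw (cw (fun u : Fin (K₀ + 1) → ℤ => δ₁ ^ nc u) (tN (1 / th0) N - tN (θ / th0) N)) (tN (θ / th0) N) (fun _ => 0) ≤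
      iw (cw (mZ m) (tN (1 / th0) N - tN (θ / th0) N)) (tN (θ / th0) N) (fun _ => 0) := by
    apply (isE_iw _ _).mono
    intro z
    apply (isE_cw _ _).mono
    intro u
    exact mZ_low hδ₁0.le hδ₁1 hmB u
  have b5 : 3 / 2 * (1 - e) ^ (K₀ + 1) ≤ mom s (fun _ : Fin (K₀ + 1) => R) N H := by
    have c1 := (abs_le.1 b1).1
    have c2 := (abs_le.1 b2).1
    have c3 : 2 * q = (1 - e) ^ (K₀ + 1) / 2 := by rw [hq]; ring
    linarith
  obtain ⟨x, hx⟩ : ∃ x : ℕ → ℝ, x = fun n : ℕ => ({h : ℕ | (1 ≤ h ∧ h ≤ H) ∧ s * (n : ℕ) + h ∈ R}.ncard : ℝ) / H := ⟨_, rfl⟩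
  have hx0 : ∀ n, 0 ≤ x n := fun n => by rw [hx]; positivity
  have hx1 : ∀ n, x n ≤ 1 := by
    intro n
    rw [hx]
    simp only
    rw [div_le_one hH0]
    have h1 : {h : ℕ | (1 ≤ h ∧ h ≤ H) ∧ s * n + h ∈ R} ⊆ ((Finset.Icc 1 H : Finset ℕ) : Set ℕ) := by
      intro h hh
      rw [Finset.mem_coe, Finset.mem_Icc]
      exact hh.1
    have h2 := Set.ncard_le_ncard h1 (Finset.finite_toSet _)
    rw [Set.ncard_coe_finset, Nat.card_Icc, Nat.add_sub_cancel] at h2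
    exact_mod_cast h2
  have b6 : 3 / 2 * (1 - e) ^ (K₀ + 1) ≤ (∑ n ∈ Finset.Icc 1 N, x n ^ (K₀ + 1)) / N := by
    refine b5.trans (le_of_eq ?_)
    unfold mom
    congr 1
    apply sum_congr rfl
    intro n _
    rw [prod_const, card_univ, Fintype.card_fin, hx]
  have b7 := share_count hN he1 hx0 hx1 b6
  refine b7.trans ?_
  have hfin : {n : ℕ | (1 ≤ n ∧ n ≤ N) ∧ (1 - ε) * ⌊(N : ℝ) ^ θ⌋₊ ≤
        ({h : ℕ | (1 ≤ h ∧ h ≤ ⌊(N : ℝ) ^ θ⌋₊) ∧ s * n + h ∈ R}.ncard : ℝ)}.Finite := by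
    apply (Finset.finite_toSet (Finset.Icc 1 N)).subset
    intro n hn
    rw [Finset.mem_coe, Finset.mem_Icc]
    exact hn.1
  have hsub : (((Finset.Icc 1 N).filter (fun n => 1 - e ≤ x n) : Finset ℕ) : Set ℕ) ⊆
      {n : ℕ | (1 ≤ n ∧ n ≤ N) ∧ (1 - ε) * ⌊(N : ℝ) ^ θ⌋₊ ≤
        ({h : ℕ | (1 ≤ h ∧ h ≤ ⌊(N : ℝ) ^ θ⌋₊) ∧ s * n + h ∈ R}.ncard : ℝ)} := by
    intro n hn
    rw [Finset.mem_coe, Finset.mem_filter, Finset.mem_Icc] at hn
    refine ⟨hn.1, ?_⟩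
    rw [← hH]
    have h1 := hn.2
    rw [hx] at h1
    simp only at h1
    rw [le_div_iff₀ hH0] at h1
    refine le_trans ?_ h1
    exact mul_le_mul_of_nonneg_right (by linarith) hH0.le
  have h5 := Set.ncard_le_ncard hsub hfin
  rw [Set.ncard_coe_finset] at h5
  exact_mod_cast h5

end Pool.Agent.J4H39.KP
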