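import Mathlib
import Pool.Agent.J4H94.PC.Ft2
import Pool.Agent.J4H39.K7
import Pool.Agent.J4H67.KT.Mix2

set_option autoImplicit false

/-! Project KP: correlations of invariant functions along `K` forms; one stage of the transfer. -/

namespace Pool.Agent.J4H39.KP

open Finset Filter Real
open Pool.Agent.J4H39 (T od ex pb ns rn stP stK lb GK GS Cm DV th0 Per id1 id1_pos id1_neg id1_nonneg id1_le_one par
  ex_mono ex_congr ex_add ex_mul ex_const)
open Pool.Agent.J4H26.PC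
open Pool.Agent.J4H95.PC
open Pool.Agent.J4H94.PC (Av Av_bd Av_half abs_half Av_cc)

variable {K : ℕ}

/-- correlation along the forms `3 ^ D i * n + r i`, `n ∈ [κ X, κ X + X)`; `s i = (D i, r i)` -/
noncomputable def ck (f : Fin K → ℤ → ℝ) (κ X : ℝ) (s : Fin K → ℤ × ℤ) : ℝ :=
  (∑ n ∈ Finset.Ico ⌈κ * X⌉ ⌈κ * X + X⌉, ∏ i, f i (3 ^ (s i).1.toNat * n + (s i).2)) / max X 1

/-- the product along the companions -/
noncomputable def Fq (f : Fin K → ℤ → ℝ) (s : Fin K → ℤ × ℤ) (z : ℤ) : ℝ := ∏ i, f i (par (s i) z)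

theorem prodK_bd {f : Fin K → ℤ → ℝ} (hf : ∀ i, Iv (f i)) (z : Fin K → ℤ) : |∏ i, f i (z i)| ≤ 1 := by
  rw [Finset.abs_prod]
  exact Finset.prod_le_one (fun i _ => abs_nonneg _) (fun i _ => (hf i).bd _)

/-- changing the arguments one at a time -/
theorem prodK_diff {f : Fin K → ℤ → ℝ} (hf : ∀ i, Iv (f i)) (z z' : Fin K → ℤ) :
    |∏ i, f i (z' i) - ∏ i, f i (z i)| ≤ ∑ i, |f i (z' i) - f i (z i)| := by
  have gen : ∀ S : Finset (Fin K), |∏ i ∈ S, f i (z' i) - ∏ i ∈ S, f i (z i)| ≤ ∑ i ∈ S, |f i (z' i) - f i (z i)| := by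
    intro S
    induction S using Finset.induction_on with
    | empty => simp
    | insert a S ha ih =>
      rw [prod_insert ha, prod_insert ha, sum_insert ha]
      have e : f a (z' a) * ∏ i ∈ S, f i (z' i) - f a (z a) * ∏ i ∈ S, f i (z i) =
          (f a (z' a) - f a (z a)) * ∏ i ∈ S, f i (z' i) + f a (z a) * (∏ i ∈ S, f i (z' i) - ∏ i ∈ S, f i (z i)) := by ring
      rw [e]
      refine (abs_add_le _ _).trans ?_
      rw [abs_mul, abs_mul]
      have h1 : |∏ i ∈ S, f i (z' i)| ≤ 1 := by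
        rw [Finset.abs_prod]
        exact Finset.prod_le_one (fun i _ => abs_nonneg _) (fun i _ => (hf i).bd _)
      have h2 := (hf a).bd (z a)
      have h3 := abs_nonneg (f a (z' a) - f a (z a))
      have h4 := abs_nonneg (∏ i ∈ S, f i (z' i) - ∏ i ∈ S, f i (z i))
      nlinarith [abs_nonneg (∏ i ∈ S, f i (z' i)), abs_nonneg (f a (z a))]
  exact gen univ

theorem one_diff {f : ℤ → ℝ} (hf : Iv f) {s : ℤ × ℤ} {y z : ℤ} (h : Pool.Agent.J4H39.Rel s y z) (k : ℕ) :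
    |f z - f y| ≤ 2 * id1 (rn stP k s y ≠ (0, 0)) := by
  by_cases c : rn stP k s y = (0, 0)
  · rw [Iv_merge hf h c, sub_self, abs_zero]
    have := id1_nonneg (rn stP k s y ≠ (0, 0))
    linarith
  · rw [id1_pos (P := rn stP k s y ≠ (0, 0)) c]
    have h1 := abs_sub (f z) (f y)
    have h2 := hf.bd z
    have h3 := hf.bd y
    linarith

/-- one stage, aligned intervals -/
theorem alignedK {f : Fin K → ℤ → ℝ} (hf : ∀ i, Iv (f i)) {s : Fin K → ℤ × ℤ} (hs : ∀ i, 0 ≤ (s i).1) {j k m a b o₀ : ℕ} {η : ℝ}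
    (hmk : m + k ≤ o₀) (hη : ∀ r : ℤ, |r| ≤ 4 ^ (m + 1 + a) → ns k (0, r) ≤ η)
    (v₀ : ℤ) {Y : ℕ} (hY : 1 ≤ Y) (Lg : ℕ × (Fin K → ℤ × ℤ) → Prop)
    (hL : ∀ μ, Lg μ → o₀ ≤ μ.1 ∧ GK a b μ.2 ∧ ∀ i, 0 ≤ (μ.2 i).1) :
    |Av (fun n => ∏ i, f i (3 ^ (s i).1.toNat * n + (s i).2)) (2 ^ j) v₀ Y -
      ex j (fun w => Av (Fq f (rn stK j s w)) (3 ^ od j w) v₀ Y)| ≤
      2 * (DV stK j s m + 2 * K * η + pb j (fun w => ¬ Lg (lb stK j s w))) := by
  classical
  have hη0 : 0 ≤ η := (Pool.Agent.J4H39.ns_nonneg k (0, 0)).trans (hη 0 (by simp))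
  have hY0 : (0 : ℝ) < Y := by exact_mod_cast hY
  have hFp : ∀ (s : Fin K → ℤ × ℤ) (z : ℤ), |Fq f s z| ≤ 1 := fun s z => prodK_bd hf (fun i => par (s i) z)
  obtain ⟨gg, hgg⟩ : ∃ gg : ℕ × (Fin K → ℤ × ℤ) → ℤ → ℝ, gg = fun μ z => (1 + Fq f μ.2 z) / 2 := ⟨_, rfl⟩
  obtain ⟨V, hV⟩ : ∃ V : ℕ × (Fin K → ℤ × ℤ) → ℝ,
    V = fun μ => (1 + Av (Fq f μ.2) (3 ^ μ.1) v₀ Y) / 2 := ⟨_, rfl⟩
  have hp3 : ∀ o : ℕ, 1 ≤ 3 ^ o := fun o => Nat.one_le_pow _ _ (by norm_num)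
  have key := Pool.Agent.J4H39.stage stK s (j := j) (m := m) gg
    (fun μ z => by rw [hgg]; exact (abs_half (hFp _ _)).1)
    (fun μ z => by rw [hgg]; exact (abs_half (hFp _ _)).2) V
    (fun μ => by rw [hV]; exact (abs_half (Av_bd (hFp _) (hp3 _) hY)).1)
    (fun μ => by rw [hV]; exact (abs_half (Av_bd (hFp _) (hp3 _) hY)).2) v₀ Y (δ := 2 * K * η) (by positivity)
    Lg (fun μ h => by have := (hL μ h).1; omega) (by
      intro w hw hgood c hc0 hc1 _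
      obtain ⟨h1, h2, h3⟩ := hL _ hgood
      obtain ⟨μ, hμ⟩ : ∃ μ, μ = lb stK j s ((w : ℕ) : ℤ) := ⟨_, rfl⟩
      rw [← hμ] at h1 h2 h3 ⊢
      obtain ⟨o, ho⟩ : ∃ o, o = μ.1 := ⟨_, rfl⟩
      rw [← ho] at h1 ⊢
      obtain ⟨d, hd⟩ : ∃ d : Fin K → ℕ, d = fun i => (μ.2 i).1.toNat := ⟨_, rfl⟩
      obtain ⟨r', hr'⟩ : ∃ r' : Fin K → ℤ, r' = fun i => (μ.2 i).2 := ⟨_, rfl⟩
      have hs' : ∀ i, μ.2 i = ((d i : ℤ), r' i) := by
        intro i
        rw [hd, hr']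
        simp only
        rw [Int.toNat_of_nonneg (h3 i)]
      have hda : ∀ i, d i ≤ a := by
        intro i
        have := (h2 i).1
        rw [hs' i] at this
        simp only at this
        rw [abs_of_nonneg (by positivity)] at this
        exact_mod_cast this
      obtain ⟨Z, hZ⟩ : ∃ Z, Z = 3 ^ (o - m) * Y := ⟨_, rfl⟩
      rw [← hZ]
      have hkZ : 2 ^ k ≤ Z := by
        rw [hZ]
        calc 2 ^ k ≤ 3 ^ k := Nat.pow_le_pow_left (by norm_num) k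
          _ ≤ 3 ^ (o - m) := Nat.pow_le_pow_right (by norm_num) (by omega)
          _ ≤ 3 ^ (o - m) * Y := Nat.le_mul_of_pos_right _ hY
      have hkZr : (2 : ℝ) ^ k ≤ Z := by exact_mod_cast hkZ
      have hZ0 : (0 : ℝ) < Z := lt_of_lt_of_le (by positivity) hkZr
      obtain ⟨A, hA⟩ : ∃ A : ℤ → ℝ, A = fun c => ∑ i ∈ range Z, gg μ (c + 3 ^ m * (3 ^ (o - m) * v₀ + (i : ℕ))) :=
        ⟨_, rfl⟩
      -- the classes are similar
      have claim1 : ∀ c c' : ℤ, 0 ≤ c → c < 3 ^ m → 0 ≤ c' → c' < 3 ^ m → |A c - A c'| ≤ 2 * K * η * Z := by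
        intro c c' a1 a2 a3 a4
        obtain ⟨h, hh⟩ : ∃ h, h = c - c' := ⟨_, rfl⟩
        have hhb : |h| ≤ 4 ^ m := by
          have b1 : (3 : ℤ) ^ m ≤ 4 ^ m := pow_le_pow_left₀ (by norm_num) (by norm_num) m
          rw [hh, abs_le]
          constructor <;> linarith
        have hb2 : ∀ i, ns k (0, 3 ^ d i * h) ≤ η := by
          intro i
          apply hη
          rw [abs_mul, abs_of_pos (by positivity : (0 : ℤ) < 3 ^ d i)]
          have b2 : (3 : ℤ) ^ d i ≤ 4 ^ a :=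
            (pow_le_pow_left₀ (by norm_num) (by norm_num) (d i)).trans (pow_le_pow_right₀ (by norm_num) (hda i))
          calc (3 : ℤ) ^ d i * |h| ≤ 4 ^ a * 4 ^ m := mul_le_mul b2 hhb (abs_nonneg _) (by positivity)
            _ = 4 ^ (a + m) := by rw [pow_add]
            _ ≤ 4 ^ (m + 1 + a) := pow_le_pow_right₀ (by norm_num) (by omega)
        rw [hA]
        simp only
        rw [← sum_sub_distrib]
        refine (abs_sum_le_sum_abs _ _).trans ?_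
        have hpt : ∀ i ∈ range Z, |gg μ (c + 3 ^ m * (3 ^ (o - m) * v₀ + (i : ℕ))) -
            gg μ (c' + 3 ^ m * (3 ^ (o - m) * v₀ + (i : ℕ)))| ≤
            ∑ l, id1 (rn stP k (0, 3 ^ d l * h) (3 ^ (d l + m) * ((i : ℕ) : ℤ) +
              (3 ^ d l * (c' + 3 ^ m * (3 ^ (o - m) * v₀)) + r' l)) ≠ (0, 0)) := by
          intro i _
          obtain ⟨z, hz⟩ : ∃ z : ℤ, z = c' + 3 ^ m * (3 ^ (o - m) * v₀ + (i : ℕ)) := ⟨_, rfl⟩
          have e1 : c + 3 ^ m * (3 ^ (o - m) * v₀ + (i : ℕ)) = z + h := by rw [hz, hh]; ring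
          have e3 : ∀ l, 3 ^ (d l + m) * ((i : ℕ) : ℤ) + (3 ^ d l * (c' + 3 ^ m * (3 ^ (o - m) * v₀)) + r' l) =
              3 ^ d l * z + r' l := by intro l; rw [hz, pow_add]; ring
          rw [e1, ← hz, hgg]
          simp only [e3]
          unfold Fq
          have e4 : ∀ (l : Fin K) (z : ℤ), par (μ.2 l) z = 3 ^ d l * z + r' l := by
            intro l z
            rw [hs' l]
            exact Pool.Agent.J4H39.par_eq (Pool.Agent.J4H39.rel_nat (d l) (r' l) z)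
          simp only [e4]
          have e5 : (1 + ∏ l, f l (3 ^ d l * (z + h) + r' l)) / 2 - (1 + ∏ l, f l (3 ^ d l * z + r' l)) / 2 =
              (∏ l, f l (3 ^ d l * (z + h) + r' l) - ∏ l, f l (3 ^ d l * z + r' l)) / 2 := by ring
          rw [e5, abs_div, abs_of_pos (by norm_num : (0 : ℝ) < 2)]
          have hpd := prodK_diff hf (fun l => 3 ^ d l * z + r' l) (fun l => 3 ^ d l * (z + h) + r' l)
          have h6 : ∑ l, |f l (3 ^ d l * (z + h) + r' l) - f l (3 ^ d l * z + r' l)| ≤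
              ∑ l, 2 * id1 (rn stP k (0, 3 ^ d l * h) (3 ^ d l * z + r' l) ≠ (0, 0)) := by
            apply sum_le_sum
            intro l _
            have e7 : 3 ^ d l * (z + h) + r' l = 3 ^ d l * z + r' l + 3 ^ d l * h := by ring
            rw [e7]
            exact one_diff (hf l) (Pool.Agent.J4H39.rel_zero (3 ^ d l * h) (3 ^ d l * z + r' l)) k
          rw [← mul_sum] at h6
          linarith
        refine (sum_le_sum hpt).trans ?_
        rw [sum_comm]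
        have q : ∀ l ∈ (univ : Finset (Fin K)), ∑ i ∈ range Z, id1 (rn stP k (0, 3 ^ d l * h) (3 ^ (d l + m) * ((i : ℕ) : ℤ) +
              (3 ^ d l * (c' + 3 ^ m * (3 ^ (o - m) * v₀)) + r' l)) ≠ (0, 0)) ≤ 2 * η * Z := by
          intro l _
          have q2 := Pool.Agent.J4H39.cnt_aff (Pool.Agent.J4H39.per_ns k (0, 3 ^ d l * h))
            (Pool.Agent.J4H39.pow3_odd (d l + m)) (3 ^ d l * (c' + 3 ^ m * (3 ^ (o - m) * v₀)) + r' l) Z
          have q4 : ((Z : ℝ) + 2 ^ k) * pb k (fun y => rn stP k (0, 3 ^ d l * h) y ≠ (0, 0)) ≤ (2 * Z) * η :=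
            mul_le_mul (by linarith) (hb2 l) (Pool.Agent.J4H39.pb_nonneg _ _) (by positivity)
          linarith
        refine (sum_le_sum q).trans (le_of_eq ?_)
        rw [sum_const, card_univ, Fintype.card_fin, nsmul_eq_mul]
        ring
      -- the average over the classes
      have claim2 : (Z : ℝ) * V μ = (∑ c₀ ∈ range (3 ^ m), A ((c₀ : ℕ) : ℤ)) / 3 ^ m := by
        have e1 : 3 ^ o * Y = 3 ^ m * Z := by
          rw [hZ, ← mul_assoc, ← pow_add]; congr 2; omega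
        have e1r : (((3 ^ o : ℕ) : ℝ)) * Y = 3 ^ m * Z := by exact_mod_cast e1
        rw [hV]
        simp only
        rw [← ho, Av_half _ _ (hp3 _) hY, e1, Pool.Agent.J4H39.sum_block, sum_comm, e1r]
        have e2 : ∑ y ∈ range (3 ^ m), ∑ x ∈ range Z, (1 + Fq f μ.2 (((3 ^ o : ℕ) : ℤ) * v₀ +
            ((y + 3 ^ m * x : ℕ) : ℤ))) / 2 = ∑ c₀ ∈ range (3 ^ m), A ((c₀ : ℕ) : ℤ) := by
          apply sum_congr rfl
          intro c₀ _
          rw [hA, hgg]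
          simp only
          apply sum_congr rfl
          intro i _
          have e3 : (3 : ℤ) ^ o = 3 ^ m * 3 ^ (o - m) := by rw [← pow_add]; congr 1; omega
          have e4 : ((3 ^ o : ℕ) : ℤ) * v₀ + ((c₀ + 3 ^ m * i : ℕ) : ℤ) =
              (c₀ : ℤ) + 3 ^ m * (3 ^ (o - m) * v₀ + (i : ℕ)) := by
            push_cast
            rw [e3]; ring
          rw [e4]
        rw [e2]
        field_simp
      have hfin : |A c - Z * V μ| ≤ 2 * K * η * Z := by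
        have hp : (0 : ℝ) < 3 ^ m := by positivity
        have e5 : A c - Z * V μ = (∑ c₀ ∈ range (3 ^ m), (A c - A ((c₀ : ℕ) : ℤ))) / 3 ^ m := by
          rw [claim2, sum_sub_distrib, sum_const, card_range, nsmul_eq_mul]
          push_cast
          field_simp
        rw [e5, abs_div, abs_of_pos hp, div_le_iff₀ hp]
        refine (abs_sum_le_sum_abs _ _).trans ?_
        have : ∑ c₀ ∈ range (3 ^ m), |A c - A ((c₀ : ℕ) : ℤ)| ≤ ∑ c₀ ∈ range (3 ^ m), 2 * K * η * Z := by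
          apply sum_le_sum
          intro c₀ hc₀
          rw [mem_range] at hc₀
          exact claim1 c _ hc0 hc1 (by positivity) (by exact_mod_cast hc₀)
        rw [sum_const, card_range, nsmul_eq_mul] at this
        push_cast at this
        linarith
      rw [hA] at hfin
      exact hfin)
  -- the identity
  obtain ⟨G, hG⟩ : ∃ G : ℤ → ℝ, G = fun n => ∏ i, f i (3 ^ (s i).1.toNat * n + (s i).2) := ⟨_, rfl⟩
  have e1 : ex j (fun w => ∑ v ∈ range Y, gg (lb stK j s w) (T^[j] w % 3 ^ od j w + 3 ^ od j w * (v₀ + (v : ℕ)))) =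
      (∑ u ∈ range (2 ^ j * Y), (1 + G (((2 ^ j : ℕ) : ℤ) * v₀ + (u : ℕ))) / 2) / 2 ^ j := by
    unfold ex
    congr 1
    rw [Pool.Agent.J4H39.sum_block, sum_comm]
    apply sum_congr rfl
    intro v _
    apply sum_congr rfl
    intro w hw
    rw [mem_range] at hw
    rw [Pool.Agent.J4H39.T_mod j (by positivity) (by exact_mod_cast hw), ← Pool.Agent.J4H39.T_add]
    obtain ⟨n, hn⟩ : ∃ n : ℤ, n = ((w : ℕ) : ℤ) + 2 ^ j * (v₀ + (v : ℕ)) := ⟨_, rfl⟩
    have h2 : (lb stK j s ((w : ℕ) : ℤ)).2 = rn stK j s n := by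
      unfold lb
      simp only
      rw [hn]
      exact (Pool.Agent.J4H39.per_rn stK _ (le_refl j) ((w : ℕ) : ℤ) (v₀ + (v : ℕ))).symm
    rw [hgg]
    simp only
    rw [h2, ← hn]
    unfold Fq
    have h4 : ((2 ^ j : ℕ) : ℤ) * v₀ + ((w + 2 ^ j * v : ℕ) : ℤ) = n := by rw [hn]; push_cast; ring
    rw [h4, hG]
    simp only
    congr 2
    apply prod_congr rfl
    intro i _
    rw [Pool.Agent.J4H39.rn_stK_apply]
    have hsi : s i = (((s i).1.toNat : ℤ), (s i).2) := by rw [Int.toNat_of_nonneg (hs i)]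
    have h6 := (Pool.Agent.J4H39.rel_rn (Pool.Agent.J4H39.rel_nat (s i).1.toNat (s i).2 n) j).1
    rw [← hsi] at h6
    rw [Pool.Agent.J4H39.par_eq h6, Iv_iter (hf i)]
  rw [e1] at key
  have e2 : (1 + Av G (2 ^ j) v₀ Y) / 2 = (∑ u ∈ range (2 ^ j * Y), (1 + G (((2 ^ j : ℕ) : ℤ) * v₀ + (u : ℕ))) / 2) /
      2 ^ j / Y := by
    rw [Av_half G v₀ (Nat.one_le_pow _ _ (by norm_num)) hY]
    push_cast
    rw [div_div]
  have e3 : ex j (fun w => V (lb stK j s w)) =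
      (1 + ex j (fun w => Av (Fq f (rn stK j s w)) (3 ^ od j w) v₀ Y)) / 2 := by
    have e4 : ∀ w, V (lb stK j s w) = 1 / 2 + (1 / 2) * Av (Fq f (rn stK j s w)) (3 ^ od j w) v₀ Y := by
      intro w
      rw [hV]
      unfold lb
      simp only
      ring
    rw [ex_congr e4, ex_add, ex_const, ex_mul]; ring
  rw [e3] at key
  obtain ⟨S, hS⟩ : ∃ S : ℝ, S = (∑ u ∈ range (2 ^ j * Y), (1 + G (((2 ^ j : ℕ) : ℤ) * v₀ + (u : ℕ))) / 2) / 2 ^ j :=
    ⟨_, rfl⟩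
  rw [← hS] at key e2
  obtain ⟨E, hE⟩ : ∃ E : ℝ, E = ex j (fun w => Av (Fq f (rn stK j s w)) (3 ^ od j w) v₀ Y) := ⟨_, rfl⟩
  rw [← hE] at key ⊢
  rw [← hG]
  have e6 : Av G (2 ^ j) v₀ Y - E = 2 * ((S - Y * ((1 + E) / 2)) / Y) := by
    have : S = Y * ((1 + Av G (2 ^ j) v₀ Y) / 2) := by rw [e2]; field_simp
    rw [this]
    field_simp
    ring
  rw [e6, abs_mul, abs_of_pos (by norm_num : (0 : ℝ) < 2), abs_div, abs_of_pos hY0]
  apply mul_le_mul_of_nonneg_left _ (by norm_num)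
  rw [div_le_iff₀ hY0]
  linarith

theorem ck_bd {f : Fin K → ℤ → ℝ} (hf : ∀ i, Iv (f i)) (κ : ℝ) {X : ℝ} (hX : 0 ≤ X) (s : Fin K → ℤ × ℤ) :
    |ck f κ X s| ≤ 2 := by
  unfold ck
  have h0 : (0 : ℝ) < max X 1 := lt_of_lt_of_le one_pos (le_max_right _ _)
  rw [abs_div, abs_of_pos h0, div_le_iff₀ h0]
  refine (abs_sum_le_sum_abs _ _).trans ?_
  have h1 : ∑ n ∈ Finset.Ico ⌈κ * X⌉ ⌈κ * X + X⌉, |∏ i, f i (3 ^ (s i).1.toNat * n + (s i).2)| ≤
      ∑ n ∈ Finset.Ico ⌈κ * X⌉ ⌈κ * X + X⌉, (1 : ℝ) := sum_le_sum fun _ _ => prodK_bd hf _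
  refine h1.trans ?_
  rw [sum_const, Int.card_Ico, nsmul_eq_mul, mul_one]
  have := toNat_le (κ := κ) hX
  have a1 := le_max_left X 1
  have a2 := le_max_right X 1
  linarith

/-- one stage -/
theorem stage_ck {f : Fin K → ℤ → ℝ} (hf : ∀ i, Iv (f i)) {s : Fin K → ℤ × ℤ} (hs : ∀ i, 0 ≤ (s i).1) {j k m a b o₀ : ℕ} {η : ℝ}
    (hmk : m + k ≤ o₀) (hη : ∀ r : ℤ, |r| ≤ 4 ^ (m + 1 + a) → ns k (0, r) ≤ η)
    (Lg : ℕ × (Fin K → ℤ × ℤ) → Prop)
    (hL : ∀ μ, Lg μ → o₀ ≤ μ.1 ∧ GK a b μ.2 ∧ ∀ i, 0 ≤ (μ.2 i).1) (κ : ℝ) {X : ℝ} (hX : (2 : ℝ) ^ (j + 1) ≤ X) :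
    |ck f κ X s - ex j (fun y => ck f κ (3 ^ od j y * X / 2 ^ j) (rn stK j s y))| ≤
      10 * (2 ^ j / X) + 2 * DV stK j s m + 4 * K * η + 5 * pb j (fun w => ¬ Lg (lb stK j s w)) := by
  classical
  obtain ⟨U, hUd⟩ : ∃ U : ℝ, U = X / 2 ^ j := ⟨_, rfl⟩
  have h2j : (0 : ℝ) < 2 ^ j := by positivity
  have hX0 : 0 < X := lt_of_lt_of_le (by positivity) hX
  have hU : 2 ≤ U := by
    rw [hUd, le_div_iff₀ h2j]
    calc 2 * (2 : ℝ) ^ j = 2 ^ (j + 1) := by ring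
      _ ≤ X := hX
  have hU0 : 0 < U := by linarith
  obtain ⟨v₀, hv₀⟩ : ∃ v₀, v₀ = ⌊κ * U⌋ := ⟨_, rfl⟩
  obtain ⟨Y, hY⟩ : ∃ Y, Y = (⌊κ * U + U⌋ - ⌊κ * U⌋).toNat := ⟨_, rfl⟩
  have hY1 : 1 ≤ Y := by
    have f1 := Int.floor_le (κ * U)
    have f4 := Int.lt_floor_add_one (κ * U + U)
    have : ((⌊κ * U⌋ : ℤ) : ℝ) < ((⌊κ * U + U⌋ : ℤ) : ℝ) := by linarith
    have : ⌊κ * U⌋ < ⌊κ * U + U⌋ := by exact_mod_cast this
    omega
  have hFb : ∀ (s : Fin K → ℤ × ℤ) (n : ℤ), |(fun n => ∏ i, f i (3 ^ (s i).1.toNat * n + (s i).2)) n| ≤ 1 :=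
    fun _ _ => prodK_bd hf _
  -- the left side
  have hXU : X = ((2 ^ j : ℕ) : ℝ) * U := by rw [hUd]; push_cast; field_simp
  have s1 : |ck f κ X s - Av (fun n => ∏ i, f i (3 ^ (s i).1.toNat * n + (s i).2)) (2 ^ j) v₀ Y| ≤ 5 / U := by
    have := Av_cc (hFb s) (M := 2 ^ j) (Nat.one_le_pow _ _ (by norm_num)) (κ := κ) hU
    rw [← hXU, ← hY, ← hv₀] at this
    exact this
  have s2 := alignedK hf hs (j := j) hmk hη v₀ hY1 Lg hL
  -- the right side
  have s3 : |ex j (fun w => Av (Fq f (rn stK j s w)) (3 ^ od j w) v₀ Y) -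
      ex j (fun y => ck f κ (3 ^ od j y * X / 2 ^ j) (rn stK j s y))| ≤
      5 / U + 3 * pb j (fun w => ¬ Lg (lb stK j s w)) := by
    have hpt : ∀ w, |Av (Fq f (rn stK j s w)) (3 ^ od j w) v₀ Y -
        ck f κ (3 ^ od j w * X / 2 ^ j) (rn stK j s w)| ≤
        5 / U + 3 * id1 (¬ Lg (lb stK j s w)) := by
      intro w
      have h5 : 0 ≤ 5 / U := by positivity
      have hXw : 3 ^ od j w * X / 2 ^ j = ((3 ^ od j w : ℕ) : ℝ) * U := by rw [hUd]; push_cast; ring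
      by_cases hg1 : Lg (lb stK j s w)
      · rw [id1_neg (fun h => h hg1), mul_zero, add_zero]
        obtain ⟨_, _, h4⟩ := hL _ hg1
        have h4' : ∀ i, 0 ≤ (rn stK j s w i).1 := h4
        have e1 : Fq f (rn stK j s w) = fun n => ∏ i, f i (3 ^ (rn stK j s w i).1.toNat * n + (rn stK j s w i).2) := by
          funext n
          unfold Fq
          apply prod_congr rfl
          intro i _
          have hsi : rn stK j s w i = (((rn stK j s w i).1.toNat : ℤ), (rn stK j s w i).2) := by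
            rw [Int.toNat_of_nonneg (h4' i)]
          have := Pool.Agent.J4H39.par_eq (Pool.Agent.J4H39.rel_nat (rn stK j s w i).1.toNat (rn stK j s w i).2 n)
          rw [← hsi] at this
          rw [this]
        rw [e1, abs_sub_comm, hXw]
        have := Av_cc (hFb (rn stK j s w)) (M := 3 ^ od j w) (Nat.one_le_pow _ _ (by norm_num)) (κ := κ) hU
        rw [← hY, ← hv₀] at this
        exact this
      · rw [id1_pos hg1]
        have a1 : |Av (Fq f (rn stK j s w)) (3 ^ od j w) v₀ Y| ≤ 1 :=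
          Av_bd (fun z => prodK_bd hf _) (Nat.one_le_pow _ _ (by norm_num)) hY1
        have a2 : |ck f κ (3 ^ od j w * X / 2 ^ j) (rn stK j s w)| ≤ 2 := ck_bd hf κ (by positivity) _
        have a3 := abs_sub (Av (Fq f (rn stK j s w)) (3 ^ od j w) v₀ Y)
          (ck f κ (3 ^ od j w * X / 2 ^ j) (rn stK j s w))
        linarith
    have e1 : ex j (fun w => Av (Fq f (rn stK j s w)) (3 ^ od j w) v₀ Y) -
      ex j (fun y => ck f κ (3 ^ od j y * X / 2 ^ j) (rn stK j s y)) =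
        ex j (fun w => Av (Fq f (rn stK j s w)) (3 ^ od j w) v₀ Y - ck f κ (3 ^ od j w * X / 2 ^ j) (rn stK j s w)) := by
      have e2 : ∀ w, Av (Fq f (rn stK j s w)) (3 ^ od j w) v₀ Y - ck f κ (3 ^ od j w * X / 2 ^ j) (rn stK j s w) =
        Av (Fq f (rn stK j s w)) (3 ^ od j w) v₀ Y + (-1) * ck f κ (3 ^ od j w * X / 2 ^ j) (rn stK j s w) := by
        intro w; ring
      rw [ex_congr e2, ex_add, ex_mul]; ring
    rw [e1, abs_le]
    constructor
    · have h1 : ex j (fun w => -(5 / U) + (-3) * id1 (¬ Lg (lb stK j s w))) ≤ ex j (fun w =>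
        Av (Fq f (rn stK j s w)) (3 ^ od j w) v₀ Y - ck f κ (3 ^ od j w * X / 2 ^ j) (rn stK j s w)) := ex_mono fun w => by
        have := (abs_le.1 (hpt w)).1
        linarith
      rw [ex_add, ex_const, ex_mul, ← Pool.Agent.J4H39.pb_id1] at h1
      linarith
    · have h1 : ex j (fun w =>
        Av (Fq f (rn stK j s w)) (3 ^ od j w) v₀ Y - ck f κ (3 ^ od j w * X / 2 ^ j) (rn stK j s w)) ≤
        ex j (fun w => 5 / U + 3 * id1 (¬ Lg (lb stK j s w))) :=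
        ex_mono fun w => (abs_le.1 (hpt w)).2
      rw [ex_add, ex_const, ex_mul, ← Pool.Agent.J4H39.pb_id1] at h1
      linarith
  have hfin := (abs_sub_le (ck f κ X s) (Av (fun n => ∏ i, f i (3 ^ (s i).1.toNat * n + (s i).2)) (2 ^ j) v₀ Y)
    (ex j (fun y => ck f κ (3 ^ od j y * X / 2 ^ j) (rn stK j s y))))
  have hfin2 := (abs_sub_le (Av (fun n => ∏ i, f i (3 ^ (s i).1.toNat * n + (s i).2)) (2 ^ j) v₀ Y)
    (ex j (fun w => Av (Fq f (rn stK j s w)) (3 ^ od j w) v₀ Y))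
    (ex j (fun y => ck f κ (3 ^ od j y * X / 2 ^ j) (rn stK j s y))))
  have e9 : 5 / U = 5 * (2 ^ j / X) := by rw [hUd]; field_simp
  rw [e9] at s1 s3
  linarith

end Pool.Agent.J4H39.KP
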