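import Mathlib
import Pool.Agent.J4H39.KP.S1
import Pool.Agent.J4H94.PC.Ft
import Pool.Agent.J4H79.PC2.A0

set_option autoImplicit false

/-! Project KP: the transfer for `K` forms through any number of stages. -/

namespace Pool.Agent.J4H39.KP

open Finset Filter Real
open Pool.Agent.J4H39 (T od ex pb ns rn stP stK lb GK GS Cm DV th0 Per id1 id1_pos id1_neg id1_nonneg id1_le_one par
  ex_mono ex_congr ex_add ex_mul ex_const)
open Pool.Agent.J4H26.PC
open Pool.Agent.J4H95.PC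
open Pool.Agent.J4H94.PC (drift ex_diff ex_abs_bd eta_rate)

variable {K : ℕ}

theorem size2 {w j t' n : ℕ} {o : ℕ} (hw : 2 ≤ w) (h : (j - w ^ 44) / 2 ≤ o) {X : ℝ}
    (hX : (2 : ℝ) ^ (th0 * ((j + t' : ℕ) : ℝ) + 3 * (w : ℝ) ^ 80 + ((n + 1 : ℕ) : ℝ) * (w : ℝ) ^ 45) ≤ X) :
    (2 : ℝ) ^ (th0 * (t' : ℝ) + 3 * (w : ℝ) ^ 80 + (n : ℝ) * (w : ℝ) ^ 45) ≤ 3 ^ o * X / 2 ^ j := by
  have h0 := Pool.Agent.J4H39.th0_pos
  have h1 := Pool.Agent.J4H39.th0_lt
  rw [le_div_iff₀ (by positivity), Pool.Agent.J4H39.three_pow, ← Real.rpow_natCast 2 j, ← Real.rpow_add (by norm_num)]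
  refine le_trans ?_ (mul_le_mul_of_nonneg_left hX (by positivity))
  rw [← Real.rpow_add (by norm_num)]
  apply Real.rpow_le_rpow_of_exponent_le (by norm_num)
  have h2 : (j : ℝ) ≤ 2 * o + w ^ 44 + 1 := by
    have : j ≤ 2 * o + w ^ 44 + 1 := by omega
    exact_mod_cast this
  have hw2 : (2 : ℝ) ≤ w := by exact_mod_cast hw
  have h3 : (w : ℝ) ^ 44 + 1 ≤ (w : ℝ) ^ 45 := by
    have h4 : (1 : ℝ) ≤ (w : ℝ) ^ 44 := one_le_pow₀ (by linarith)
    have : (w : ℝ) ^ 45 = w * (w : ℝ) ^ 44 := by ring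
    rw [this]
    nlinarith
  have h5 : (0 : ℝ) ≤ (w : ℝ) ^ 44 := by positivity
  push_cast
  clear hX
  generalize (w : ℝ) ^ 45 = A at *
  generalize (w : ℝ) ^ 44 = B at *
  generalize (w : ℝ) ^ 80 = E at *
  have h6 : (1 - th0) * j ≤ (1 - th0) * (2 * o + B + 1) := mul_le_mul_of_nonneg_left h2 (by linarith)
  have h7 : 0 ≤ th0 * (B + 1) := mul_nonneg h0.le (by linarith)
  have h8 : (1 - th0) * (2 * (o : ℝ) + B + 1) = 2 * (1 - th0) * o + (B + 1) - th0 * (B + 1) := by ring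
  have h9 : th0 * ((j : ℝ) + t') = th0 * j + th0 * t' := by ring
  have h10 : ((n : ℝ) + 1) * A = n * A + A := by ring
  rw [h9, h10]
  linarith

theorem stage_rateK (K c : ℕ) : ∃ C : ℝ, 0 < C ∧ ∀ᶠ w : ℕ in atTop, ∀ j, w ^ 80 ≤ j →
    j ≤ 2 * w ^ 80 → ∀ f : Fin K → ℤ → ℝ, (∀ i, Iv (f i)) → ∀ κ X : ℝ, (2 : ℝ) ^ (3 * w ^ 80) ≤ X → ∀ s : Fin K → ℤ × ℤ,
    GK (c * w ^ 48) (c * w ^ 56) s → (∀ i, ((w ^ 41 : ℕ) : ℤ) ≤ (s i).1) →
    |ck f κ X s - ex j (fun y => ck f κ (3 ^ od j y * X / 2 ^ j) (rn stK j s y))| ≤ C / w ∧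
    pb j (fun y => ¬ ((j - w ^ 44) / 2 ≤ od j y ∧
      GK ((2 * c + 4) * w ^ 48) ((2 * c + 4) * w ^ 56) (rn stK j s y) ∧
      ∀ i, (s i).1 - ((w ^ 41 : ℕ) : ℤ) ≤ (rn stK j s y i).1)) ≤ (1 + 16 * K) / w := by
  obtain ⟨C₀, hC₀, hη⟩ := eta_rate
  refine ⟨10 + 2 + 4 * K * C₀ + 5 * (1 + 16 * K), by positivity, ?_⟩
  have t4 : Tendsto (fun w : ℕ => w ^ 4) atTop atTop := tendsto_pow_atTop (by norm_num)
  filter_upwards [hη, t4.eventually (Pool.Agent.J4H79.PC2.t_DVR K c 1), t4.eventually (Pool.Agent.J4H79.PC2.t_LABR K c 1),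
    eventually_ge_atTop 40, eventually_ge_atTop (2 * c + 4)] with w e1 e2 e3 hw hwc j hj1 hj2 f hf κ X hX s hG hD
  have z20 : (w ^ 4) ^ 20 = w ^ 80 := by ring
  have z12 : (w ^ 4) ^ 12 = w ^ 48 := by ring
  have z14 : (w ^ 4) ^ 14 = w ^ 56 := by ring
  have z19 : (w ^ 4) ^ 19 = w ^ 76 := by ring
  have z11 : (w ^ 4) ^ 11 = w ^ 44 := by ring
  rw [z20, z12, z14, z19] at e2
  rw [z20, z12, z14, z11] at e3
  have hw1 : 1 ≤ w := by omega
  have hwR : (1 : ℝ) ≤ w := by exact_mod_cast hw1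
  have hw0 : (0 : ℝ) < w := by linarith
  have hz40 : 40 ≤ w ^ 4 := le_trans hw (Nat.le_self_pow (by norm_num) w)
  have hzc : 2 * c + 4 ≤ w ^ 4 := le_trans hwc (Nat.le_self_pow (by norm_num) w)
  obtain ⟨n1, n2, n3, _⟩ := Pool.Agent.J4H39.nat_facts (j := j) hz40 hzc (by rw [z20]; exact hj1)
  rw [z12, z19] at n1
  rw [z14, z19] at n2
  rw [z19, z11] at n3
  have hs0 : ∀ i, 0 ≤ (s i).1 := fun i => le_trans (by positivity) (hD i)
  have hC : Cm s := Pool.Agent.J4H39.Cm_nonneg hs0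
  have hDV := e2 j hj1 hj2 _ hG hC
  have hLB := e3 j hj1 hj2 _ hG
  have hinv : 1 / (((w ^ 4 : ℕ)) : ℝ) ^ 1 ≤ 1 / w := by
    rw [pow_one]
    apply one_div_le_one_div_of_le hw0
    exact_mod_cast Nat.le_self_pow (by norm_num) w
  have hjw : w ≤ j := le_trans (Nat.le_self_pow (by norm_num) w) hj1
  have hj1' : 1 ≤ j := by omega
  have hexp : 4 * Real.exp (-((((w ^ 41 : ℕ)) : ℝ) ^ 2 / (2 * j))) ≤ 16 / w := by
    have hjR : (j : ℝ) ≤ 2 * (w : ℝ) ^ 80 := by exact_mod_cast hj2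
    have hj0 : (0 : ℝ) < j := by exact_mod_cast hj1'
    have a1 : (w : ℝ) / 4 ≤ ((w ^ 41 : ℕ) : ℝ) ^ 2 / (2 * j) := by
      rw [div_le_div_iff₀ (by norm_num) (by positivity)]
      push_cast
      calc (w : ℝ) * (2 * j) ≤ w * (2 * (2 * (w : ℝ) ^ 80)) := by gcongr
        _ = 4 * (w : ℝ) ^ 81 := by ring
        _ ≤ 4 * (w : ℝ) ^ 82 := by
          have : (w : ℝ) ^ 81 ≤ (w : ℝ) ^ 82 := pow_le_pow_right₀ hwR (by norm_num)
          linarith
        _ = ((w : ℝ) ^ 41) ^ 2 * 4 := by ring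
    have a2 : Real.exp (-(((w ^ 41 : ℕ) : ℝ) ^ 2 / (2 * j))) ≤ Real.exp (-(w / 4)) := Real.exp_le_exp.2 (by linarith)
    have a3 : Real.exp (-((w : ℝ) / 4)) ≤ 4 / w := by
      rw [Real.exp_neg, ← one_div, div_le_div_iff₀ (Real.exp_pos _) hw0]
      have := Real.add_one_le_exp ((w : ℝ) / 4)
      linarith
    have : 4 * (4 / (w : ℝ)) = 16 / w := by ring
    linarith
  obtain ⟨Lg, hLg⟩ : ∃ Lg : ℕ × (Fin K → ℤ × ℤ) → Prop, Lg = fun μ => (j - w ^ 44) / 2 ≤ μ.1 ∧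
    GK ((2 * c + 4) * w ^ 48) ((2 * c + 4) * w ^ 56) μ.2 ∧ ∀ i, (s i).1 - ((w ^ 41 : ℕ) : ℤ) ≤ (μ.2 i).1 := ⟨_, rfl⟩
  have hpb : pb j (fun y => ¬ Lg (lb stK j s y)) ≤ (1 + 16 * K) / w := by
    have b1 : pb j (fun y => ¬ Lg (lb stK j s y)) ≤
        pb j (fun y => ¬ ((j - w ^ 44) / 2 ≤ od j y ∧
        GK ((2 * c + 4) * w ^ 48) ((2 * c + 4) * w ^ 56) (rn stK j s y)) ∨
        ∃ i ∈ (univ : Finset (Fin K)), ¬ ((s i).1 - ((w ^ 41 : ℕ) : ℤ) ≤ (rn stP j (s i) y).1)) := by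
      apply Pool.Agent.J4H39.pb_mono
      intro y hy
      by_contra hcon
      rw [not_or, not_not] at hcon
      obtain ⟨⟨q1, q2⟩, q3⟩ := hcon
      push Not at q3
      apply hy
      rw [hLg]
      simp only
      refine ⟨q1, q2, fun i => ?_⟩
      have h5 := q3 i (mem_univ i)
      unfold lb
      simp only
      rw [Pool.Agent.J4H39.rn_stK_apply]
      exact h5
    have b2 := Pool.Agent.J4H39.pb_or j (fun y => ¬ ((j - w ^ 44) / 2 ≤ od j y ∧
        GK ((2 * c + 4) * w ^ 48) ((2 * c + 4) * w ^ 56) (rn stK j s y)))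
        (fun y => ∃ i ∈ (univ : Finset (Fin K)), ¬ ((s i).1 - ((w ^ 41 : ℕ) : ℤ) ≤ (rn stP j (s i) y).1))
    have b4 := Pool.Agent.J4H39.pb_exists (univ : Finset (Fin K)) j
      (fun i y => ¬ ((s i).1 - ((w ^ 41 : ℕ) : ℤ) ≤ (rn stP j (s i) y).1))
    have b5 : ∑ i : Fin K, pb j (fun y => ¬ ((s i).1 - ((w ^ 41 : ℕ) : ℤ) ≤ (rn stP j (s i) y).1)) ≤ ∑ i : Fin K, 16 / (w : ℝ) :=
      sum_le_sum fun i _ => (drift (j := j) hj1' (s i) (w ^ 41)).trans hexp
    rw [sum_const, card_univ, Fintype.card_fin, nsmul_eq_mul] at b5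
    have b3 : (1 + 16 * (K : ℝ)) / w = 1 / w + K * (16 / w) := by ring
    rw [b3]
    exact (b1.trans b2).trans (add_le_add (hLB.trans hinv) (b4.trans b5))
  refine ⟨?_, ?_⟩
  · have hX' : (2 : ℝ) ^ (j + 1) ≤ X := by
      refine le_trans (pow_le_pow_right₀ (by norm_num) ?_) hX
      have : 1 ≤ w ^ 80 := Nat.one_le_pow _ _ hw1
      omega
    have hX0 : 0 < X := lt_of_lt_of_le (by positivity) hX
    have key := stage_ck hf hs0 (j := j) (k := j / 8) (m := w ^ 76) (a := (2 * c + 4) * w ^ 48)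
      (b := (2 * c + 4) * w ^ 56) (o₀ := (j - w ^ 44) / 2) (η := C₀ / w) n3 (by
        intro r' hr'
        refine e1 j hj1 hj2 _ ?_ r' hr'
        have : 1 ≤ w ^ 76 := Nat.one_le_pow _ _ hw1
        omega) Lg (by
        intro μ hμ
        rw [hLg] at hμ
        obtain ⟨q1, q2, q3⟩ := hμ
        refine ⟨q1, q2, fun i => ?_⟩
        have := hD i
        have := q3 i
        linarith) κ hX'
    have hXj : 2 ^ j / X ≤ 1 / (w : ℝ) := by
      rw [div_le_div_iff₀ hX0 hw0, one_mul]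
      have a1 : (w : ℝ) ≤ 2 ^ w ^ 80 := by
        have : w ≤ 2 ^ w ^ 80 := le_trans (Nat.le_self_pow (by norm_num) w) (Nat.lt_two_pow_self).le
        exact_mod_cast this
      calc (2 : ℝ) ^ j * w ≤ 2 ^ (2 * w ^ 80) * 2 ^ w ^ 80 :=
            mul_le_mul (pow_le_pow_right₀ (by norm_num) hj2) a1 (by positivity) (by positivity)
        _ = 2 ^ (3 * w ^ 80) := by rw [← pow_add]; congr 1; ring
        _ ≤ X := hX
    have hDV' := hDV.trans hinv
    refine key.trans ?_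
    have e9 : (10 + 2 + 4 * K * C₀ + 5 * (1 + 16 * K)) / (w : ℝ) = 10 * (1 / w) + 2 * (1 / w) + 4 * K * (C₀ / w) +
      5 * ((1 + 16 * K) / (w : ℝ)) := by ring
    rw [e9]
    linarith
  · refine le_trans (Pool.Agent.J4H39.pb_mono ?_) hpb
    intro y hy hy'
    apply hy
    rw [hLg] at hy'
    exact hy'

/-- **The transfer for `K` forms.** -/
theorem main_indK (K n : ℕ) : ∀ c : ℕ, ∃ C : ℝ, 0 < C ∧ ∀ᶠ w : ℕ in atTop, ∀ t, n * w ^ 80 ≤ t →
    t ≤ 2 * n * w ^ 80 → ∀ f : Fin K → ℤ → ℝ, (∀ i, Iv (f i)) → ∀ κ X : ℝ,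
    (2 : ℝ) ^ (th0 * (t : ℝ) + 3 * (w : ℝ) ^ 80 + (n : ℝ) * (w : ℝ) ^ 45) ≤ X → ∀ s : Fin K → ℤ × ℤ,
    GK (c * w ^ 48) (c * w ^ 56) s → (∀ i, ((n * w ^ 41 : ℕ) : ℤ) ≤ (s i).1) →
    |ck f κ X s - ex t (fun y => ck f κ (3 ^ od t y * X / 2 ^ t) (rn stK t s y))| ≤ C / w := by
  induction n with
  | zero =>
    intro c
    refine ⟨1, one_pos, ?_⟩
    filter_upwards [eventually_ge_atTop 1] with w hw t ht1 ht2 f hf κ X hX s hs hD
    have ht : t = 0 := by omega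
    subst ht
    have e2 : ∀ y, ck f κ (3 ^ od 0 y * X / 2 ^ 0) (rn stK 0 s y) = ck f κ X s := by
      intro y
      simp [od, rn]
    rw [ex_congr e2, ex_const, sub_self, abs_zero]
    positivity
  | succ n ih =>
    intro c
    obtain ⟨C₁, hC₁, g1⟩ := stage_rateK K c
    obtain ⟨C₂, hC₂, g2⟩ := ih (2 * c + 4)
    refine ⟨C₁ + C₂ + 4 * (1 + 16 * K), by positivity, ?_⟩
    filter_upwards [g1, g2, eventually_ge_atTop 2] with w g1 g2 hw t ht1 ht2 f hf κ X hX s hG hD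
    have hw0 : (0 : ℝ) < w := by exact_mod_cast (by omega : 0 < w)
    -- the lengths
    obtain ⟨W, hW⟩ : ∃ W, W = w ^ 80 := ⟨_, rfl⟩
    obtain ⟨j, hj⟩ : ∃ j, j = t / (n + 1) := ⟨_, rfl⟩
    have hj1 : w ^ 80 ≤ j := by
      rw [hj, Nat.le_div_iff_mul_le (by omega)]
      calc w ^ 80 * (n + 1) = (n + 1) * w ^ 80 := by ring
        _ ≤ t := ht1
    have hj2 : j ≤ 2 * w ^ 80 := by
      rw [hj]
      apply Nat.div_le_of_le_mul
      calc t ≤ 2 * (n + 1) * w ^ 80 := ht2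
        _ = (n + 1) * (2 * w ^ 80) := by ring
    have hjt : j ≤ t := by rw [hj]; exact Nat.div_le_self _ _
    obtain ⟨t', ht'⟩ := Nat.exists_eq_add_of_le hjt
    have hq1 : (n + 1) * j ≤ t := by rw [hj, mul_comm]; exact Nat.div_mul_le_self t (n + 1)
    have hq2 : t < (n + 1) * j + (n + 1) := by
      rw [hj]
      have := Nat.lt_div_mul_add (a := t) (b := n + 1) (by omega)
      rw [mul_comm (n + 1)]
      exact this
    have hle1 : n * w ^ 80 ≤ t' := by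
      have h1 : n * j ≤ t' := by
        have : (n + 1) * j = n * j + j := by ring
        omega
      exact (Nat.mul_le_mul_left n hj1).trans h1
    have hle2 : t' ≤ 2 * n * w ^ 80 := by
      rw [← hW] at hj1 hj2 ht1 ht2 ⊢
      rcases Nat.lt_or_ge j (2 * W) with hlt | hge
      · have h1 : t' < n * j + (n + 1) := by
          have : (n + 1) * j = n * j + j := by ring
          omega
        have h2 : n * (j + 1) ≤ n * (2 * W) := Nat.mul_le_mul_left n hlt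
        have h3 : n * (j + 1) = n * j + n := by ring
        have h4 : n * (2 * W) = 2 * n * W := by ring
        omega
      · have h1 : 2 * (n + 1) * W = 2 * n * W + 2 * W := by ring
        omega
    have hDn : ∀ i, ((w ^ 41 : ℕ) : ℤ) + ((n * w ^ 41 : ℕ) : ℤ) ≤ (s i).1 := by
      intro i
      have h1 := hD i
      have h2 : (((n + 1) * w ^ 41 : ℕ) : ℤ) = ((w ^ 41 : ℕ) : ℤ) + ((n * w ^ 41 : ℕ) : ℤ) := by push_cast; ring
      rw [h2] at h1
      exact h1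
    have hD1 : ∀ i, ((w ^ 41 : ℕ) : ℤ) ≤ (s i).1 := by
      intro i
      have h1 := hDn i
      have h2 : (0 : ℤ) ≤ ((n * w ^ 41 : ℕ) : ℤ) := by positivity
      linarith
    have hX3 : (2 : ℝ) ^ (3 * w ^ 80) ≤ X := by
      refine le_trans ?_ hX
      rw [← Real.rpow_natCast]
      apply Real.rpow_le_rpow_of_exponent_le (by norm_num)
      have h0 := Pool.Agent.J4H39.th0_pos
      have h1 : (0 : ℝ) ≤ th0 * t := by positivity
      have h2 : (0 : ℝ) ≤ ((n + 1 : ℕ) : ℝ) * (w : ℝ) ^ 45 := by positivity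
      push_cast at h2 ⊢
      linarith
    have hX0 : 0 ≤ X := le_trans (by positivity) hX3
    obtain ⟨s1, s2⟩ := g1 j hj1 hj2 f hf κ X hX3 s hG hD1
    have e1 : ex t (fun y => ck f κ (3 ^ od t y * X / 2 ^ t) (rn stK t s y)) =
        ex j (fun y => ex t' (fun z => ck f κ (3 ^ (od j y + od t' z) * X / 2 ^ (j + t'))
          (rn stK t' (rn stK j s y) z))) := by
      rw [ht', ← Pool.Agent.J4H39.ex_pair j t' (fun y z => ck f κ (3 ^ (od j y + od t' z) * X / 2 ^ (j + t'))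
          (rn stK t' (rn stK j s y) z))]
      · apply ex_congr
        intro y
        rw [Pool.Agent.J4H39.od_comp, Pool.Agent.J4H39.rn_comp]
      · intro z x u
        simp only
        rw [Pool.Agent.J4H39.per_od (le_refl j) x u, Pool.Agent.J4H39.per_rn stK _ (le_refl j) x u]
      · intro y x u
        simp only
        rw [Pool.Agent.J4H39.per_od (le_refl _) x u, Pool.Agent.J4H39.per_rn stK _ (le_refl _) x u]
    rw [e1]
    have hpt : ∀ y, |ck f κ (3 ^ od j y * X / 2 ^ j) (rn stK j s y) -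
        ex t' (fun z => ck f κ (3 ^ (od j y + od t' z) * X / 2 ^ (j + t')) (rn stK t' (rn stK j s y) z))| ≤
        C₂ / w + 4 * id1 (¬ ((j - w ^ 44) / 2 ≤ od j y ∧
      GK ((2 * c + 4) * w ^ 48) ((2 * c + 4) * w ^ 56) (rn stK j s y) ∧
      ∀ i, (s i).1 - ((w ^ 41 : ℕ) : ℤ) ≤ (rn stK j s y i).1)) := by
      intro y
      by_cases hgood : ((j - w ^ 44) / 2 ≤ od j y ∧
        GK ((2 * c + 4) * w ^ 48) ((2 * c + 4) * w ^ 56) (rn stK j s y) ∧
        ∀ i, (s i).1 - ((w ^ 41 : ℕ) : ℤ) ≤ (rn stK j s y i).1)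
      · rw [id1_neg (fun h => h hgood), mul_zero, add_zero]
        obtain ⟨q1, q2, q3⟩ := hgood
        have q4 : ∀ i, ((n * w ^ 41 : ℕ) : ℤ) ≤ (rn stK j s y i).1 := by
          intro i
          have h1 := q3 i
          have h2 := hDn i
          linarith
        have hX' := size2 hw q1 (X := X) (n := n) (t' := t') (by rw [← ht']; exact hX)
        have := g2 t' hle1 hle2 f hf κ _ hX' (rn stK j s y) q2 q4
        have e2 : ∀ z, ck f κ (3 ^ (od j y + od t' z) * X / 2 ^ (j + t')) (rn stK t' (rn stK j s y) z) =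
          ck f κ (3 ^ od t' z * (3 ^ od j y * X / 2 ^ j) / 2 ^ t') (rn stK t' (rn stK j s y) z) := by
          intro z
          congr 1
          rw [pow_add, pow_add]
          field_simp
        rw [ex_congr e2]
        exact this
      · rw [id1_pos hgood]
        have a1 : |ck f κ (3 ^ od j y * X / 2 ^ j) (rn stK j s y)| ≤ 2 := ck_bd hf κ (by positivity) _
        have a2 : |ex t' (fun z => ck f κ (3 ^ (od j y + od t' z) * X / 2 ^ (j + t'))
          (rn stK t' (rn stK j s y) z))| ≤ 2 := ex_abs_bd fun z => ck_bd hf κ (by positivity) _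
        have a3 := abs_sub (ck f κ (3 ^ od j y * X / 2 ^ j) (rn stK j s y))
          (ex t' (fun z => ck f κ (3 ^ (od j y + od t' z) * X / 2 ^ (j + t')) (rn stK t' (rn stK j s y) z)))
        have a4 : 0 ≤ C₂ / w := by positivity
        linarith
    have hd := ex_diff (j := j) hpt
    have tri := abs_sub_le (ck f κ X s) (ex j (fun y => ck f κ (3 ^ od j y * X / 2 ^ j) (rn stK j s y)))
      (ex j (fun y => ex t' (fun z => ck f κ (3 ^ (od j y + od t' z) * X / 2 ^ (j + t')) (rn stK t' (rn stK j s y) z))))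
    have e9 : (C₁ + C₂ + 4 * (1 + 16 * K)) / (w : ℝ) = C₁ / w + (C₂ / w + 4 * ((1 + 16 * K) / w)) := by ring
    rw [e9]
    linarith

end Pool.Agent.J4H39.KP
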