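import Mathlib
import Pool.Agent.J4H39.KP.S2
import Pool.Agent.J4H26.KT.G

set_option autoImplicit false

/-! Project KP: forms which are close to each other; offsets and the base do not matter. -/

namespace Pool.Agent.J4H39.KP

open Finset Filter Real
open Pool.Agent.J4H39 (T od ex pb ns rn stP stK lb GK GS Cm DV th0 Per id1 id1_pos id1_neg id1_nonneg id1_le_one par
  ex_mono ex_congr ex_add ex_mul ex_const Rel)
open Pool.Agent.J4H26.PC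
open Pool.Agent.J4H95.PC
open Pool.Agent.J4H94.PC (drift ex_diff ex_abs_bd eta_rate)

variable {K : ℕ}

/-- quick merging of close forms -/
theorem near_merge {ε : ℝ} (hε : 0 < ε) : ∃ β : ℝ, 0 < β ∧ ∀ c : ℕ, ∀ᶠ w : ℕ in atTop, ∀ d : ℕ, (d : ℝ) ≤ β * (w : ℝ) ^ 40 →
    ∀ r : ℤ, |r| ≤ 4 ^ (c * w ^ 56) → ns (w ^ 80) ((d : ℤ), r) ≤ ε := by
  refine ⟨min 1 (ε / 4), lt_min one_pos (by positivity), ?_⟩
  intro c
  obtain ⟨t₀, ht₀⟩ := Pool.Agent.J4H26.KT.ns_erf (show 0 < ε / 2 by positivity) (c + 1)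
  have t80 : Tendsto (fun w : ℕ => w ^ 80) atTop atTop := tendsto_pow_atTop (by norm_num)
  filter_upwards [t80.eventually_ge_atTop t₀, eventually_ge_atTop 1] with w h1 hw d hd r hr
  have hwR : (1 : ℝ) ≤ w := by exact_mod_cast hw
  have e1 : (w ^ 4) ^ 20 = w ^ 80 := by ring
  have e2 : w ^ 80 < (w ^ 4 + 1) ^ 20 := by
    rw [← e1]
    exact Nat.pow_lt_pow_left (by omega) (by norm_num)
  have e3 : (w ^ 4) ^ 12 = w ^ 48 := by ring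
  have e4 : (w ^ 4) ^ 14 = w ^ 56 := by ring
  have hd40 : (d : ℝ) ≤ (w : ℝ) ^ 40 := by
    refine hd.trans ?_
    have : min 1 (ε / 4) * (w : ℝ) ^ 40 ≤ 1 * (w : ℝ) ^ 40 := mul_le_mul_of_nonneg_right (min_le_left _ _) (by positivity)
    linarith
  have hd40n : d ≤ w ^ 40 := by exact_mod_cast hd40
  have g1 : d ≤ (c + 1) * w ^ 48 := by
    calc d ≤ w ^ 40 := hd40n
      _ ≤ w ^ 48 := Nat.pow_le_pow_right hw (by norm_num)
      _ ≤ (c + 1) * w ^ 48 := Nat.le_mul_of_pos_left _ (by omega)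
  have g2 : c * w ^ 56 ≤ (c + 1) * w ^ 56 := Nat.mul_le_mul_right _ (by omega)
  have g3 : |r| ≤ 4 ^ ((c + 1) * w ^ 56) := hr.trans (pow_le_pow_right₀ (by norm_num) g2)
  have hGS : GS ((c + 1) * (w ^ 4) ^ 12) ((c + 1) * (w ^ 4) ^ 14) ((d : ℤ), r) := by
    rw [e3, e4]
    generalize (c + 1) * w ^ 48 = A at g1 ⊢
    generalize (c + 1) * w ^ 56 = B at g3 ⊢
    unfold GS
    refine ⟨?_, g3⟩
    show |(d : ℤ)| ≤ _
    rw [Nat.abs_cast]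
    exact Int.ofNat_le.2 g1
  have h3 := ht₀ (w ^ 80) h1 (w ^ 4) (le_of_eq e1) e2 d r hGS
  clear hGS g3 g2 g1 e4 e3 e2 e1 h1 hr t80 ht₀
  have hq : √ (((w ^ 80 : ℕ)) : ℝ) = (w : ℝ) ^ 40 := by
    rw [show (((w ^ 80 : ℕ)) : ℝ) = ((w : ℝ) ^ 40) ^ 2 by push_cast; ring]
    exact Real.sqrt_sq (by positivity)
  rw [hq] at h3
  have h40 : (0 : ℝ) < (w : ℝ) ^ 40 := by positivity
  have h4 : Pool.Agent.J4H39.Erf ((d : ℝ) / (w : ℝ) ^ 40) ≤ ε / 2 := by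
    have h0 : (0 : ℝ) ≤ (d : ℝ) / (w : ℝ) ^ 40 := div_nonneg (Nat.cast_nonneg d) h40.le
    refine (Pool.Agent.J4H26.CC.Erf_up2 h0).trans ?_
    have : (d : ℝ) / (w : ℝ) ^ 40 ≤ ε / 4 := by
      rw [div_le_iff₀ h40]
      exact hd.trans (mul_le_mul_of_nonneg_right (min_le_right _ _) (by positivity))
    linarith
  have h5 := (abs_le.1 h3).2
  linarith

theorem per_aff {k : ℕ} {P : ℤ → Prop} (hP : Per k P) (D : ℕ) (r : ℤ) : Per k (fun m => P (3 ^ D * m + r)) := by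
  intro x u
  simp only
  rw [show (3 : ℤ) ^ D * (x + 2 ^ k * u) + r = 3 ^ D * x + r + 2 ^ k * (3 ^ D * u) by ring]
  exact hP _ _

theorem bad_aff {k : ℕ} {P : ℤ → Prop} (hP : Per k P) {κ X : ℝ} (hX : 1 ≤ X) (hk : (2 : ℝ) ^ k ≤ X) (D : ℕ) (r : ℤ) :
    ∑ n ∈ Finset.Ico ⌈κ * X⌉ ⌈κ * X + X⌉, id1 (P (3 ^ D * n + r)) ≤ 3 * X * pb k P := by
  have h := bad_sum (κ := κ) (per_aff hP D r) hX hk
  rw [Pool.Agent.J4H39.pb_affine hP (Pool.Agent.J4H39.pow3_odd D) r] at h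
  exact h

/-- two tuples of forms -/
theorem ck_diff {f : Fin K → ℤ → ℝ} {κ X : ℝ} (hX : 1 ≤ X) {s s' : Fin K → ℤ × ℤ} {ε : ℝ}
    (h : ∀ i, ∑ n ∈ Finset.Ico ⌈κ * X⌉ ⌈κ * X + X⌉, |f i (3 ^ (s' i).1.toNat * n + (s' i).2) - f i (3 ^ (s i).1.toNat * n + (s i).2)| ≤ ε * X)
    (hf : ∀ i, Iv (f i)) : |ck f κ X s' - ck f κ X s| ≤ K * ε := by
  have hX0 : 0 < X := by linarith
  unfold ck
  rw [max_eq_left hX, ← sub_div, ← sum_sub_distrib, abs_div, abs_of_pos hX0, div_le_iff₀ hX0]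
  refine (abs_sum_le_sum_abs _ _).trans ?_
  refine (sum_le_sum fun n _ => prodK_diff hf (fun i => 3 ^ (s i).1.toNat * n + (s i).2)
    (fun i => 3 ^ (s' i).1.toNat * n + (s' i).2)).trans ?_
  rw [sum_comm]
  refine (sum_le_sum fun i _ => h i).trans (le_of_eq ?_)
  rw [sum_const, card_univ, Fintype.card_fin, nsmul_eq_mul]
  ring

/-- one function, two forms -/
theorem one_close {f : ℤ → ℝ} (hf : Iv f) {κ X : ℝ} (hX : 1 ≤ X) {k : ℕ} (hk : (2 : ℝ) ^ k ≤ X) {D d : ℕ} {r r' : ℤ} {ε : ℝ}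
    (h : ns k ((d : ℤ), r' - 3 ^ d * r) ≤ ε) :
    ∑ n ∈ Finset.Ico ⌈κ * X⌉ ⌈κ * X + X⌉, |f (3 ^ (D + d) * n + r') - f (3 ^ D * n + r)| ≤ 6 * ε * X := by
  have hpt : ∀ n ∈ Finset.Ico ⌈κ * X⌉ ⌈κ * X + X⌉, |f (3 ^ (D + d) * n + r') - f (3 ^ D * n + r)| ≤
      2 * id1 (rn stP k ((d : ℤ), r' - 3 ^ d * r) (3 ^ D * n + r) ≠ (0, 0)) := by
    intro n _
    have e : 3 ^ (D + d) * n + r' = 3 ^ d * (3 ^ D * n + r) + (r' - 3 ^ d * r) := by rw [pow_add]; ring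
    rw [e]
    exact one_diff hf (Pool.Agent.J4H39.rel_nat d (r' - 3 ^ d * r) (3 ^ D * n + r)) k
  refine (sum_le_sum hpt).trans ?_
  rw [← mul_sum]
  have h1 := bad_aff (κ := κ) (Pool.Agent.J4H39.per_ns k ((d : ℤ), r' - 3 ^ d * r)) hX hk D r
  have h2 : 3 * X * pb k (fun y => rn stP k ((d : ℤ), r' - 3 ^ d * r) y ≠ (0, 0)) ≤ 3 * X * ε :=
    mul_le_mul_of_nonneg_left h (by linarith)
  linarith

theorem off_bd2 {c w : ℕ} (hw : 1 ≤ w) {d : ℕ} (hd : d ≤ w ^ 48) {r r' : ℤ} (h1 : |r| ≤ 4 ^ (c * w ^ 56)) (h2 : |r'| ≤ 4 ^ (c * w ^ 56)) :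
    |r' - 3 ^ d * r| ≤ 4 ^ ((c + 2) * w ^ 56) := by
  have h3 : (3 : ℤ) ^ d ≤ 4 ^ w ^ 56 := by
    calc (3 : ℤ) ^ d ≤ 4 ^ d := pow_le_pow_left₀ (by norm_num) (by norm_num) d
      _ ≤ 4 ^ w ^ 56 := pow_le_pow_right₀ (by norm_num) (hd.trans (Nat.pow_le_pow_right hw (by norm_num)))
  have h4 : |r' - 3 ^ d * r| ≤ |r'| + |3 ^ d * r| := abs_sub _ _
  rw [abs_mul, abs_of_pos (by positivity : (0 : ℤ) < 3 ^ d)] at h4
  have h5 : (3 : ℤ) ^ d * |r| ≤ 4 ^ w ^ 56 * 4 ^ (c * w ^ 56) := mul_le_mul h3 h1 (abs_nonneg _) (by positivity)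
  have h6 : (4 : ℤ) ^ (c * w ^ 56) ≤ 4 ^ w ^ 56 * 4 ^ (c * w ^ 56) := by
    have : (1 : ℤ) ≤ 4 ^ w ^ 56 := one_le_pow₀ (by norm_num)
    nlinarith [show (0 : ℤ) < 4 ^ (c * w ^ 56) by positivity]
  have h7 : (2 : ℤ) ≤ 4 ^ w ^ 56 := by
    calc (2 : ℤ) ≤ 4 ^ 1 := by norm_num
      _ ≤ 4 ^ w ^ 56 := pow_le_pow_right₀ (by norm_num) (Nat.one_le_pow _ _ hw)
  have h8 : (4 : ℤ) ^ ((c + 2) * w ^ 56) = 4 ^ w ^ 56 * (4 ^ w ^ 56 * 4 ^ (c * w ^ 56)) := by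
    rw [← pow_add, ← pow_add]; congr 1; ring
  rw [h8]
  have h9 : 2 * ((4 : ℤ) ^ w ^ 56 * 4 ^ (c * w ^ 56)) ≤ 4 ^ w ^ 56 * (4 ^ w ^ 56 * 4 ^ (c * w ^ 56)) :=
    mul_le_mul_of_nonneg_right h7 (by positivity)
  linarith

/-- **The correlations vary slowly with the exponents and do not depend on the offsets.** -/
theorem close_ck (K : ℕ) {ε : ℝ} (hε : 0 < ε) : ∃ β : ℝ, 0 < β ∧ ∀ c : ℕ, ∀ᶠ w : ℕ in atTop, ∀ f : Fin K → ℤ → ℝ, (∀ i, Iv (f i)) →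
    ∀ κ X : ℝ, (2 : ℝ) ^ (w ^ 80) ≤ X → ∀ s s' : Fin K → ℤ × ℤ, (∀ i, 0 ≤ (s i).1) → (∀ i, 0 ≤ (s' i).1) →
    (∀ i, |(((s' i).1 - (s i).1 : ℤ) : ℝ)| ≤ β * (w : ℝ) ^ 40) → (∀ i, |(s i).2| ≤ 4 ^ (c * w ^ 56)) →
    (∀ i, |(s' i).2| ≤ 4 ^ (c * w ^ 56)) → |ck f κ X s' - ck f κ X s| ≤ ε := by
  obtain ⟨β, hβ, hnear⟩ := near_merge (show 0 < ε / (6 * (K + 1)) by positivity)
  refine ⟨min β 1, lt_min hβ one_pos, ?_⟩
  intro c
  filter_upwards [hnear (c + 2), eventually_ge_atTop 1] with w h hw f hf κ X hX s s' hs hs' hd hr hr'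
  have hwR : (1 : ℝ) ≤ w := by exact_mod_cast hw
  have hX1 : 1 ≤ X := le_trans (one_le_pow₀ (by norm_num)) hX
  have key := ck_diff (κ := κ) (s := s) (s' := s') (ε := ε / (K + 1)) hX1 (by
    intro i
    obtain ⟨D, hD⟩ : ∃ D : ℕ, D = (s i).1.toNat := ⟨_, rfl⟩
    obtain ⟨D', hD'⟩ : ∃ D' : ℕ, D' = (s' i).1.toNat := ⟨_, rfl⟩
    have hDz : ((D : ℕ) : ℤ) = (s i).1 := by rw [hD]; exact Int.toNat_of_nonneg (hs i)
    have hDz' : ((D' : ℕ) : ℤ) = (s' i).1 := by rw [hD']; exact Int.toNat_of_nonneg (hs' i)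
    have hdi := hd i
    rw [← hDz, ← hDz'] at hdi
    push_cast at hdi
    have hdi2 : |(D' : ℝ) - D| ≤ β * (w : ℝ) ^ 40 :=
      hdi.trans (mul_le_mul_of_nonneg_right (min_le_left _ _) (by positivity))
    have hdi3 : |(D' : ℝ) - D| ≤ (w : ℝ) ^ 40 := by
      refine hdi.trans ?_
      have : min β 1 * (w : ℝ) ^ 40 ≤ 1 * (w : ℝ) ^ 40 := mul_le_mul_of_nonneg_right (min_le_right _ _) (by positivity)
      linarith
    have h48 : w ^ 40 ≤ w ^ 48 := Nat.pow_le_pow_right hw (by norm_num)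
    rw [← hD, ← hD']
    have e6 : ε / (K + 1) * X = 6 * (ε / (6 * (K + 1))) * X := by field_simp
    rw [e6]
    rcases le_total D D' with hle | hle
    · obtain ⟨d, hd'⟩ := Nat.exists_eq_add_of_le hle
      have hdd : (D' : ℝ) - D = d := by rw [hd']; push_cast; ring
      rw [hdd, abs_of_nonneg (by positivity)] at hdi2 hdi3
      have hdn : d ≤ w ^ 40 := by exact_mod_cast hdi3
      have h1 := h d hdi2 _ (off_bd2 hw (hdn.trans h48) (hr i) (hr' i))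
      rw [hd']
      exact one_close (hf i) hX1 hX h1
    · obtain ⟨d, hd'⟩ := Nat.exists_eq_add_of_le hle
      have hdd : (D' : ℝ) - D = -d := by rw [hd']; push_cast; ring
      rw [hdd, abs_neg, abs_of_nonneg (by positivity)] at hdi2 hdi3
      have hdn : d ≤ w ^ 40 := by exact_mod_cast hdi3
      have h1 := h d hdi2 _ (off_bd2 hw (hdn.trans h48) (hr' i) (hr i))
      rw [hd']
      have h2 := one_close (κ := κ) (hf i) hX1 hX h1 (D := D')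
      refine le_trans (le_of_eq ?_) h2
      apply sum_congr rfl
      intro n _
      exact abs_sub_comm _ _) hf
  refine key.trans ?_
  have hK : (0 : ℝ) ≤ K := by positivity
  have : (K : ℝ) * (ε / (K + 1)) = ε * (K / (K + 1)) := by ring
  rw [this]
  have h1 : (K : ℝ) / (K + 1) ≤ 1 := by rw [div_le_one (by positivity)]; linarith
  nlinarith

end Pool.Agent.J4H39.KP
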