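import Mathlib
import Pool.Agent.J4H39.KP.S3
import Pool.Agent.J4H95.PC.Gam

set_option autoImplicit false

/-! Project KP: products of window averages and the correlations along forms. -/

namespace Pool.Agent.J4H39.KP

open Finset Filter Real MeasureTheory
open Pool.Agent.J4H39 (T od ex pb ns rn stP stK lb GK GS Cm DV th0 Per id1 id1_pos id1_neg id1_nonneg id1_le_one par
  ex_mono ex_congr ex_add ex_mul ex_const Rel)
open Pool.Agent.J4H26.PC
open Pool.Agent.J4H95.PC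

variable {K : ℕ}

/-- the average over the positions `x ∈ [κ X, κ X + X]` of the product of the window averages at `3 ^ D i * x` -/
noncomputable def WK (f : Fin K → ℤ → ℝ) (κ b X : ℝ) (D : Fin K → ℕ) : ℝ :=
  (∫ x in (κ * X)..(κ * X + X), ∏ i, Pool.Agent.J4H26.PC.Ph (f i) (3 ^ D i * x) (3 ^ D i * b)) / X

theorem Ph_bd {f : ℤ → ℝ} (hf : Iv f) (x : ℝ) {b : ℝ} (hb : 1 ≤ b) : |Pool.Agent.J4H26.PC.Ph f x b| ≤ 2 := by
  unfold Pool.Agent.J4H26.PC.Ph
  rw [max_eq_left hb, abs_div, abs_of_pos (by linarith : 0 < b), div_le_iff₀ (by linarith)]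
  have := win_bd zero_le_one hf.bd (x := x) (b := b) (by linarith)
  linarith

theorem prod_abs_le {a : Fin K → ℝ} {B : ℝ} (h : ∀ i, |a i| ≤ B) : |∏ i, a i| ≤ B ^ K := by
  rw [Finset.abs_prod]
  calc ∏ i, |a i| ≤ ∏ _i : Fin K, B := prod_le_prod (fun i _ => abs_nonneg _) (fun i _ => h i)
    _ = B ^ K := by rw [prod_const, card_univ, Fintype.card_fin]

/-- differences of products of numbers bounded by `2` -/
theorem prod_diff2 {a b : Fin K → ℝ} (ha : ∀ i, |a i| ≤ 2) (hb : ∀ i, |b i| ≤ 1) :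
    |∏ i, a i - ∏ i, b i| ≤ 2 ^ K * ∑ i, |a i - b i| := by
  have gen : ∀ S : Finset (Fin K), |∏ i ∈ S, a i - ∏ i ∈ S, b i| ≤ 2 ^ #S * ∑ i ∈ S, |a i - b i| := by
    intro S
    induction S using Finset.induction_on with
    | empty => simp
    | insert c S hc ih =>
      rw [prod_insert hc, prod_insert hc, sum_insert hc, card_insert_of_notMem hc]
      have e : a c * ∏ i ∈ S, a i - b c * ∏ i ∈ S, b i =
          a c * (∏ i ∈ S, a i - ∏ i ∈ S, b i) + (a c - b c) * ∏ i ∈ S, b i := by ring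
      rw [e]
      refine (abs_add_le _ _).trans ?_
      rw [abs_mul, abs_mul]
      have h1 : |∏ i ∈ S, b i| ≤ 1 := by
        rw [Finset.abs_prod]
        exact Finset.prod_le_one (fun i _ => abs_nonneg _) (fun i _ => hb i)
      have h2 : |a c| * |∏ i ∈ S, a i - ∏ i ∈ S, b i| ≤ 2 * (2 ^ #S * ∑ i ∈ S, |a i - b i|) :=
        mul_le_mul (ha c) ih (abs_nonneg _) (by norm_num)
      have h3 : |a c - b c| * |∏ i ∈ S, b i| ≤ 2 ^ (#S + 1) * |a c - b c| := by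
        have h4 : (1 : ℝ) ≤ 2 ^ (#S + 1) := one_le_pow₀ (by norm_num)
        have h5 := abs_nonneg (a c - b c)
        nlinarith
      have h6 : (2 : ℝ) ^ (#S + 1) = 2 * 2 ^ #S := by ring
      rw [mul_add]
      rw [h6] at h3 ⊢
      linarith
  have := gen univ
  rwa [card_univ, Fintype.card_fin] at this

/-- one window -/
theorem win_one {f : ℤ → ℝ} (hf : Iv f) (k D R : ℕ) {x b : ℝ} (hb : 1 ≤ b) (hR : 3 ^ D * b < R + 1) :
    |Pool.Agent.J4H26.PC.Ph f (3 ^ D * x) (3 ^ D * b) - f (3 ^ D * ⌈x⌉)| ≤ (2 * HH k D R ⌈x⌉ + 1) / (3 ^ D * b) := by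
  have hq : (0 : ℝ) < 3 ^ D := by positivity
  have hq1 : (1 : ℝ) ≤ 3 ^ D := one_le_pow₀ (by norm_num)
  have hb0 : 0 < b := by linarith
  have hqb : 1 ≤ 3 ^ D * b := by nlinarith
  have hqb0 : 0 < 3 ^ D * b := by linarith
  unfold Pool.Agent.J4H26.PC.Ph
  rw [max_eq_left hqb]
  obtain ⟨Bx, hBx⟩ : ∃ Bx, Bx = Finset.Ico ⌈3 ^ D * x⌉ ⌈3 ^ D * x + 3 ^ D * b⌉ := ⟨_, rfl⟩
  obtain ⟨n, hn⟩ : ∃ n, n = ⌈x⌉ := ⟨_, rfl⟩
  rw [← hBx, ← hn]
  have hn1 : x ≤ n := by rw [hn]; exact Int.le_ceil x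
  have hn2 : (n : ℝ) < x + 1 := by rw [hn]; exact Int.ceil_lt_add_one x
  have cB : |(#Bx : ℝ) - 3 ^ D * b| ≤ 1 := by
    have h1 := Int.ceil_lt_add_one (3 ^ D * x + 3 ^ D * b)
    have h2 := Int.le_ceil (3 ^ D * x)
    have h1' := Int.ceil_lt_add_one (3 ^ D * x)
    have h2' := Int.le_ceil (3 ^ D * x + 3 ^ D * b)
    have h3 : ⌈3 ^ D * x⌉ ≤ ⌈3 ^ D * x + 3 ^ D * b⌉ := Int.ceil_mono (by linarith)
    have h4 : (#Bx : ℝ) = (⌈3 ^ D * x + 3 ^ D * b⌉ : ℝ) - ⌈3 ^ D * x⌉ := by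
      rw [hBx, Int.card_Ico]
      have : (((⌈3 ^ D * x + 3 ^ D * b⌉ - ⌈3 ^ D * x⌉).toNat : ℕ) : ℤ) = ⌈3 ^ D * x + 3 ^ D * b⌉ - ⌈3 ^ D * x⌉ :=
        Int.toNat_of_nonneg (by omega)
      exact_mod_cast this
    rw [h4, abs_le]
    constructor <;> linarith
  have e1 : (∑ m ∈ Bx, f m) / (3 ^ D * b) - f (3 ^ D * n) =
      (∑ m ∈ Bx, (f m - f (3 ^ D * n)) + (#Bx - 3 ^ D * b) * f (3 ^ D * n)) / (3 ^ D * b) := by
    rw [sum_sub_distrib, sum_const, nsmul_eq_mul]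
    field_simp
    ring
  rw [e1, abs_div, abs_of_pos hqb0]
  apply div_le_div_of_nonneg_right _ hqb0.le
  refine (abs_add_le _ _).trans (add_le_add ?_ ?_)
  · refine (abs_sum_le_sum_abs _ _).trans ?_
    have h3 : ∀ m ∈ Bx, |f m - f (3 ^ D * n)| ≤ 2 * id1 (rn stP k (0, m - 3 ^ D * n) (3 ^ D * n) ≠ (0, 0)) := by
      intro m _
      have hrel := Pool.Agent.J4H39.rel_nat 0 (m - 3 ^ D * n) (3 ^ D * n)
      rw [pow_zero, one_mul, add_sub_cancel] at hrel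
      exact one_diff hf hrel k
    refine (sum_le_sum h3).trans ?_
    rw [← mul_sum]
    apply mul_le_mul_of_nonneg_left _ (by norm_num)
    unfold HH
    have h4 : ∑ m ∈ Bx, id1 (rn stP k (0, m - 3 ^ D * n) (3 ^ D * n) ≠ (0, 0)) =
        ∑ r ∈ Bx.image (fun m => m - 3 ^ D * n), id1 (rn stP k (0, r) (3 ^ D * n) ≠ (0, 0)) := by
      rw [sum_image]
      intro m _ m' _ h
      simp only at h
      linarith
    rw [h4]
    apply sum_le_sum_of_subset_of_nonneg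
    · intro r hr
      rw [Finset.mem_image] at hr
      obtain ⟨m, hm, rfl⟩ := hr
      rw [hBx, Finset.mem_Ico] at hm
      have hm1 : 3 ^ D * x ≤ m := by
        have := Int.le_ceil (3 ^ D * x)
        have h : (⌈3 ^ D * x⌉ : ℝ) ≤ m := by exact_mod_cast hm.1
        linarith
      have hm2 : (m : ℝ) < 3 ^ D * x + 3 ^ D * b := by
        have := hm.2
        rwa [Int.lt_ceil] at this
      have l1 : (3 : ℝ) ^ D * x ≤ 3 ^ D * n := by gcongr
      have l2 : (3 : ℝ) ^ D * n < 3 ^ D * (x + 1) := by gcongr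
      have l5 : (3 : ℝ) ^ D * 1 ≤ 3 ^ D * b := by gcongr
      have l3 : (m : ℝ) - 3 ^ D * n < R + 1 := by linarith
      have l4 : -((R : ℝ) + 1) < (m : ℝ) - 3 ^ D * n := by linarith
      have l3' : m - 3 ^ D * n < R + 1 := by exact_mod_cast l3
      have l4' : -((R : ℤ) + 1) < m - 3 ^ D * n := by exact_mod_cast l4
      rw [Finset.mem_Icc]
      constructor <;> linarith
    · intro r _ _
      exact id1_nonneg _
  · rw [abs_mul]
    exact mul_le_one₀ cB (abs_nonneg _) (hf.bd _)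

theorem ceil_one (G : ℤ → ℝ) (x : ℝ) : ∑ n ∈ Finset.Ico ⌈x⌉ ⌈x + 1⌉, G n = G ⌈x⌉ := by
  rw [Int.ceil_add_one]
  have : Finset.Ico ⌈x⌉ (⌈x⌉ + 1) = {⌈x⌉} := by
    ext n; simp only [Finset.mem_Ico, Finset.mem_singleton]; omega
  rw [this, sum_singleton]

/-- integrals of functions of `⌈x⌉` -/
theorem int_ceil {G : ℤ → ℝ} {B : ℝ} (hB : 0 ≤ B) (hG : ∀ n, |G n| ≤ B) {A X : ℝ} (hX : 0 ≤ X) :
    |(∫ x in A..(A + X), G ⌈x⌉) - ∑ n ∈ Finset.Ico ⌈A⌉ ⌈A + X⌉, G n| ≤ 4 * B := by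
  have h := avg_shift hB hG (A := A) hX (zero_le_one)
  simp only [ceil_one, one_mul, mul_one] at h
  linarith

theorem gamK_bound {f : Fin K → ℤ → ℝ} (hf : ∀ i, Iv (f i)) {k : ℕ} {D : Fin K → ℕ} {κ X b η : ℝ} (hX : 1 ≤ X) (hk : (2 : ℝ) ^ k ≤ X)
    (hb : 1 ≤ b) (h : ∀ i, ∀ r : ℤ, |r| ≤ ((⌊3 ^ D i * b⌋₊ : ℕ) : ℤ) → ns k (0, r) ≤ η) :
    |WK f κ b X D - ck f κ X (fun i => ((D i : ℤ), 0))| ≤ 2 ^ K * (K * (18 * η + 24 / X + 1 / b)) + 4 / X := by
  have hb0 : 0 < b := by linarith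
  have hX0 : 0 < X := by linarith
  have hqb : ∀ i, 1 ≤ 3 ^ D i * b := fun i => by
    have : (1 : ℝ) ≤ 3 ^ D i := one_le_pow₀ (by norm_num)
    nlinarith
  obtain ⟨R, hRd⟩ : ∃ R : Fin K → ℕ, R = fun i => ⌊3 ^ D i * b⌋₊ := ⟨_, rfl⟩
  have hR : ∀ i, 3 ^ D i * b < R i + 1 := fun i => by rw [hRd]; exact Nat.lt_floor_add_one _
  have hR2 : ∀ i, (R i : ℝ) ≤ 3 ^ D i * b := fun i => by
    rw [hRd]; exact Nat.floor_le (by have := hqb i; linarith)
  obtain ⟨G, hG⟩ : ∃ G : ℤ → ℝ, G = fun n => ∏ i, f i (3 ^ D i * n) := ⟨_, rfl⟩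
  have hGb : ∀ n, |G n| ≤ 1 := fun n => by rw [hG]; exact prodK_bd hf _
  have hck : ck f κ X (fun i => ((D i : ℤ), 0)) = (∑ n ∈ Finset.Ico ⌈κ * X⌉ ⌈κ * X + X⌉, G n) / X := by
    unfold ck
    rw [max_eq_left hX, hG]
    simp only [Int.toNat_natCast, add_zero]
  have hmeas : ∀ i, Measurable (fun x : ℝ => Pool.Agent.J4H26.PC.Ph (f i) (3 ^ D i * x) (3 ^ D i * b)) := fun i =>
    (meas_Ph (f i) (3 ^ D i * b)).comp (measurable_const_mul _)
  have hmp : Measurable (fun x : ℝ => ∏ i, Pool.Agent.J4H26.PC.Ph (f i) (3 ^ D i * x) (3 ^ D i * b)) :=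
    Finset.measurable_prod _ (fun i _ => hmeas i)
  have i1 : IntervalIntegrable (fun x => ∏ i, Pool.Agent.J4H26.PC.Ph (f i) (3 ^ D i * x) (3 ^ D i * b)) volume (κ * X) (κ * X + X) :=
    ii_bdd (M := 2 ^ K) hmp (by linarith) (fun x _ _ => prod_abs_le fun i => Ph_bd (hf i) _ (hqb i))
  have i2 : IntervalIntegrable (fun x : ℝ => G ⌈x⌉) volume (κ * X) (κ * X + X) :=
    ii_bdd (M := 1) (meas_ceil G) (by linarith) (fun x _ _ => hGb _)
  have i3 : ∀ i, IntervalIntegrable (fun x : ℝ => (2 * HH k (D i) (R i) ⌈x⌉ + 1) / (3 ^ D i * b)) volume (κ * X) (κ * X + X) := by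
    intro i
    apply ii_bdd (M := (2 * (2 * R i + 1) + 1) / (3 ^ D i * b)) (meas_ceil (fun n => (2 * HH k (D i) (R i) n + 1) / (3 ^ D i * b)))
      (by linarith)
    intro x _ _
    have h0 := HH_nonneg k (D i) (R i) ⌈x⌉
    have h1 := HH_le k (D i) (R i) ⌈x⌉
    have h2 := hqb i
    rw [abs_of_nonneg (div_nonneg (by linarith) (by linarith))]
    apply div_le_div_of_nonneg_right _ (by linarith)
    linarith
  have i4 : IntervalIntegrable (fun x : ℝ => 2 ^ K * ∑ i, (2 * HH k (D i) (R i) ⌈x⌉ + 1) / (3 ^ D i * b)) volume (κ * X) (κ * X + X) := by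
    have h0 : ∀ n, 0 ≤ 2 ^ K * ∑ i, (2 * HH k (D i) (R i) n + 1) / (3 ^ D i * b) := fun n =>
      mul_nonneg (by positivity) (sum_nonneg fun i _ => div_nonneg (by have := HH_nonneg k (D i) (R i) n; linarith)
        (by have := hqb i; linarith))
    apply ii_bdd (M := 2 ^ K * ∑ i, (2 * (2 * R i + 1) + 1) / (3 ^ D i * b))
      (meas_ceil (fun n => 2 ^ K * ∑ i, (2 * HH k (D i) (R i) n + 1) / (3 ^ D i * b))) (by linarith)
    intro x _ _
    rw [abs_of_nonneg (h0 _)]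
    apply mul_le_mul_of_nonneg_left _ (by positivity)
    apply sum_le_sum
    intro i _
    apply div_le_div_of_nonneg_right _ (by have := hqb i; linarith)
    have h1 := HH_le k (D i) (R i) ⌈x⌉
    linarith
  have d1 : |(∫ x in (κ * X)..(κ * X + X), ∏ i, Pool.Agent.J4H26.PC.Ph (f i) (3 ^ D i * x) (3 ^ D i * b)) - ∫ x in (κ * X)..(κ * X + X), G ⌈x⌉| ≤
      ∫ x in (κ * X)..(κ * X + X), 2 ^ K * ∑ i, (2 * HH k (D i) (R i) ⌈x⌉ + 1) / (3 ^ D i * b) := by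
    rw [← intervalIntegral.integral_sub i1 i2]
    refine (intervalIntegral.abs_integral_le_integral_abs (by linarith)).trans ?_
    apply intervalIntegral.integral_mono_on (by linarith) (i1.sub i2).abs i4
    intro x _
    rw [hG]
    simp only
    refine (prod_diff2 (fun i => Ph_bd (hf i) _ (hqb i)) (fun i => (hf i).bd _)).trans ?_
    apply mul_le_mul_of_nonneg_left _ (by positivity)
    exact sum_le_sum fun i _ => win_one (hf i) k (D i) (R i) hb (hR i)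
  have d2 : (∫ x in (κ * X)..(κ * X + X), 2 ^ K * ∑ i, (2 * HH k (D i) (R i) ⌈x⌉ + 1) / (3 ^ D i * b)) ≤
      2 ^ K * (K * (18 * η + 24 / X + 1 / b)) * X := by
    rw [intervalIntegral.integral_const_mul, intervalIntegral.integral_finsetSum (fun i _ => i3 i)]
    have h5 : ∀ i ∈ (univ : Finset (Fin K)), (∫ x in (κ * X)..(κ * X + X), (2 * HH k (D i) (R i) ⌈x⌉ + 1) / (3 ^ D i * b)) ≤
        (18 * η + 24 / X + 1 / b) * X := by
      intro i _
      have hη : 0 ≤ η := (Pool.Agent.J4H39.pb_nonneg _ _).trans (h i 0 (by simp))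
      have hq1 : (1 : ℝ) ≤ 3 ^ D i := one_le_pow₀ (by norm_num)
      have h2 := hqb i
      have hH : ∀ n, |HH k (D i) (R i) n| ≤ 2 * R i + 1 := fun n => by
        rw [abs_of_nonneg (HH_nonneg _ _ _ _)]; exact HH_le k (D i) (R i) n
      have iH : IntervalIntegrable (fun x : ℝ => HH k (D i) (R i) ⌈x⌉) volume (κ * X) (κ * X + X) :=
        ii_bdd (M := 2 * R i + 1) (meas_ceil _) (by linarith) (fun x _ _ => hH _)
      rw [intervalIntegral.integral_div, intervalIntegral.integral_add (iH.const_mul 2) intervalIntegrable_const,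
        intervalIntegral.integral_const_mul, intervalIntegral.integral_const, smul_eq_mul, show κ * X + X - κ * X = X by ring]
      have d3 := int_ceil (by positivity) hH (A := κ * X) hX0.le
      have d4 := HH_sum (D := D i) (R := R i) (κ := κ) hX hk (fun r hr => h i r (by rw [hRd] at hr; exact hr))
      have d5 := (abs_le.1 d3).2
      have d6 : (2 * (R i : ℝ) + 1) ≤ 3 * (3 ^ D i * b) := by
        have := hR2 i
        linarith
      rw [div_le_iff₀ (by linarith)]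
      have d7 : (2 * (R i : ℝ) + 1) * (3 * X * η + 4) ≤ 3 * (3 ^ D i * b) * (3 * X * η + 4) :=
        mul_le_mul_of_nonneg_right d6 (by positivity)
      have d8 : (18 * η + 24 / X + 1 / b) * X * (3 ^ D i * b) = 2 * (3 * (3 ^ D i * b) * (3 * X * η + 4)) + 3 ^ D i * X := by
        field_simp
        ring
      have d9 : X * 1 ≤ 3 ^ D i * X := by nlinarith
      rw [d8]
      linarith
    have h6 := sum_le_sum h5
    rw [sum_const, card_univ, Fintype.card_fin, nsmul_eq_mul] at h6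
    calc _ ≤ 2 ^ K * (K * ((18 * η + 24 / X + 1 / b) * X)) := mul_le_mul_of_nonneg_left h6 (by positivity)
      _ = _ := by ring
  have d3 := int_ceil zero_le_one hGb (A := κ * X) hX0.le
  unfold WK
  rw [hck, ← sub_div, abs_div, abs_of_pos hX0, div_le_iff₀ hX0]
  have d4 := abs_sub_le (∫ x in (κ * X)..(κ * X + X), ∏ i, Pool.Agent.J4H26.PC.Ph (f i) (3 ^ D i * x) (3 ^ D i * b))
    (∫ x in (κ * X)..(κ * X + X), G ⌈x⌉) (∑ n ∈ Finset.Ico ⌈κ * X⌉ ⌈κ * X + X⌉, G n)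
  have d5 : (2 ^ K * (K * (18 * η + 24 / X + 1 / b)) + 4 / X) * X = 2 ^ K * (K * (18 * η + 24 / X + 1 / b)) * X + 4 := by
    field_simp
  rw [d5]
  linarith

/-- **Window averages and forms.** -/
theorem gamK (K : ℕ) {ε : ℝ} (hε : 0 < ε) (c : ℕ) : ∀ᶠ w : ℕ in atTop, ∀ f : Fin K → ℤ → ℝ, (∀ i, Iv (f i)) →
    ∀ κ X b : ℝ, (2 : ℝ) ^ (w ^ 80) ≤ X → (w : ℝ) ≤ b → b ≤ 4 ^ (c * w ^ 56) → ∀ D : Fin K → ℕ, (∀ i, D i ≤ c * w ^ 48) →
    |WK f κ b X D - ck f κ X (fun i => ((D i : ℤ), 0))| ≤ ε := by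
  obtain ⟨q, hq⟩ : ∃ q : ℝ, q = ε / (2 ^ K * (K * 43) + 4) := ⟨_, rfl⟩
  have hden : (0 : ℝ) < 2 ^ K * (K * 43) + 4 := by positivity
  have hq0 : 0 < q := by rw [hq]; positivity
  obtain ⟨β, hβ, hnear⟩ := near_merge hq0
  filter_upwards [hnear (2 * c), eventually_ge_atTop 1, eventually_ge_atTop ⌈1 / q⌉₊] with w h hw hwq f hf κ X b hX hb hb2 D hD
  have hwR : (1 : ℝ) ≤ w := by exact_mod_cast hw
  have hwq' : 1 / q ≤ w := (Nat.le_ceil _).trans (by exact_mod_cast hwq)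
  have hX1 : 1 ≤ X := le_trans (one_le_pow₀ (by norm_num)) hX
  have hXw : (w : ℝ) ≤ X := by
    refine le_trans ?_ hX
    have h1 : w ≤ 2 ^ (w ^ 80) := le_trans (Nat.le_self_pow (by norm_num) w) (Nat.lt_two_pow_self).le
    exact_mod_cast h1
  have hb1 : 1 ≤ b := hwR.trans hb
  have key := gamK_bound (κ := κ) hf hX1 hX hb1 (D := D) (η := q) (by
    intro i r hr
    have h0 := h 0 (by simp only [Nat.cast_zero]; positivity) r ?_
    · simpa using h0
    · have h1 : ((⌊3 ^ D i * b⌋₊ : ℕ) : ℝ) ≤ 3 ^ D i * b := Nat.floor_le (by positivity)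
      have h2 : (3 : ℝ) ^ D i ≤ 4 ^ (c * w ^ 56) := by
        calc (3 : ℝ) ^ D i ≤ 4 ^ D i := pow_le_pow_left₀ (by norm_num) (by norm_num) _
          _ ≤ 4 ^ (c * w ^ 56) := pow_le_pow_right₀ (by norm_num)
              ((hD i).trans (Nat.mul_le_mul_left c (Nat.pow_le_pow_right hw (by norm_num))))
      have h3 : (3 : ℝ) ^ D i * b ≤ 4 ^ (c * w ^ 56) * 4 ^ (c * w ^ 56) := mul_le_mul h2 hb2 (by linarith) (by positivity)
      have h4 : ((|r| : ℤ) : ℝ) ≤ (4 : ℝ) ^ (2 * c * w ^ 56) := by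
        calc ((|r| : ℤ) : ℝ) ≤ ((⌊3 ^ D i * b⌋₊ : ℕ) : ℝ) := by exact_mod_cast hr
          _ ≤ 3 ^ D i * b := h1
          _ ≤ 4 ^ (c * w ^ 56) * 4 ^ (c * w ^ 56) := h3
          _ = 4 ^ (2 * c * w ^ 56) := by rw [← pow_add]; congr 1; ring
      exact_mod_cast h4)
  refine key.trans ?_
  have g1 : 1 / X ≤ q := by
    rw [div_le_iff₀ (by linarith)]
    rw [div_le_iff₀ hq0] at hwq'
    calc (1 : ℝ) ≤ w * q := hwq'
      _ ≤ X * q := mul_le_mul_of_nonneg_right hXw hq0.le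
      _ = q * X := by ring
  have g2 : 1 / b ≤ q := by
    rw [div_le_iff₀ (by linarith)]
    rw [div_le_iff₀ hq0] at hwq'
    calc (1 : ℝ) ≤ w * q := hwq'
      _ ≤ b * q := mul_le_mul_of_nonneg_right hb hq0.le
      _ = q * b := by ring
  have g3 : 24 / X = 24 * (1 / X) := by ring
  have g4 : 4 / X = 4 * (1 / X) := by ring
  rw [g3, g4]
  have g5 : (18 * q + 24 * (1 / X) + 1 / b) ≤ 43 * q := by linarith
  calc 2 ^ K * (K * (18 * q + 24 * (1 / X) + 1 / b)) + 4 * (1 / X) ≤ 2 ^ K * (K * (43 * q)) + 4 * q := by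
        gcongr
    _ = (2 ^ K * (K * 43) + 4) * q := by ring
    _ = ε := by rw [hq]; field_simp

end Pool.Agent.J4H39.KP
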