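import Mathlib
import Pool.Agent.J4H26.KP.Q2
import Pool.Agent.J4H39.KP.S4

set_option autoImplicit false

/-! Project KP, (J7): window averages and forms. -/

namespace Pool.Agent.J4H39.KP

open Finset Filter Real
open Pool.Agent.J4H39 (T od ex pb ns rn stP stK GK th0)
open Pool.Agent.J4H26.PC (Iv)
open Pool.Agent.J4H26.KP (ccK GGK S_GAMK)

theorem ccK_ck {K : ℕ} (F : Fin K → ℤ → ℝ) (κ X : ℝ) (D : Fin K → ℕ) (r : Fin K → ℤ) :
    ccK F κ X D r = ck F κ X (fun i => ((D i : ℤ), r i)) := by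
  unfold ccK ck
  simp only [Int.toNat_natCast]

theorem cl_ck {K : ℕ} (F : Fin K → ℤ → ℝ) (κ X : ℝ) (s : Fin K → ℤ × ℤ) : Pool.Agent.J4H26.KP.cl F κ X s = ck F κ X s := rfl

theorem t_GAMK : S_GAMK := by
  intro K ε hε
  filter_upwards [gamK K hε 1, eventually_ge_atTop 1] with w h hw
  intro F hF κ X b _ hX hb hb2 D hD
  have hwR : (1 : ℝ) ≤ w := by exact_mod_cast hw
  rw [ccK_ck]
  refine h F hF κ X b hX ?_ ?_ D (fun i => by have := hD i; omega)
  · refine le_trans ?_ hb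
    exact le_self_pow₀ hwR (by norm_num)
  · refine hb2.trans ?_
    calc (2 : ℝ) ^ (w ^ 54) ≤ 4 ^ (w ^ 54) := pow_le_pow_left₀ (by norm_num) (by norm_num) _
      _ ≤ 4 ^ (1 * w ^ 56) := pow_le_pow_right₀ (by norm_num) (by
          rw [one_mul]; exact Nat.pow_le_pow_right hw (by norm_num))

end Pool.Agent.J4H39.KP
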