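import Mathlib
import Pool.Agent.J4H39.KP.V1
import Pool.Agent.J4H55.PC.B7

set_option autoImplicit false

/-! Project KP, (L3): the transfer over `t` steps. -/

namespace Pool.Agent.J4H39.KP

open Finset Filter Real
open Pool.Agent.J4H39 (T od ex pb ns rn stP stK GK GS th0)
open Pool.Agent.J4H26.PC (Iv)
open Pool.Agent.J4H26.KP (ccK S_TR2)

/-- the integer part of the `k`-th root -/
theorem root_nat (k : ℕ) (hk : k ≠ 0) (q : ℕ) : ∃ w : ℕ, w ^ k ≤ q ∧ q < (w + 1) ^ k := by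
  have hex : ∃ w : ℕ, q < (w + 1) ^ k := ⟨q, by
    calc q < q + 1 := Nat.lt_succ_self q
      _ ≤ (q + 1) ^ k := Nat.le_self_pow hk _⟩
  classical
  refine ⟨Nat.find hex, ?_, Nat.find_spec hex⟩
  rcases Nat.eq_zero_or_pos (Nat.find hex) with h | h
  · rw [h, zero_pow hk]; exact Nat.zero_le _
  · have h1 := Nat.find_min hex (m := Nat.find hex - 1) (by omega)
    rw [not_lt, Nat.sub_add_cancel h] at h1
    exact h1

/-- `(w + 1) ^ 80 ≤ 2 w ^ 80` -/
theorem succ_pow80 {w : ℕ} (hw : 160 ≤ w) : (w + 1) ^ 80 ≤ 2 * w ^ 80 := by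
  have h := Pool.Agent.J4H55.PC.pow_two_bd (w := w) 80 (by omega)
  exact_mod_cast h

theorem t_TR2 : S_TR2 := by
  intro K ρ ε hρ hε
  obtain ⟨n, hn⟩ : ∃ n : ℕ, n = ⌈40 / (ρ - 1)⌉₊ + 1 := ⟨_, rfl⟩
  have hn1 : 1 ≤ n := by omega
  have hnR : (1 : ℝ) ≤ n := by exact_mod_cast hn1
  have hρ0 : 0 < ρ - 1 := by linarith
  have hnρ : 40 ≤ (ρ - 1) * n := by
    have h1 : 40 / (ρ - 1) ≤ n := by
      rw [hn]
      push_cast
      have := Nat.le_ceil (40 / (ρ - 1))
      linarith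
    rw [div_le_iff₀ hρ0] at h1
    linarith
  obtain ⟨C, hC, hmain⟩ := main_indK K n (2 * n)
  obtain ⟨w₀, hw₀⟩ := eventually_atTop.1 hmain
  obtain ⟨W, hW⟩ : ∃ W : ℕ, W = max (max w₀ 200) (max n ⌈C / ε⌉₊) := ⟨_, rfl⟩
  have hrt : Tendsto (fun t : ℕ => (t : ℝ) ^ (3 / 400 : ℝ)) atTop atTop :=
    (tendsto_rpow_atTop (by norm_num)).comp tendsto_natCast_atTop_atTop
  filter_upwards [eventually_ge_atTop (n * (W + 1) ^ 80), hrt.eventually_ge_atTop (n : ℝ), eventually_ge_atTop 1] with t ht htn ht1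
  intro F hF κ _ X hX hXt D hD
  have h0 := Pool.Agent.J4H39.th0_pos
  have h5 := Pool.Agent.J4H39.th0_gt
  have htR : (1 : ℝ) ≤ t := by exact_mod_cast ht1
  obtain ⟨w, hw1, hw2⟩ := root_nat 80 (by norm_num) (t / n)
  have hwW : W ≤ w := by
    by_contra hcon
    push Not at hcon
    have h1 : (w + 1) ^ 80 ≤ (W + 1) ^ 80 := Nat.pow_le_pow_left (by omega) 80
    have h2 : (W + 1) ^ 80 ≤ t / n := by
      rw [Nat.le_div_iff_mul_le (by omega)]
      calc (W + 1) ^ 80 * n = n * (W + 1) ^ 80 := by ring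
        _ ≤ t := ht
    exact absurd (hw2.trans_le (h1.trans h2)) (lt_irrefl _)
  have hw0' : w₀ ≤ w := le_trans (by rw [hW]; exact le_trans (le_max_left _ _) (le_max_left _ _)) hwW
  have hw200 : 200 ≤ w := le_trans (by rw [hW]; exact le_trans (le_max_right _ _) (le_max_left _ _)) hwW
  have hwn : n ≤ w := le_trans (by rw [hW]; exact le_trans (le_max_left _ _) (le_max_right _ _)) hwW
  have hwC : ⌈C / ε⌉₊ ≤ w := le_trans (by rw [hW]; exact le_trans (le_max_right _ _) (le_max_right _ _)) hwW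
  have hwR : (200 : ℝ) ≤ w := by exact_mod_cast hw200
  have hw0 : (0 : ℝ) < w := by linarith
  have hwCr : C / w ≤ ε := by
    have h1 : C / ε ≤ w := (Nat.le_ceil _).trans (by exact_mod_cast hwC)
    rw [div_le_iff₀ hε] at h1
    rw [div_le_iff₀ hw0]
    linarith
  -- the size of `t`
  have g1 : n * w ^ 80 ≤ t := by
    calc n * w ^ 80 = w ^ 80 * n := by ring
      _ ≤ t / n * n := Nat.mul_le_mul_right n hw1
      _ ≤ t := Nat.div_mul_le_self t n
  have g2 : t ≤ 2 * n * w ^ 80 := by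
    have h1 : t / n + 1 ≤ 2 * w ^ 80 := (Nat.succ_le_of_lt hw2).trans (succ_pow80 (by omega))
    have h2 : t < (t / n + 1) * n := by
      have := Nat.lt_div_mul_add (a := t) (b := n) (by omega)
      rw [add_mul, one_mul]
      exact this
    calc t ≤ (t / n + 1) * n := h2.le
      _ ≤ 2 * w ^ 80 * n := Nat.mul_le_mul_right n h1
      _ = 2 * n * w ^ 80 := by ring
  have g1R : (n : ℝ) * (w : ℝ) ^ 80 ≤ t := by exact_mod_cast g1
  have g2R : (t : ℝ) ≤ 2 * n * (w : ℝ) ^ 80 := by exact_mod_cast g2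
  have htn' : (n : ℝ) ≤ (t : ℝ) ^ (3 / 400 : ℝ) := htn
  have h' := hw₀ w hw0'
  clear hmain hw₀ ht hw1 hw2 htn hrt
  -- the height
  have g3 : th0 * (t : ℝ) + 3 * (w : ℝ) ^ 80 + (n : ℝ) * (w : ℝ) ^ 45 ≤ ρ * th0 * t := by
    have h1 : (n : ℝ) * (w : ℝ) ^ 45 ≤ (w : ℝ) ^ 80 := by
      have h2 : (n : ℝ) ≤ w := by exact_mod_cast hwn
      calc (n : ℝ) * (w : ℝ) ^ 45 ≤ w * (w : ℝ) ^ 45 := mul_le_mul_of_nonneg_right h2 (by positivity)
        _ = (w : ℝ) ^ 46 := by ring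
        _ ≤ (w : ℝ) ^ 80 := pow_le_pow_right₀ (by linarith) (by norm_num)
    have h3 : 4 * (w : ℝ) ^ 80 ≤ (ρ - 1) * th0 * t := by
      have h4 : 4 * (w : ℝ) ^ 80 * n ≤ (ρ - 1) * th0 * t * n := by
        calc 4 * (w : ℝ) ^ 80 * n ≤ 4 * t := by linarith
          _ ≤ (40 * th0) * t := mul_le_mul_of_nonneg_right (by linarith) (by linarith)
          _ ≤ ((ρ - 1) * n * th0) * t := mul_le_mul_of_nonneg_right (mul_le_mul_of_nonneg_right hnρ h0.le) (by linarith)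
          _ = (ρ - 1) * th0 * t * n := by ring
      exact le_of_mul_le_mul_right h4 (by linarith)
    have h6 : ρ * th0 * t = th0 * t + (ρ - 1) * th0 * t := by ring
    rw [h6]
    linarith
  have hXX : (2 : ℝ) ^ (th0 * (t : ℝ) + 3 * (w : ℝ) ^ 80 + (n : ℝ) * (w : ℝ) ^ 45) ≤ X := by
    rw [← Real.rpow_logb (by norm_num : (0 : ℝ) < 2) (by norm_num) hX]
    exact Real.rpow_le_rpow_of_exponent_le (by norm_num) (g3.trans hXt)
  have key := h' t g1 g2 F hF κ X hXX (fun i => ((D i : ℤ), 0)) ?_ ?_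
  · rw [ccK_ck]
    refine le_trans ?_ hwCr
    exact key
  · intro i
    have hdi : D i ≤ 2 * n * w ^ 48 := by
      have h1 := (hD i).2
      have h2 : (t : ℝ) ^ (29 / 50 : ℝ) ≤ ((2 * n * w ^ 48 : ℕ) : ℝ) := by
        calc (t : ℝ) ^ (29 / 50 : ℝ) ≤ (t : ℝ) ^ (3 / 5 : ℝ) := Real.rpow_le_rpow_of_exponent_le htR (by norm_num)
          _ ≤ (2 * n * (w : ℝ) ^ 80) ^ (3 / 5 : ℝ) := Real.rpow_le_rpow (by positivity) g2R (by norm_num)
          _ = (2 * n : ℝ) ^ (3 / 5 : ℝ) * ((w : ℝ) ^ 80) ^ (3 / 5 : ℝ) := Real.mul_rpow (by positivity) (by positivity)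
          _ ≤ (2 * n : ℝ) ^ (1 : ℝ) * ((w : ℝ) ^ 80) ^ (3 / 5 : ℝ) := by
              apply mul_le_mul_of_nonneg_right _ (by positivity)
              exact Real.rpow_le_rpow_of_exponent_le (by linarith) (by norm_num)
          _ = ((2 * n * w ^ 48 : ℕ) : ℝ) := by
              rw [Real.rpow_one, ← Real.rpow_natCast, ← Real.rpow_mul (by positivity)]
              have e : ((80 : ℕ) : ℝ) * (3 / 5) = ((48 : ℕ) : ℝ) := by norm_num
              rw [e, Real.rpow_natCast]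
              push_cast
              ring
      exact_mod_cast h1.trans h2
    refine ⟨?_, ?_⟩
    · show |(D i : ℤ)| ≤ _
      rw [Nat.abs_cast]
      exact Int.ofNat_le.2 hdi
    · show |(0 : ℤ)| ≤ _
      rw [abs_zero]
      exact (pow_pos (by norm_num) _).le
  · intro i
    have h1 := (hD i).1
    have h2 : ((n * w ^ 41 : ℕ) : ℝ) ≤ (D i : ℝ) := by
      refine le_trans ?_ h1
      have h3 : (t : ℝ) ^ (13 / 25 : ℝ) = (t : ℝ) ^ (3 / 400 : ℝ) * (t : ℝ) ^ (41 / 80 : ℝ) := by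
        rw [← Real.rpow_add (by linarith)]; norm_num
      have h4 : (w : ℝ) ^ 41 ≤ (t : ℝ) ^ (41 / 80 : ℝ) := by
        have h5 : (w : ℝ) ^ 80 ≤ t := by
          calc (w : ℝ) ^ 80 = 1 * (w : ℝ) ^ 80 := by ring
            _ ≤ n * (w : ℝ) ^ 80 := mul_le_mul_of_nonneg_right hnR (by positivity)
            _ ≤ t := g1R
        calc (w : ℝ) ^ 41 = ((w : ℝ) ^ 80) ^ (41 / 80 : ℝ) := by
              rw [← Real.rpow_natCast (w : ℝ) 80, ← Real.rpow_mul (by positivity)]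
              have e : ((80 : ℕ) : ℝ) * (41 / 80) = ((41 : ℕ) : ℝ) := by norm_num
              rw [e, Real.rpow_natCast]
          _ ≤ (t : ℝ) ^ (41 / 80 : ℝ) := Real.rpow_le_rpow (by positivity) h5 (by norm_num)
      rw [h3]
      push_cast
      exact mul_le_mul htn' h4 (by positivity) (by positivity)
    have h6 : n * w ^ 41 ≤ D i := by exact_mod_cast h2
    exact Int.ofNat_le.2 h6

end Pool.Agent.J4H39.KP
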