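import Mathlib
import Pool.Agent.J4H39.KP.V1

set_option autoImplicit false

/-! Project KP, (J1) and (L2): the error function law as an upper bound; the correlations vary slowly. -/

namespace Pool.Agent.J4H39.KP

open Finset Filter Real
open Pool.Agent.J4H39 (T od ex pb ns rn stP stK GK GS th0 Erf)
open Pool.Agent.J4H26.PC (Iv)
open Pool.Agent.J4H26.KP (ccK S_NSL S_LIPD)

theorem pi_const : 2 / √ Real.pi ≤ 4 / 3 := by
  have h : (3 / 2 : ℝ) ≤ √ Real.pi := by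
    apply Real.le_sqrt_of_sq_le
    have := Real.pi_gt_three
    linarith
  rw [div_le_div_iff₀ (by linarith) (by norm_num)]
  linarith

theorem fl13 {k z : ℕ} (hz2 : k < (z + 1) ^ 20) (hz : 40 ≤ z) : ⌊(k : ℝ) ^ (13 / 20 : ℝ)⌋₊ ≤ 1 * z ^ 14 := by
  have h1 := Pool.Agent.J4H39.rpow_z (e := 13) hz2 hz (by norm_num)
  clear hz2
  have e1 : (((13 : ℕ) : ℝ) / 20) = 13 / 20 := by norm_num
  rw [e1] at h1
  have hzR : (40 : ℝ) ≤ z := by exact_mod_cast hz
  have h0 : (0 : ℝ) ≤ (k : ℝ) ^ (13 / 20 : ℝ) := Real.rpow_nonneg (Nat.cast_nonneg k) _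
  apply Nat.cast_le (α := ℝ).1
  refine (Nat.floor_le h0).trans (h1.trans ?_)
  push_cast
  have h3 : (0 : ℝ) ≤ (z : ℝ) ^ 13 := pow_nonneg (Nat.cast_nonneg z) _
  calc 2 * (z : ℝ) ^ 13 ≤ z * (z : ℝ) ^ 13 := mul_le_mul_of_nonneg_right (by linarith) h3
    _ = 1 * (z : ℝ) ^ 14 := by ring

theorem sq12 {k z : ℕ} (hz2 : k < (z + 1) ^ 20) (hz : 40 ≤ z) : √ (k : ℝ) ≤ (z : ℝ) ^ 12 := by
  have h5 := Pool.Agent.J4H39.rpow_z (e := 10) hz2 hz (by norm_num)
  clear hz2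
  have e1 : (((10 : ℕ) : ℝ) / 20) = 1 / 2 := by norm_num
  rw [e1, ← Real.sqrt_eq_rpow] at h5
  have hzR : (40 : ℝ) ≤ z := by exact_mod_cast hz
  have h3 : (0 : ℝ) ≤ (z : ℝ) ^ 10 := pow_nonneg (Nat.cast_nonneg z) _
  calc √ (k : ℝ) ≤ 2 * (z : ℝ) ^ 10 := h5
    _ ≤ (z : ℝ) ^ 2 * (z : ℝ) ^ 10 := mul_le_mul_of_nonneg_right (by nlinarith) h3
    _ = (z : ℝ) ^ 12 := by ring

/-- not merged, in the scaling of the error function law -/
theorem ns_up {ε : ℝ} (hε : 0 < ε) : ∀ᶠ k : ℕ in atTop, ∀ D r : ℤ, |r| ≤ 4 ^ ⌊(k : ℝ) ^ (13 / 20 : ℝ)⌋₊ →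
    ns k (D, r) ≤ 4 / 3 * |(D : ℝ)| / √k + ε := by
  obtain ⟨t₀, ht₀⟩ := Pool.Agent.J4H26.KT.ns_erf hε 1
  filter_upwards [eventually_ge_atTop t₀, eventually_ge_atTop (41 ^ 20)] with k hk hk2
  -- natural exponents
  have nat : ∀ (d : ℕ) (r : ℤ), |r| ≤ 4 ^ ⌊(k : ℝ) ^ (13 / 20 : ℝ)⌋₊ → ns k ((d : ℤ), r) ≤ 4 / 3 * (d : ℝ) / √k + ε := by
    intro d r hr
    obtain ⟨z, hz1, hz2⟩ := Pool.Agent.J4H39.root20 k
    have hz : 40 ≤ z := by
      by_contra hcon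
      push Not at hcon
      have h1 : (z + 1) ^ 20 ≤ 41 ^ 20 := Nat.pow_le_pow_left (by omega) 20
      exact absurd (hz2.trans_le (h1.trans hk2)) (lt_irrefl _)
    have hk0 : 0 < k := lt_of_lt_of_le (by norm_num) hk2
    have hr14 : |r| ≤ 4 ^ (1 * z ^ 14) := hr.trans (pow_le_pow_right₀ (by norm_num) (fl13 hz2 hz))
    have hq := sq12 hz2 hz
    have h4 : Erf ((d : ℝ) / √ k) ≤ 4 / 3 * ((d : ℝ) / √ k) := by
      have h0 : 0 ≤ (d : ℝ) / √ k := div_nonneg (Nat.cast_nonneg d) (Real.sqrt_nonneg _)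
      exact (Pool.Agent.J4H26.CC.Erf_up h0).trans (mul_le_mul_of_nonneg_right pi_const h0)
    have e : 4 / 3 * (d : ℝ) / √k = 4 / 3 * ((d : ℝ) / √ k) := by ring
    rw [e]
    clear hr
    by_cases hd : d ≤ 1 * z ^ 12
    · have hGS : GS (1 * z ^ 12) (1 * z ^ 14) ((d : ℤ), r) := by
        unfold GS
        refine ⟨?_, hr14⟩
        show |(d : ℤ)| ≤ _
        rw [Nat.abs_cast]
        exact Int.ofNat_le.2 hd
      have h3 := (abs_le.1 (ht₀ k hk z hz1 hz2 d r hGS)).2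
      linarith
    · have h1 : ns k ((d : ℤ), r) ≤ 1 := Pool.Agent.J4H39.pb_le_one _ _
      have hzd : z ^ 12 ≤ d := by omega
      clear hr14 hz1 hz2 hd ht₀ hk hk2
      have hsk : 0 < √ (k : ℝ) := Real.sqrt_pos.2 (Nat.cast_pos.2 hk0)
      have h2 : √ (k : ℝ) ≤ d := hq.trans (by exact_mod_cast hzd)
      have h3 : 1 ≤ (d : ℝ) / √k := by rwa [one_le_div hsk]
      linarith
  intro D r hr
  rcases le_total 0 D with h | h
  · obtain ⟨d, rfl⟩ := Int.eq_ofNat_of_zero_le h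
    have h1 := nat d r hr
    have e : |(((d : ℕ) : ℤ) : ℝ)| = (d : ℝ) := by
      rw [Int.cast_natCast]; exact Nat.abs_cast d
    rw [e]
    exact h1
  · obtain ⟨d, hd⟩ := Int.eq_ofNat_of_zero_le (show 0 ≤ -D by omega)
    have hD : D = -(d : ℤ) := by rw [← hd]; ring
    subst hD
    rw [Pool.Agent.J4H39.ns_sw_nat]
    have h1 := nat d (-r) (by rwa [abs_neg])
    have e : |((-((d : ℕ) : ℤ) : ℤ) : ℝ)| = (d : ℝ) := by
      rw [Int.cast_neg, abs_neg, Int.cast_natCast]; exact Nat.abs_cast d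
    rw [e]
    exact h1

theorem t_NSL : S_NSL := by
  intro ε hε
  filter_upwards [ns_up hε] with k h
  intro D r hr
  refine (h D r hr).trans ?_
  have : 4 / 3 * |(D : ℝ)| / √k ≤ 2 * |(D : ℝ)| / √k := by
    apply div_le_div_of_nonneg_right _ (Real.sqrt_nonneg _)
    have := abs_nonneg (D : ℝ)
    linarith
  linarith

theorem t_LIPD : S_LIPD := by
  intro K ε hε
  filter_upwards [ns_up (show 0 < ε / (6 * (K + 1)) by positivity), eventually_ge_atTop 1] with L h hL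
  intro F hF κ X _ hX D D'
  have hX1 : 1 ≤ X := le_trans (one_le_pow₀ (by norm_num)) hX
  have hX0 : 0 < X := by linarith
  have hL0 : (0 : ℝ) < L := by exact_mod_cast hL
  have hsL : 0 < √ (L : ℝ) := Real.sqrt_pos.2 hL0
  have hpt : ∀ i, ∑ n ∈ Finset.Ico ⌈κ * X⌉ ⌈κ * X + X⌉, |F i (3 ^ D i * n + 0) - F i (3 ^ D' i * n + 0)| ≤
      (8 * |(D i : ℝ) - D' i| / √L + ε / (K + 1)) * X := by
    intro i
    have gen : ∀ a d : ℕ, 6 * (4 / 3 * (d : ℝ) / √L + ε / (6 * (K + 1))) * X = (8 * (d : ℝ) / √L + ε / (K + 1)) * X := by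
      intro a d
      field_simp
      ring
    rcases le_total (D i) (D' i) with hle | hle
    · obtain ⟨d, hd⟩ := Nat.exists_eq_add_of_le hle
      have h1 := h (d : ℤ) (0 - 3 ^ d * 0) (by simp)
      have e : |(((d : ℕ) : ℤ) : ℝ)| = (d : ℝ) := by rw [Int.cast_natCast]; exact Nat.abs_cast d
      rw [e] at h1
      have h2 := one_close (κ := κ) (hF i) hX1 hX (D := D i) h1
      have e2 : |(D i : ℝ) - D' i| = d := by
        rw [hd, abs_sub_comm]; push_cast; rw [add_sub_cancel_left]; exact Nat.abs_cast d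
      rw [e2, ← gen 0 d, hd]
      refine le_trans (le_of_eq ?_) h2
      apply sum_congr rfl
      intro n _
      exact abs_sub_comm _ _
    · obtain ⟨d, hd⟩ := Nat.exists_eq_add_of_le hle
      have h1 := h (d : ℤ) (0 - 3 ^ d * 0) (by simp)
      have e : |(((d : ℕ) : ℤ) : ℝ)| = (d : ℝ) := by rw [Int.cast_natCast]; exact Nat.abs_cast d
      rw [e] at h1
      have h2 := one_close (κ := κ) (hF i) hX1 hX (D := D' i) h1
      have e2 : |(D i : ℝ) - D' i| = d := by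
        rw [hd]; push_cast; rw [add_sub_cancel_left]; exact Nat.abs_cast d
      rw [e2, ← gen 0 d, hd]
      exact h2
  unfold ccK
  rw [max_eq_left hX1, ← sub_div, ← sum_sub_distrib, abs_div, abs_of_pos hX0, div_le_iff₀ hX0]
  refine (abs_sum_le_sum_abs _ _).trans ?_
  refine (sum_le_sum fun n _ => prodK_diff hF (fun i => 3 ^ D' i * n + 0) (fun i => 3 ^ D i * n + 0)).trans ?_
  rw [sum_comm]
  refine (sum_le_sum fun i _ => hpt i).trans ?_
  rw [← sum_mul, sum_add_distrib, sum_const, card_univ, Fintype.card_fin, nsmul_eq_mul]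
  apply mul_le_mul_of_nonneg_right _ hX0.le
  have h3 : ∑ i, 8 * |(D i : ℝ) - D' i| / √L = 8 * (∑ i, |(D i : ℝ) - D' i|) / √L := by
    rw [mul_sum, sum_div]
  have h4 : (K : ℝ) * (ε / (K + 1)) ≤ ε := by
    have e : (K : ℝ) * (ε / (K + 1)) = ε * (K / (K + 1)) := by ring
    rw [e]
    have h1 : (K : ℝ) / (K + 1) ≤ 1 := by
      rw [div_le_one (by positivity)]; linarith
    nlinarith
  rw [h3]
  linarith

end Pool.Agent.J4H39.KP
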