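import Mathlib
import Pool.Agent.J4H26.KP.Lm
import Pool.Agent.J4H39.KP.F1

set_option autoImplicit false

/-! Project KP (N4): the law of the pattern is continuous in the start; projections of coalescing walks. -/

namespace Pool.Agent.J4H39.KP

open Finset Filter Real
open Pool.Agent.J4H26.AF (moves moves_pos)
open Pool.Agent.J4H26.KT (cw cw_succ cw_zero mpos isE_cw cw_mono cw_add cw_sum cw_const cw_smul cw_abs)
open Pool.Agent.J4H26.KP (mR mZ)

variable {K L : ℕ}

theorem two_zero (a : Fin 2) : a + a = 0 := by revert a; decide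

/-- the moves of some of the walks extend to all walks -/
theorem ext_move (z : Fin K → ℤ) (f : Fin L → Fin K) {q : Fin L → Fin 2} (hq : q ∈ moves (fun l => z (f l))) :
    ∃ e ∈ moves z, ∀ l, e (f l) = q l := by
  classical
  unfold moves at hq
  rw [mem_filter] at hq
  refine ⟨fun i => if h : ∃ l, z (f l) = z i then q h.choose else 0, ?_, ?_⟩
  · unfold moves
    rw [mem_filter]
    refine ⟨mem_univ _, fun i j hij => ?_⟩
    by_cases h : ∃ l, z (f l) = z i
    · have h' : ∃ l, z (f l) = z j := by rw [← hij]; exact h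
      simp only [dif_pos h, dif_pos h']
      apply hq.2
      show z (f h.choose) = z (f h'.choose)
      rw [h.choose_spec, h'.choose_spec, hij]
    · have h' : ¬ ∃ l, z (f l) = z j := by rw [← hij]; exact h
      simp only [dif_neg h, dif_neg h']
  · intro l
    have h : ∃ l', z (f l') = z (f l) := ⟨l, rfl⟩
    simp only [dif_pos h]
    exact hq.2 _ _ h.choose_spec

theorem add_move {z : Fin K → ℤ} {p e : Fin K → Fin 2} (hp : p ∈ moves z) (he : e ∈ moves z) :
    (fun i => p i + e i) ∈ moves z := by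
  unfold moves at hp he ⊢
  rw [mem_filter] at hp he ⊢
  refine ⟨mem_univ _, fun i j hij => ?_⟩
  simp only
  rw [hp.2 i j hij, he.2 i j hij]

theorem fib (z : Fin K → ℤ) (f : Fin L → Fin K) {q : Fin L → Fin 2} (hq : q ∈ moves (fun l => z (f l))) :
    #((moves z).filter (fun p => (fun l => p (f l)) = q)) = #((moves z).filter (fun p => (fun l => p (f l)) = fun _ => 0)) := by
  obtain ⟨e, he, heq⟩ := ext_move z f hq
  apply card_bij' (fun p _ => fun i => p i + e i) (fun p _ => fun i => p i + e i)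
  · intro p hp
    rw [mem_filter] at hp ⊢
    refine ⟨add_move hp.1 he, ?_⟩
    funext l
    have h1 := congrFun hp.2 l
    simp only at h1 ⊢
    rw [h1, heq, two_zero]
  · intro p hp
    rw [mem_filter] at hp ⊢
    refine ⟨add_move hp.1 he, ?_⟩
    funext l
    have h1 := congrFun hp.2 l
    simp only at h1 ⊢
    rw [h1, heq, zero_add]
  · intro p _
    funext i
    simp only
    rw [add_assoc, two_zero, add_zero]
  · intro p _
    funext i
    simp only
    rw [add_assoc, two_zero, add_zero]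

theorem avg_proj (z : Fin K → ℤ) (f : Fin L → Fin K) (G : (Fin L → Fin 2) → ℝ) :
    (∑ p ∈ moves z, G (fun l => p (f l))) / #(moves z) = (∑ q ∈ moves (fun l => z (f l)), G q) / #(moves (fun l => z (f l))) := by
  obtain ⟨c, hc⟩ : ∃ c, c = #((moves z).filter (fun p => (fun l => p (f l)) = fun _ => 0)) := ⟨_, rfl⟩
  have hmaps : ∀ p ∈ moves z, (fun l => p (f l)) ∈ moves (fun l => z (f l)) := by
    intro p hp
    unfold moves at hp ⊢
    rw [mem_filter] at hp ⊢
    exact ⟨mem_univ _, fun i j hij => hp.2 _ _ hij⟩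
  have h1 : ∀ G' : (Fin L → Fin 2) → ℝ, ∑ p ∈ moves z, G' (fun l => p (f l)) = c * ∑ q ∈ moves (fun l => z (f l)), G' q := by
    intro G'
    rw [← sum_fiberwise_of_maps_to hmaps, mul_sum]
    apply sum_congr rfl
    intro q hq
    rw [sum_congr rfl (g := fun _ => G' q) (fun p hp => by rw [(mem_filter.1 hp).2]), sum_const, fib z f hq, nsmul_eq_mul, hc]
  have h2 := h1 (fun _ => 1)
  rw [sum_const, sum_const, nsmul_eq_mul, nsmul_eq_mul, mul_one, mul_one] at h2
  rw [h1, h2]
  have hz := mpos z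
  have hz' := mpos (fun l => z (f l))
  have hc0 : (c : ℝ) ≠ 0 := by
    intro h
    rw [h, zero_mul] at h2
    exact hz.ne' h2
  field_simp

/-- the projection of coalescing walks -/
theorem cw_proj (f : Fin L → Fin K) (g : (Fin L → ℤ) → ℝ) (s : ℕ) : ∀ z : Fin K → ℤ,
    cw (fun u => g (fun l => u (f l))) s z = cw g s (fun l => z (f l)) := by
  induction s with
  | zero => intro z; rfl
  | succ s ih =>
    intro z
    rw [cw_succ, cw_succ, sum_congr rfl (fun p _ => ih _)]
    exact avg_proj z f (fun q => cw g s (fun l => z (f l) + (q l : ℕ)))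

theorem mZ_abs {m : Finset (Fin K) → ℝ} (hm : ∀ B, |m B| ≤ 1) (u : Fin K → ℤ) : |mZ m u| ≤ 1 := by
  unfold mZ mR
  rw [abs_prod]
  exact prod_le_one (fun _ _ => abs_nonneg _) (fun _ _ => hm _)

/-- coupling of two starts -/
theorem cw_couple {g : (Fin K → ℤ) → ℝ} (hg : ∀ u, |g u| ≤ 1) {t : ℕ} (ht : 1 ≤ t) (z z' : Fin K → ℤ) :
    |cw g t z - cw g t z'| ≤ 6 * (∑ i, |(z i : ℝ) - z' i|) / √ (t : ℝ) := by
  have e1 : cw g t z = cw (fun u : Fin (K + K) → ℤ => g (fun l => u (Fin.castAdd K l))) t (Fin.append z z') := by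
    rw [cw_proj (Fin.castAdd K) g t (Fin.append z z')]
    congr 1
    funext l
    rw [Fin.append_left]
  have e2 : cw g t z' = cw (fun u : Fin (K + K) → ℤ => g (fun l => u (Fin.natAdd K l))) t (Fin.append z z') := by
    rw [cw_proj (Fin.natAdd K) g t (Fin.append z z')]
    congr 1
    funext l
    rw [Fin.append_right]
  have e3 : cw g t z - cw g t z' = cw (fun u : Fin (K + K) → ℤ => g (fun l => u (Fin.castAdd K l)) + -1 * g (fun l => u (Fin.natAdd K l))) t
      (Fin.append z z') := by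
    rw [cw_add, cw_smul, ← e1, ← e2]
    ring
  rw [e3]
  refine (cw_abs (g := fun u : Fin (K + K) → ℤ => 2 * ∑ i : Fin K, if u (Fin.castAdd K i) = u (Fin.natAdd K i) then (0 : ℝ) else 1) ?_ _ _).trans ?_
  · intro u
    by_cases h : ∀ i : Fin K, u (Fin.castAdd K i) = u (Fin.natAdd K i)
    · have h1 : (fun l => u (Fin.castAdd K l)) = (fun l => u (Fin.natAdd K l)) := funext h
      rw [h1, show g (fun l => u (Fin.natAdd K l)) + -1 * g (fun l => u (Fin.natAdd K l)) = 0 by ring, abs_zero]
      exact mul_nonneg (by norm_num) (sum_nonneg fun i _ => by split_ifs <;> norm_num)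
    · push Not at h
      obtain ⟨i, hi⟩ := h
      have h1 : (1 : ℝ) ≤ ∑ i : Fin K, if u (Fin.castAdd K i) = u (Fin.natAdd K i) then (0 : ℝ) else 1 := by
        refine le_trans ?_ (single_le_sum (f := fun i : Fin K => if u (Fin.castAdd K i) = u (Fin.natAdd K i) then (0 : ℝ) else 1)
          (fun i _ => by split_ifs <;> norm_num) (mem_univ i))
        rw [if_neg hi]
      have h2 := abs_le.1 (hg (fun l => u (Fin.castAdd K l)))
      have h3 := abs_le.1 (hg (fun l => u (Fin.natAdd K l)))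
      rw [abs_le]
      constructor <;> linarith [h2.1, h2.2, h3.1, h3.2]
  · rw [cw_smul, cw_sum]
    have h1 : ∀ i ∈ (univ : Finset (Fin K)), cw (fun u : Fin (K + K) → ℤ => if u (Fin.castAdd K i) = u (Fin.natAdd K i) then (0 : ℝ) else 1) t
        (Fin.append z z') ≤ 3 * |(z i : ℝ) - z' i| / √ (t : ℝ) := by
      intro i _
      refine (cw_ne_le _ _ ht _).trans (le_of_eq ?_)
      rw [Fin.append_left, Fin.append_right]
      push_cast
      rw [abs_sub_comm]
    have h2 := sum_le_sum h1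
    have e4 : ∑ i : Fin K, 3 * |(z i : ℝ) - z' i| / √ (t : ℝ) = 3 * (∑ i, |(z i : ℝ) - z' i|) / √ (t : ℝ) := by
      rw [mul_sum, sum_div]
    rw [e4] at h2
    calc _ ≤ 2 * (3 * (∑ i, |(z i : ℝ) - z' i|) / √ (t : ℝ)) := mul_le_mul_of_nonneg_left h2 (by norm_num)
      _ = _ := by ring

/-- (N4) -/
theorem t_NEAR : Pool.Agent.J4H26.KP.S_NEAR := by
  intro K ε hε
  refine ⟨ε / (6 * K + 1), by positivity, 1, fun t ht m hm z z' hz => ?_⟩
  refine (cw_couple (mZ_abs hm) ht z z').trans ?_
  have ht0 : 0 < √ (t : ℝ) := Real.sqrt_pos.2 (by exact_mod_cast ht)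
  have h1 : ∑ i, |(z i : ℝ) - z' i| ≤ K * (ε / (6 * K + 1) * √ (t : ℝ)) := by
    refine (sum_le_sum fun i _ => hz i).trans (le_of_eq ?_)
    rw [sum_const, card_univ, Fintype.card_fin, nsmul_eq_mul]
  rw [div_le_iff₀ ht0]
  have h2 : 6 * (K * (ε / (6 * K + 1))) ≤ ε := by
    rw [show 6 * ((K : ℝ) * (ε / (6 * K + 1))) = ε * (6 * K / (6 * K + 1)) by ring]
    apply mul_le_of_le_one_right hε.le
    rw [div_le_one (by positivity)]
    linarith
  nlinarith

/-- (N3) -/
theorem t_CLIP : Pool.Agent.J4H26.KP.S_CLIP := by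
  intro K
  refine ⟨6, by norm_num, fun t ht y z z' => ?_⟩
  apply cw_couple _ ht
  intro u
  unfold Pool.Agent.J4H26.KT.ind
  split_ifs <;> norm_num

end Pool.Agent.J4H39.KP
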