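import Mathlib
import Pool.Agent.R630.WD.Basic
import Pool.Agent.H723R2.LSWDens
import Pool.Agent.J4H26.PC.Main

/-!
# Invariant sets of positive density for the entire `3x+1` function

The integers in wandering domains (if there is one), the integers in no wandering domain, and the integers of which the
orbit meets that of a given integer are invariant sets of positive density (from the starting files).
-/

set_option autoImplicit false

open Filter Topology Set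

namespace Pool.Agent.J4H39.KP.Fd

open Pool.Agent.H384R2.Fatou Pool.Agent.H723R2.LSW

theorem mer_set (a : ℤ) : {n : ℤ | ∃ i j : ℕ, f₀^[i] (n : ℂ) = f₀^[j] (a : ℂ)} = {n : ℤ | Mer n a} := by
  ext n
  constructor
  · rintro ⟨i, j, h⟩
    refine ⟨i, j, ?_⟩
    rw [f₀_iter, f₀_iter] at h
    exact_mod_cast h
  · rintro ⟨i, j, h⟩
    refine ⟨i, j, ?_⟩
    rw [f₀_iter, f₀_iter, h]

theorem mer_T (x : ℤ) : Mer x (Pool.Agent.H723R2.LSW.T x) := ⟨1, 0, rfl⟩

theorem inv_mer (s a : ℤ) : Pool.Agent.J4H26.PC.InvS s {n : ℤ | ∃ i j : ℕ, f₀^[i] (n : ℂ) = f₀^[j] (a : ℂ)} := by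
  rw [mer_set]
  intro n _
  constructor
  · intro h
    exact (mer_T n).symm.trans h
  · intro h
    exact (mer_T n).trans h

theorem inv_compl {s : ℤ} {R : Set ℤ} (h : Pool.Agent.J4H26.PC.InvS s R) : Pool.Agent.J4H26.PC.InvS s {n : ℤ | n ∉ R} :=
  fun n hn => not_congr (h n hn)

theorem cyc {s : ℤ} (hs : s = 1 ∨ s = -1) : f₀^[2] ((s : ℤ) : ℂ) = (s : ℤ) := by
  rw [f₀_iter]
  have h : Pool.Agent.H723R2.LSW.T^[2] s = s := by
    rw [Function.iterate_succ_apply', Function.iterate_one]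
    rcases hs with rfl | rfl
    · have h1 : Pool.Agent.H723R2.LSW.T 1 = 2 := by decide
      have h2 : Pool.Agent.H723R2.LSW.T 2 = 1 := by decide
      rw [h1, h2]
    · have h1 : Pool.Agent.H723R2.LSW.T (-1) = -1 := by decide
      rw [h1, h1]
  rw [h]

theorem count_mono {s : ℤ} {A B : Set ℤ} (h : A ⊆ B) (N : ℕ) :
    ({n : ℤ | 0 < s * n ∧ s * n ≤ N ∧ n ∈ A}.ncard : ℝ) ≤ ({n : ℤ | 0 < s * n ∧ s * n ≤ N ∧ n ∈ B}.ncard : ℝ) := by
  have hfin : {n : ℤ | 0 < s * n ∧ s * n ≤ N ∧ n ∈ B}.Finite := by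
    apply Set.Finite.subset (Set.finite_Icc (-(N : ℤ)) N)
    rintro n ⟨h1, h2, -⟩
    have hs0 : s ≠ 0 := by
      rintro rfl
      simp at h1
    have h3 : |s * n| ≤ N := by rw [abs_of_pos h1]; exact h2
    rw [abs_mul] at h3
    have h4 : 1 ≤ |s| := Int.one_le_abs hs0
    have h5 : |n| ≤ |s| * |n| := by nlinarith [abs_nonneg n]
    exact ⟨by have := neg_abs_le n; omega, by have := le_abs_self n; omega⟩
  have hsub : {n : ℤ | 0 < s * n ∧ s * n ≤ N ∧ n ∈ A} ⊆ {n : ℤ | 0 < s * n ∧ s * n ≤ N ∧ n ∈ B} :=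
    fun n hn => ⟨hn.1, hn.2.1, h hn.2.2⟩
  have := Set.ncard_le_ncard hsub hfin
  exact_mod_cast this

theorem dens_mono {s : ℤ} {A B : Set ℤ} (h : A ⊆ B) {a b : ℝ} (ha : HasDensity s A a) (hb : HasDensity s B b) : a ≤ b :=
  le_of_tendsto_of_tendsto' ha hb fun N => by
    apply div_le_div_of_nonneg_right (count_mono h N) (Nat.cast_nonneg N)

theorem dens_mer {s : ℤ} (hs : s = 1 ∨ s = -1) {a : ℤ} (ha : 0 < s * a) :
    ∃ δ : ℝ, 0 < δ ∧ HasDensity s {n : ℤ | ∃ i j : ℕ, f₀^[i] (n : ℂ) = f₀^[j] (a : ℂ)} δ := by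
  obtain ⟨w, β, _, _, h3, _⟩ := main hs
  exact ⟨β a, h3 a ha⟩

theorem dens_wander {s : ℤ} (hs : s = 1 ∨ s = -1) {n : ℤ} (hn : 0 < s * n)
    (h : IsWanderingDomain f₀ (FatouComponent f₀ n)) :
    ∃ δ : ℝ, 0 < δ ∧ HasDensity s {n : ℤ | IsWanderingDomain f₀ (FatouComponent f₀ n)} δ := by
  obtain ⟨w, β, h1, h2, _⟩ := main hs
  have h0 : 0 ≤ w := ge_of_tendsto' h1 fun N => by positivity
  refine ⟨w, lt_of_le_of_ne h0 fun e => ?_, h1⟩
  exact h2.1 e.symm n hn h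

theorem dens_tame {s : ℤ} (hs : s = 1 ∨ s = -1) {δ : ℝ}
    (h : HasDensity s {n : ℤ | ¬ IsWanderingDomain f₀ (FatouComponent f₀ n)} δ) : 0 < δ := by
  obtain ⟨w, β, _, _, h3, h4, _⟩ := main hs
  have hss : 0 < s * s := by rcases hs with rfl | rfl <;> norm_num
  have h5 := (h4 s 2 hss (by norm_num) (cyc hs)).2
  have h6 : 0 < β s := (h3 s hss).1
  have h7 := dens_mono (fun n hn => hn.2.1) h5 h
  linarith

end Pool.Agent.J4H39.KP.Fd
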