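import Mathlib
import Pool.Agent.J4H26.KP.Q
import Pool.Agent.J4H39.KP.S4

set_option autoImplicit false

/-! Project KP, the way with an auxiliary base: exact statements. -/

namespace Pool.Agent.J4H39.KP

open Finset Filter Real
open Pool.Agent.J4H39 (T od ex pb ns rn stP stK GK th0)
open Pool.Agent.J4H26.PC (Iv S_STM)
open Pool.Agent.J4H26.KT (iw cw)
open Pool.Agent.J4H26.KP (mR mZ mP CentK MnQ S_LAWS S_GMU S_MOM)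

/-- (PT) the pattern of coalescing walks hardly changes in the last steps -/
def S_PT : Prop := ∀ (K : ℕ) (δ ε : ℝ), 0 < δ → 0 < ε → ∃ α : ℝ, 0 < α ∧ ∀ᶠ t : ℕ in atTop, ∀ k d : ℕ, δ * t ≤ k →
  (d : ℝ) ≤ α * t → ∀ m : Finset (Fin K) → ℝ, (∀ B, |m B| ≤ 1) → ∀ z : Fin K → ℤ, |cw (mZ m) (k + d) z - cw (mZ m) k z| ≤ ε

/-- (W) window averages at the points `3 ^ D i * x` and independent walks -/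
def S_W : Prop := ∀ (K : ℕ) (ε : ℝ), 0 < ε → ∀ᶠ w : ℕ in atTop, ∀ F : Fin K → ℤ → ℝ, (∀ i, Iv (F i)) →
  ∀ κ X a : ℝ, |κ| ≤ 1 → 0 < X → ∀ (t o₀ : ℕ) (D : Fin K → ℕ), w ^ 52 ≤ t → t ≤ 100 * w ^ 88 →
  (2 : ℝ) ^ (th0 * t + (w : ℝ) ^ 53) ≤ a → a ≤ (2 : ℝ) ^ (th0 * t + (w : ℝ) ^ 54) → (2 : ℝ) ^ (w ^ 80) ≤ 3 ^ o₀ * X / 2 ^ t →
  (∀ i, 2 * o₀ + w ^ 46 ≤ 2 * D i + t ∧ 2 * D i + t ≤ 2 * o₀ + w ^ 48) →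
  |WK F κ a X D - iw (fun u => ck F κ (3 ^ o₀ * X / 2 ^ t) (fun i => ((D i : ℤ) + u i - o₀, 0))) t (fun _ => 0)| ≤ ε

/-- (FAR) forms far from each other are not correlated -/
def S_FAR : Prop := ∀ ψ : ℝ → ℝ, Tendsto ψ atTop (nhds 0) → ∀ (K : ℕ) (ε : ℝ), 0 < ε → ∃ G : ℝ, 0 < G ∧ ∀ᶠ L : ℕ in atTop,
  ∀ (F : Fin K → ℤ → ℝ) (κ : ℝ) (μ : Fin K → ℝ), (∀ i, MnQ ψ (F i) κ (μ i)) → ∀ X : ℝ, 0 < X → (L : ℝ) ≤ logb 2 X →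
  logb 2 X ≤ 4 * L → ∀ s : Fin K → ℤ × ℤ,
  (∀ i, (L : ℝ) ^ (21 / 40 : ℝ) ≤ (s i).1 ∧ ((s i).1 : ℝ) ≤ (L : ℝ) ^ (27 / 50 : ℝ) ∧ |(s i).2| ≤ 4 ^ ⌊(L : ℝ) ^ (17 / 25 : ℝ)⌋₊) →
  (∀ i j, i ≠ j → G * √L ≤ |((s i).1 : ℝ) - (s j).1|) → |ck F κ X s - ∏ i, μ i| ≤ ε

/-- (FARP) the same with groups of equal labels -/
def S_FARP : Prop := ∀ ψ : ℝ → ℝ, Tendsto ψ atTop (nhds 0) → ∀ (K : ℕ) (ε : ℝ), 0 < ε → ∃ G : ℝ, 0 < G ∧ ∀ᶠ L : ℕ in atTop,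
  ∀ (F : Fin K → ℤ → ℝ) (κ : ℝ) (m : Finset (Fin K) → ℝ), CentK ψ F κ m → ∀ X : ℝ, 0 < X → (L : ℝ) ≤ logb 2 X →
  logb 2 X ≤ 4 * L → ∀ s : Fin K → ℤ × ℤ,
  (∀ i, (L : ℝ) ^ (21 / 40 : ℝ) ≤ (s i).1 ∧ ((s i).1 : ℝ) ≤ (L : ℝ) ^ (27 / 50 : ℝ) ∧ |(s i).2| ≤ 4 ^ ⌊(L : ℝ) ^ (17 / 25 : ℝ)⌋₊) →
  (∀ i j, s i = s j ∨ G * √L ≤ |((s i).1 : ℝ) - (s j).1|) → |ck F κ X s - mP m s| ≤ ε

/-- (CL) grouping of the equal labels -/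
def S_CL : Prop := S_FAR → S_FARP

end Pool.Agent.J4H39.KP
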