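import Mathlib
import Pool.Agent.J4H39.KP.TL
import Pool.Agent.J4H18.KP.Supw
import Pool.Agent.J4H30.KP.Inf

set_option autoImplicit false

/-! Project KP, part TL, job T3: few clusters are unlikely. -/

namespace Pool.Agent.J4H39.KP

open Finset Filter Real
open Pool.Agent.J4H39 (U U_nonneg U_le_one)
open Pool.Agent.J4H26.KT (iw cw isE_cw isE_iw)
open Pool.Agent.J4H26.KP (le1 ge1)

/-- the pairs -/
theorem pairs_up (hNA : S_NA) {K m k : ℕ} {δ c : ℝ} (h0 : 0 ≤ δ) (h1 : δ ≤ 1) (p q : Fin m → Fin K) (z : Fin K → ℤ)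
    (hpq : ∀ j, z (p j) ≤ z (q j)) (hqp : ∀ i j, i < j → z (q i) ≤ z (p j))
    (hU : ∀ j, c ≤ U (2 * k) (2 * (z (q j) - z (p j)))) :
    cw (fun u : Fin K → ℤ => δ ^ nc u) k z ≤ (1 - (1 - δ) * c) ^ m := by
  classical
  have e1 : cw (fun u : Fin K → ℤ => δ ^ nc u) k z ≤ cw (fun u => ∏ j, if u (p j) = u (q j) then (1 : ℝ) else δ) k z := by
    apply Pool.Agent.J4H18.KP.cw_ord
    intro u hu
    have h2 : (∏ j, if u (p j) = u (q j) then (1 : ℝ) else δ) = δ ^ #(univ.filter (fun j => ¬ u (p j) = u (q j))) := by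
      rw [prod_ite, prod_const_one, one_mul, prod_const]
    rw [h2]
    apply pow_le_pow_of_le_one h0 h1
    unfold nc
    have h3 : #(univ.filter (fun j => ¬ u (p j) = u (q j))) = #((univ.filter (fun j => ¬ u (p j) = u (q j))).image (fun j => u (q j))) := by
      rw [card_image_of_injOn]
      intro i hi j hj hij
      rw [mem_coe, mem_filter] at hi hj
      simp only at hij
      by_contra hne
      rcases lt_or_gt_of_ne hne with h | h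
      · have f1 := hu _ _ (hqp i j h)
        have f2 := hu _ _ (hpq j)
        exact hj.2 (by omega)
      · have f1 := hu _ _ (hqp j i h)
        have f2 := hu _ _ (hpq i)
        exact hi.2 (by omega)
    rw [h3]
    apply card_le_card
    intro x hx
    obtain ⟨j, _, rfl⟩ := mem_image.1 hx
    exact mem_image_of_mem u (mem_univ _)
  refine e1.trans ((hNA K m k δ h0 h1 p q z hpq hqp).trans ?_)
  have h4 : ∏ j, (1 - (1 - δ) * U (2 * k) (2 * (z (q j) - z (p j)))) ≤ ∏ _j : Fin m, (1 - (1 - δ) * c) := by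
    apply Finset.prod_le_prod
    · intro j _
      have f1 := U_le_one (2 * k) (2 * (z (q j) - z (p j)))
      have f0 := U_nonneg (2 * k) (2 * (z (q j) - z (p j)))
      nlinarith
    · intro j _
      have := mul_le_mul_of_nonneg_left (hU j) (by linarith : 0 ≤ 1 - δ)
      linarith
  rw [prod_const, card_univ, Fintype.card_fin] at h4
  exact h4

/-- the indicator of an interval -/
theorem win_iff (a b v : ℤ) : ge1 a v * le1 b v = if a ≤ v ∧ v ≤ b then (1 : ℝ) else 0 := by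
  unfold ge1 le1
  by_cases h1 : a ≤ v
  · by_cases h2 : v ≤ b
    · rw [if_pos h1, if_pos h2, if_pos ⟨h1, h2⟩, mul_one]
    · rw [if_pos h1, if_neg h2, mul_zero, if_neg (fun hh => h2 hh.2)]
  · rw [if_neg h1, zero_mul, if_neg (fun hh => h1 hh.1)]

/-- the walks from `z` -/
theorem start_up (hNA : S_NA) {K m k s : ℕ} {δ c : ℝ} (h0 : 0 ≤ δ) (h1 : δ ≤ 1)
    (hU : ∀ d : ℤ, √ (s : ℝ) ≤ |(d : ℝ)| → c ≤ U (2 * k) (2 * d)) (hc0 : 0 ≤ c) (hc1 : c ≤ 1) (z : Fin K → ℤ) :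
    cw (fun u : Fin K → ℤ => δ ^ nc u) k z ≤ (1 - (1 - δ) * c) ^ m + ∑ j ∈ range (2 * m), ∏ i,
      (1 - ge1 ⌈(s : ℝ) / 2 + 2 * j * √s⌉ (z i) * le1 ⌊(s : ℝ) / 2 + (2 * j + 1) * √s⌋ (z i)) := by
  have hA : 0 ≤ (1 - (1 - δ) * c) ^ m := by
    apply pow_nonneg
    nlinarith
  have hf : ∀ j i, 0 ≤ 1 - ge1 ⌈(s : ℝ) / 2 + 2 * (j : ℕ) * √s⌉ (z i) * le1 ⌊(s : ℝ) / 2 + (2 * (j : ℕ) + 1) * √s⌋ (z i) := by
    intro j i
    rw [win_iff]
    split_ifs <;> norm_num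
  have hB : ∀ j ∈ range (2 * m), 0 ≤ ∏ i,
      (1 - ge1 ⌈(s : ℝ) / 2 + 2 * j * √s⌉ (z i) * le1 ⌊(s : ℝ) / 2 + (2 * j + 1) * √s⌋ (z i)) := by
    intro j _
    exact prod_nonneg fun i _ => hf j i
  by_cases hall : ∀ j ∈ range (2 * m), ∃ i, ⌈(s : ℝ) / 2 + 2 * j * √s⌉ ≤ z i ∧ z i ≤ ⌊(s : ℝ) / 2 + (2 * j + 1) * √s⌋
  · choose f hf1 hf2 using hall
    have hss : 0 ≤ √ (s : ℝ) := Real.sqrt_nonneg _
    have g1 : ∀ j (hj : j ∈ range (2 * m)), (s : ℝ) / 2 + 2 * j * √s ≤ z (f j hj) := fun j hj => Int.ceil_le.1 (hf1 j hj)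
    have g2 : ∀ j (hj : j ∈ range (2 * m)), (z (f j hj) : ℝ) ≤ (s : ℝ) / 2 + (2 * j + 1) * √s := fun j hj => Int.le_floor.1 (hf2 j hj)
    have m1 : ∀ j : Fin m, 2 * (j : ℕ) ∈ range (2 * m) := fun j => mem_range.2 (by have := j.isLt; omega)
    have m2 : ∀ j : Fin m, 2 * (j : ℕ) + 1 ∈ range (2 * m) := fun j => mem_range.2 (by have := j.isLt; omega)
    have hgap : ∀ j : Fin m, √ (s : ℝ) ≤ (z (f _ (m2 j)) : ℝ) - z (f _ (m1 j)) := by
      intro j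
      have e1 := g1 _ (m2 j)
      have e2 := g2 _ (m1 j)
      push_cast at e1 e2
      nlinarith
    refine (pairs_up hNA h0 h1 (fun j => f _ (m1 j)) (fun j => f _ (m2 j)) z ?_ ?_ ?_ (c := c)).trans ?_
    · intro j
      have := hgap j
      have h3 : (z (f _ (m1 j)) : ℝ) ≤ z (f _ (m2 j)) := by linarith
      exact_mod_cast h3
    · intro i j hij
      have e1 := g1 _ (m1 j)
      have e2 := g2 _ (m2 i)
      have hij2 : ((i : ℕ) : ℝ) + 1 ≤ ((j : ℕ) : ℝ) := by exact_mod_cast hij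
      push_cast at e1 e2
      have h3 : (z (f _ (m2 i)) : ℝ) ≤ z (f _ (m1 j)) := by
        have h5 : ((i : ℕ) + 1 : ℝ) * √ (s : ℝ) ≤ (j : ℕ) * √ (s : ℝ) := mul_le_mul_of_nonneg_right hij2 hss
        nlinarith
      exact_mod_cast h3
    · intro j
      apply hU
      push_cast
      exact (hgap j).trans (le_abs_self _)
    · have := sum_nonneg hB
      linarith
  · push Not at hall
    obtain ⟨j, hj, hj2⟩ := hall
    have h2 : cw (fun u : Fin K → ℤ => δ ^ nc u) k z ≤ 1 := by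
      have := (isE_cw k z).mono (fun u : Fin K → ℤ => δ ^ nc u) (fun _ => 1) (fun u => pow_le_one₀ h0 h1)
      rwa [(isE_cw k z).const] at this
    have h3 : (1 : ℝ) ≤ ∑ j ∈ range (2 * m), ∏ i,
        (1 - ge1 ⌈(s : ℝ) / 2 + 2 * j * √s⌉ (z i) * le1 ⌊(s : ℝ) / 2 + (2 * j + 1) * √s⌋ (z i)) := by
      refine le_trans ?_ (single_le_sum hB hj)
      apply le_of_eq
      symm
      apply prod_eq_one
      intro i _
      rw [win_iff, if_neg, sub_zero]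
      rintro ⟨f1, f2⟩
      exact absurd (hj2 i f1) (not_lt.2 f2)
    linarith

theorem asym {κ c₀ : ℝ} (hκ : 0 < κ) (hc : 0 < c₀) : ∃ x₀ : ℝ, 0 < x₀ ∧ ∀ x : ℝ, x₀ ≤ x → ∀ m : ℕ, x / 16 - 1 ≤ (m : ℝ) →
    (m : ℝ) ≤ x / 16 → exp (-κ * m) + 2 * m * exp (-(c₀ * exp (3 / 4 * x ^ 2))) ≤ exp (-(κ / 32) * x) := by
  refine ⟨32 + 32 / κ + (κ / 32 + 1) / (3 / 4 * c₀), by positivity, fun x hx m hm1 hm2 => ?_⟩
  have p1 : 0 < 32 / κ := by positivity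
  have p2 : 0 < (κ / 32 + 1) / (3 / 4 * c₀) := by positivity
  have hx0 : 0 < x := by linarith
  have he : exp (-1) ≤ 1 / 2 := by
    have := Real.add_one_le_exp (1 : ℝ)
    rw [Real.exp_neg, ← one_div]
    apply one_div_le_one_div_of_le (by norm_num)
    linarith
  have h1 : exp (-κ * m) ≤ exp (-(κ / 32) * x) * (1 / 2) := by
    refine le_trans ?_ (mul_le_mul_of_nonneg_left he (Real.exp_pos _).le)
    rw [← Real.exp_add]
    apply Real.exp_le_exp.2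
    have e1 : κ * (x / 16 - 1) ≤ κ * m := mul_le_mul_of_nonneg_left hm1 hκ.le
    have e2 : 32 + 32 / κ ≤ x := by linarith
    have e3 : κ * (32 + 32 / κ) ≤ κ * x := mul_le_mul_of_nonneg_left e2 hκ.le
    have e4 : κ * (32 + 32 / κ) = 32 * κ + 32 := by field_simp
    nlinarith
  have h2 : 2 * (m : ℝ) * exp (-(c₀ * exp (3 / 4 * x ^ 2))) ≤ exp (-(κ / 32) * x) * (1 / 2) := by
    have e1 : 3 / 4 * x ^ 2 ≤ exp (3 / 4 * x ^ 2) := by
      have := Real.add_one_le_exp (3 / 4 * x ^ 2)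
      linarith
    have e2 : (κ / 32 + 1) / (3 / 4 * c₀) ≤ x := by linarith
    rw [div_le_iff₀ (by positivity)] at e2
    have e3 : -(c₀ * exp (3 / 4 * x ^ 2)) ≤ -(κ / 32) * x + -x := by
      have f1 : c₀ * (3 / 4 * x ^ 2) ≤ c₀ * exp (3 / 4 * x ^ 2) := mul_le_mul_of_nonneg_left e1 hc.le
      have f2 : (κ / 32 + 1) * x ≤ x * (3 / 4 * c₀) * x := mul_le_mul_of_nonneg_right e2 hx0.le
      nlinarith
    have e4 : 2 * (m : ℝ) ≤ x := by linarith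
    have e5 : x * exp (-x) ≤ 1 / 2 := by
      have f1 := Real.add_one_le_exp (x - 1)
      have f2 : x * exp (-x) ≤ exp (x - 1) * exp (-x) := mul_le_mul_of_nonneg_right (by linarith) (Real.exp_pos _).le
      rw [← Real.exp_add, show x - 1 + -x = -1 by ring] at f2
      linarith
    calc 2 * (m : ℝ) * exp (-(c₀ * exp (3 / 4 * x ^ 2))) ≤ x * exp (-(κ / 32) * x + -x) :=
          mul_le_mul e4 (Real.exp_le_exp.2 e3) (Real.exp_pos _).le hx0.le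
      _ = exp (-(κ / 32) * x) * (x * exp (-x)) := by rw [Real.exp_add]; ring
      _ ≤ _ := mul_le_mul_of_nonneg_left e5 (Real.exp_pos _).le
  linarith

/-- (T3) -/
theorem t_TUP : Pool.Agent.J4H26.KP.S_UL → S_NA → S_GMS → S_TUP := by
  intro hUL hNA hG δ ρ ρ' h0 h1 hρ' hρ
  obtain ⟨c₁', hc₁', hev⟩ := hUL (√ ρ') (Real.sqrt_pos.2 hρ')
  obtain ⟨c₁, hc₁0, hc₁1, hc₁le⟩ : ∃ c₁ : ℝ, 0 < c₁ ∧ c₁ ≤ 1 ∧ c₁ ≤ c₁' := ⟨min c₁' 1, lt_min hc₁' one_pos, min_le_right _ _, min_le_left _ _⟩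
  obtain ⟨c₀, hc₀, hG⟩ := hG
  have hκ : 0 < (1 - δ) * c₁ := mul_pos (by linarith) hc₁0
  obtain ⟨x₀, hx₀, hasy⟩ := asym hκ hc₀
  refine ⟨(1 - δ) * c₁ / 32, by positivity, ⌈exp (x₀ ^ 2)⌉₊ + 1, fun K hK => ?_⟩
  have hK1 : exp (x₀ ^ 2) ≤ K := by
    have h2 : ((⌈exp (x₀ ^ 2)⌉₊ + 1 : ℕ) : ℝ) ≤ K := by exact_mod_cast hK
    have h3 := Nat.le_ceil (exp (x₀ ^ 2))
    push_cast at h2
    linarith
  have hKpos : (0 : ℝ) < K := lt_of_lt_of_le (Real.exp_pos _) hK1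
  obtain ⟨x, hx⟩ : ∃ x, x = √ (log K) := ⟨_, rfl⟩
  have hlog : x₀ ^ 2 ≤ log K := (Real.le_log_iff_exp_le hKpos).2 hK1
  have hxx : x₀ ≤ x := by
    rw [hx]
    exact Real.le_sqrt_of_sq_le hlog
  have hx2 : x ^ 2 = log K := by
    rw [hx, Real.sq_sqrt]
    nlinarith [sq_nonneg x₀]
  have hKx : (K : ℝ) = exp (x ^ 2) := by rw [hx2, Real.exp_log hKpos]
  obtain ⟨m, hm⟩ : ∃ m, m = ⌊x / 16⌋₊ := ⟨_, rfl⟩
  have hx0 : 0 < x := lt_of_lt_of_le hx₀ hxx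
  have hm1 : x / 16 - 1 ≤ (m : ℝ) := by
    have := Nat.lt_floor_add_one (x / 16)
    rw [← hm] at this
    linarith
  have hm2 : (m : ℝ) ≤ x / 16 := by
    rw [hm]
    exact Nat.floor_le (by positivity)
  have hmass : ∀ᶠ s : ℕ in atTop, ∀ j ∈ range (2 * m), c₀ * exp (-16 * (j : ℝ) ^ 2) ≤
      Pool.Agent.J4H26.KT.sw (fun u : ℤ => ge1 ⌈(s : ℝ) / 2 + 2 * j * √s⌉ u * le1 ⌊(s : ℝ) / 2 + (2 * j + 1) * √s⌋ u) s 0 :=
    (eventually_all_finset _).2 fun j _ => hG j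
  obtain ⟨s₀, hs₀⟩ := eventually_atTop.1 hmass
  filter_upwards [hev, eventually_ge_atTop ⌈(s₀ : ℝ) / ρ'⌉₊] with k hk hk2 s hs1 hs2
  have hs3 : s₀ ≤ s := by
    have h2 : (s₀ : ℝ) / ρ' ≤ k := (Nat.le_ceil _).trans (by exact_mod_cast hk2)
    rw [div_le_iff₀ hρ'] at h2
    have h3 : (s₀ : ℝ) ≤ s := by linarith
    exact_mod_cast h3
  have hms := hs₀ s hs3
  have hU : ∀ d : ℤ, √ (s : ℝ) ≤ |(d : ℝ)| → c₁ ≤ U (2 * k) (2 * d) := by
    intro d hd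
    refine hc₁le.trans (hk d (le_trans ?_ hd))
    rw [← Real.sqrt_mul hρ'.le]
    exact Real.sqrt_le_sqrt hs1
  refine ((isE_iw s (fun _ => 0)).mono _ _ (fun z => start_up hNA (m := m) (k := k) (s := s) h0 h1.le hU hc₁0.le hc₁1 z)).trans ?_
  rw [(isE_iw s (fun _ => (0 : ℤ))).add, (isE_iw s (fun _ => (0 : ℤ))).const, (isE_iw s (fun _ => (0 : ℤ))).sum]
  rw [← hx]
  refine le_trans ?_ (hasy x hxx m hm1 hm2)
  apply add_le_add
  · have h2 : 1 - (1 - δ) * c₁ ≤ exp (-((1 - δ) * c₁)) := by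
      have := Real.add_one_le_exp (-((1 - δ) * c₁))
      linarith
    have h3 : 0 ≤ 1 - (1 - δ) * c₁ := by nlinarith
    refine (pow_le_pow_left₀ h3 h2 m).trans (le_of_eq ?_)
    rw [← Real.exp_nat_mul]
    congr 1
    ring
  · have h2 : ∀ j ∈ range (2 * m), iw (fun z : Fin K → ℤ => ∏ i,
        (1 - ge1 ⌈(s : ℝ) / 2 + 2 * j * √s⌉ (z i) * le1 ⌊(s : ℝ) / 2 + (2 * j + 1) * √s⌋ (z i))) s (fun _ => 0) ≤
        exp (-(c₀ * exp (3 / 4 * x ^ 2))) := by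
      intro j hj
      rw [Pool.Agent.J4H30.KP.Inf.iw_prod (fun v => 1 - ge1 ⌈(s : ℝ) / 2 + 2 * j * √s⌉ v * le1 ⌊(s : ℝ) / 2 + (2 * j + 1) * √s⌋ v) s]
      obtain ⟨M, hM⟩ : ∃ M, M = Pool.Agent.J4H26.KT.sw (fun u : ℤ => ge1 ⌈(s : ℝ) / 2 + 2 * j * √s⌉ u * le1 ⌊(s : ℝ) / 2 + (2 * j + 1) * √s⌋ u) s 0 := ⟨_, rfl⟩
      have e1 : Pool.Agent.J4H26.KT.sw (fun v : ℤ => 1 - ge1 ⌈(s : ℝ) / 2 + 2 * j * √s⌉ v * le1 ⌊(s : ℝ) / 2 + (2 * j + 1) * √s⌋ v) s 0 = 1 - M := by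
        have e2 := Pool.Agent.J4H26.KT.sw_add (fun _ => 1) (fun v : ℤ => -1 * (ge1 ⌈(s : ℝ) / 2 + 2 * j * √s⌉ v * le1 ⌊(s : ℝ) / 2 + (2 * j + 1) * √s⌋ v)) s 0
        rw [Pool.Agent.J4H19.KP.sw_const, Pool.Agent.J4H26.KT.sw_smul, ← hM] at e2
        rw [show (1 : ℝ) - M = 1 + -1 * M by ring, ← e2]
        congr 1
        funext v
        ring
      rw [e1]
      have hMc : c₀ * exp (-16 * (j : ℝ) ^ 2) ≤ M := by
        rw [hM]
        exact hms j hj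
      have hj2 : (j : ℝ) ≤ x / 8 := by
        have f1 := mem_range.1 hj
        have f2 : (j : ℝ) ≤ ((2 * m : ℕ) : ℝ) := by exact_mod_cast f1.le
        push_cast at f2
        linarith
      have hM1 : M ≤ 1 := by
        rw [hM]
        refine (Pool.Agent.J4H26.KT.sw_mono (g' := fun _ => 1) (fun v => ?_) s 0).trans (le_of_eq (Pool.Agent.J4H19.KP.sw_const 1 s 0))
        rw [win_iff]
        split_ifs <;> norm_num
      have h3 : 1 - M ≤ exp (-M) := by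
        have := Real.add_one_le_exp (-M)
        linarith
      refine (pow_le_pow_left₀ (by linarith) h3 K).trans ?_
      rw [← Real.exp_nat_mul]
      apply Real.exp_le_exp.2
      have h4 : -(x ^ 2 / 4) ≤ -16 * (j : ℝ) ^ 2 := by
        have : (0 : ℝ) ≤ j := by positivity
        nlinarith
      have h5 : c₀ * exp (-(x ^ 2 / 4)) ≤ M := le_trans (mul_le_mul_of_nonneg_left (Real.exp_le_exp.2 h4) hc₀.le) hMc
      have h6 : c₀ * exp (3 / 4 * x ^ 2) = K * (c₀ * exp (-(x ^ 2 / 4))) := by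
        rw [hKx, show 3 / 4 * x ^ 2 = x ^ 2 + -(x ^ 2 / 4) by ring, Real.exp_add]
        ring
      rw [h6]
      have h7 : (K : ℝ) * (c₀ * exp (-(x ^ 2 / 4))) ≤ K * M := mul_le_mul_of_nonneg_left h5 hKpos.le
      linarith
    refine (sum_le_sum h2).trans (le_of_eq ?_)
    rw [sum_const, card_range, nsmul_eq_mul]
    push_cast
    ring

end Pool.Agent.J4H39.KP
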