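import Mathlib
import Pool.Agent.J4H26.KP.Sup2
import Pool.Agent.J4H39.KP.TL
import Pool.Agent.J4H39.KP.F3

set_option autoImplicit false

/-! Project KP, part TL: the tails of the law of the share, windows. -/

namespace Pool.Agent.J4H39.KP

open Finset Filter Real
open Pool.Agent.J4H39 (th0 tN)
open Pool.Agent.J4H26.PC (InvS ct)
open Pool.Agent.J4H26.KT (cw iw isE_cw isE_iw)
open Pool.Agent.J4H26.KP (mR mZ mom sh sh_mem ms ms_pow dens_const S_FIN times2 nc_le_card)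

/-- the number of the windows in which the share of `R` is at least `1 - ε` -/
noncomputable def full (θ ε : ℝ) (s : ℤ) (R : Set ℤ) (N : ℕ) : ℕ :=
  {m : ℕ | (1 ≤ m ∧ m ≤ N) ∧ 1 - ε ≤ sh R ⌊(N : ℝ) ^ θ⌋₊ (s * m)}.ncard

open Classical in
theorem full_eq (θ ε : ℝ) (s : ℤ) (R : Set ℤ) (N : ℕ) :
    full θ ε s R N = #((Finset.Icc 1 N).filter (fun n : ℕ => 1 - ε ≤ sh R ⌊(N : ℝ) ^ θ⌋₊ (s * (n : ℕ)))) := by
  unfold full
  have hset : {m : ℕ | (1 ≤ m ∧ m ≤ N) ∧ 1 - ε ≤ sh R ⌊(N : ℝ) ^ θ⌋₊ (s * m)} =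
      (((Finset.Icc 1 N).filter (fun n : ℕ => 1 - ε ≤ sh R ⌊(N : ℝ) ^ θ⌋₊ (s * (n : ℕ))) : Finset ℕ) : Set ℕ) := by
    ext m
    rw [Finset.mem_coe, Finset.mem_filter, Finset.mem_Icc]
    rfl
  rw [hset, Set.ncard_coe_finset]

/-- the bounds for the powers -/
theorem num_up {c₁ : ℝ} (hc : 0 < c₁) (K₀ : ℕ) : ∃ ε₀ : ℝ, 0 < ε₀ ∧ ∀ ε : ℝ, 0 < ε → ε ≤ ε₀ →
    ε ≤ 1 / 2 ∧ ∃ K : ℕ, K₀ ≤ K + 1 ∧ ((K : ℝ) + 1) * ε ≤ 1 / 2 ∧
      4 * exp (-c₁ * √ (log ((K : ℝ) + 1))) ≤ exp (-(c₁ / 4) * √ (log (1 / ε))) := by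
  obtain ⟨Λ, hΛ⟩ : ∃ Λ : ℝ, Λ = (4 / c₁ * log 4) ^ 2 + log (2 * K₀ + 4) + log 4 + log 4 + 1 := ⟨_, rfl⟩
  have l4 : 0 < log 4 := Real.log_pos (by norm_num)
  have lK : 0 ≤ log (2 * K₀ + 4) := Real.log_nonneg (by
    have : (0 : ℝ) ≤ K₀ := by positivity
    linarith)
  refine ⟨exp (-Λ), Real.exp_pos _, fun ε hε hε0 => ?_⟩
  obtain ⟨L, hL⟩ : ∃ L : ℝ, L = log (1 / ε) := ⟨_, rfl⟩
  have hε1 : 0 < 1 / ε := by positivity
  have hexp : exp L = 1 / ε := by rw [hL, Real.exp_log hε1]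
  have hLL : Λ ≤ L := by
    rw [hL, Real.le_log_iff_exp_le hε1, le_div_iff₀ hε]
    calc exp Λ * ε ≤ exp Λ * exp (-Λ) := mul_le_mul_of_nonneg_left hε0 (Real.exp_pos _).le
      _ = 1 := by rw [← Real.exp_add, add_neg_cancel, Real.exp_zero]
  have hsq : 0 ≤ (4 / c₁ * log 4) ^ 2 := sq_nonneg _
  have h4 : 4 ≤ 1 / ε := by
    rw [← hexp, ← Real.exp_log (show (0 : ℝ) < 4 by norm_num)]
    apply Real.exp_le_exp.2
    linarith
  have hεh : ε ≤ 1 / 4 := by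
    rw [le_div_iff₀ hε] at h4
    linarith
  have hK4 : 2 * (K₀ : ℝ) + 4 ≤ 1 / ε := by
    have hpos : (0 : ℝ) < 2 * K₀ + 4 := by positivity
    rw [← hexp, ← Real.exp_log hpos]
    apply Real.exp_le_exp.2
    linarith
  refine ⟨by linarith, ?_⟩
  obtain ⟨M, hM⟩ : ∃ M : ℕ, M = ⌊1 / (2 * ε)⌋₊ := ⟨_, rfl⟩
  have e1 : 1 / (2 * ε) = (1 / ε) / 2 := by field_simp
  have hMu : (M : ℝ) ≤ (1 / ε) / 2 := by
    rw [hM, ← e1]
    exact Nat.floor_le (by positivity)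
  have hMl : (1 / ε) / 2 < (M : ℝ) + 1 := by
    rw [hM, ← e1]
    exact Nat.lt_floor_add_one _
  have hMK : (K₀ : ℝ) + 1 < M := by linarith
  have hM1 : 1 ≤ M := by
    have : (0 : ℝ) < M := by
      have : (0 : ℝ) ≤ K₀ := by positivity
      linarith
    exact_mod_cast this
  have hMc : ((M - 1 : ℕ) : ℝ) + 1 = M := by
    have : M - 1 + 1 = M := by omega
    exact_mod_cast this
  refine ⟨M - 1, ?_, ?_, ?_⟩
  · have : (K₀ : ℝ) ≤ M := by linarith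
    have h2 : K₀ ≤ M := by exact_mod_cast this
    omega
  · rw [hMc]
    calc (M : ℝ) * ε ≤ (1 / ε) / 2 * ε := mul_le_mul_of_nonneg_right hMu hε.le
      _ = 1 / 2 := by field_simp
  · rw [hMc, ← hL]
    have hq : (1 / ε) / 4 ≤ M := by linarith
    have h5 : L / 4 ≤ log M := by
      have f1 : exp (L / 4) ≤ M := by
        refine le_trans ?_ hq
        rw [← hexp]
        have f2 : (4 : ℝ) ≤ exp (3 * L / 4) := by
          have f5 : log 4 ≤ 3 * L / 4 := by linarith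
          have f6 := Real.exp_le_exp.2 f5
          rwa [Real.exp_log (by norm_num : (0 : ℝ) < 4)] at f6
        have f3 : exp L = exp (L / 4) * exp (3 * L / 4) := by rw [← Real.exp_add]; congr 1; ring
        rw [f3, le_div_iff₀ (by norm_num)]
        exact mul_le_mul_of_nonneg_left f2 (Real.exp_pos _).le
      have hMpos : (0 : ℝ) < M := by exact_mod_cast hM1
      rwa [Real.le_log_iff_exp_le hMpos]
    have h6 : √ L / 2 ≤ √ (log M) := by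
      apply Real.le_sqrt_of_sq_le
      have hL0 : 0 ≤ L := by linarith
      rw [div_pow, Real.sq_sqrt hL0]
      linarith
    have h7 : 4 / c₁ * log 4 ≤ √ L := by
      apply Real.le_sqrt_of_sq_le
      linarith
    have h8 : 4 * exp (-c₁ * √ (log M)) = exp (log 4 + -c₁ * √ (log M)) := by
      rw [Real.exp_add, Real.exp_log (by norm_num)]
    rw [h8]
    apply Real.exp_le_exp.2
    have h9 : c₁ * (√ L / 2) ≤ c₁ * √ (log M) := mul_le_mul_of_nonneg_left h6 hc.le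
    have h10 : c₁ / 4 * (4 / c₁ * log 4) ≤ c₁ / 4 * √ L := mul_le_mul_of_nonneg_left h7 (by positivity)
    have h11 : c₁ / 4 * (4 / c₁ * log 4) = log 4 := by field_simp
    nlinarith

/-- **Nearly full windows are rare.** -/
theorem t_UPT (hF : S_FIN) (hT : S_TUP) {θ δ₀ : ℝ} (hθ : 0 < θ) (hθ1 : θ < 1) (hδ₀ : 0 < δ₀) :
    ∃ c : ℝ, 0 < c ∧ ∃ ε₀ : ℝ, 0 < ε₀ ∧ ∀ ε : ℝ, 0 < ε → ε ≤ ε₀ → ∀ᶠ N : ℕ in atTop, ∀ s : ℤ, (s = 1 ∨ s = -1) →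
      ∀ R : Set ℤ, InvS s R → ∀ δ : ℝ, Tendsto (fun N : ℕ => ct s R N / N) atTop (nhds δ) → δ ≤ 1 - δ₀ →
      (full θ ε s R N : ℝ) ≤ exp (-c * √ (log (1 / ε))) * N := by
  classical
  obtain ⟨δ₁, hδ₁⟩ : ∃ δ₁ : ℝ, δ₁ = max (1 - δ₀) 0 := ⟨_, rfl⟩
  have hδ₁0 : 0 ≤ δ₁ := by rw [hδ₁]; exact le_max_right _ _
  have hδ₁1 : δ₁ < 1 := by rw [hδ₁]; exact max_lt (by linarith) one_pos
  have hδ₁2 : 1 - δ₀ ≤ δ₁ := by rw [hδ₁]; exact le_max_left _ _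
  have hθ' : 0 < 1 - θ := by linarith
  obtain ⟨c₁, hc₁, K₀, hK⟩ := hT δ₁ (2 * θ / (1 - θ)) (θ / (2 * (1 - θ))) hδ₁0 hδ₁1 (by positivity) (by positivity)
  obtain ⟨ht1, ht2⟩ := times hθ hθ1
  obtain ⟨ε₀, hε₀, hnum⟩ := num_up hc₁ K₀
  refine ⟨c₁ / 4, by positivity, ε₀, hε₀, fun ε hε hεε => ?_⟩
  obtain ⟨hε2, K, hKK, hKε, hfin⟩ := hnum ε hε hεε
  obtain ⟨η, hη⟩ : ∃ η : ℝ, η = exp (-c₁ * √ (log ((K : ℝ) + 1))) := ⟨_, rfl⟩
  have hη0 : 0 < η := by rw [hη]; exact Real.exp_pos _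
  have hKc : (((K + 1 : ℕ)) : ℝ) = (K : ℝ) + 1 := by push_cast; ring
  filter_upwards [hF K θ hθ hθ1 1 (Or.inl rfl) η hη0, hF K θ hθ hθ1 (-1) (Or.inr rfl) η hη0,
    ht1.eventually (hK (K + 1) hKK), ht2, times2 hθ hθ1, eventually_ge_atTop 1] with N g1 g1' g3 g4 g5 hN
  intro s hs R hR δ hδ hδ2
  have g : ∀ (R : Fin (K + 1) → Set ℤ) (δ : Finset (Fin (K + 1)) → ℝ), (∀ i, InvS s (R i)) →
      (∀ B, B.Nonempty → Tendsto (fun N : ℕ => ct s {n | ∀ i ∈ B, n ∈ R i} N / N) atTop (nhds (δ B))) →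
      |mom s R N ⌊(N : ℝ) ^ θ⌋₊ - iw (cw (mZ δ) (tN (1 / th0) N - tN (θ / th0) N)) (tN (θ / th0) N) (fun _ => 0)| ≤ η := by
    rcases hs with rfl | rfl
    · exact g1
    · exact g1'
  have hδ0 : 0 ≤ δ := by
    apply ge_of_tendsto hδ
    filter_upwards with M
    unfold ct
    positivity
  have b1 := g (fun _ => R) (fun _ => δ) (fun _ => hR) (fun B hB => dens_const hδ B hB)
  rw [full_eq]
  obtain ⟨H, hH⟩ : ∃ H : ℕ, H = ⌊(N : ℝ) ^ θ⌋₊ := ⟨_, rfl⟩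
  rw [← hH] at b1 ⊢
  have b3 := g3 (tN (θ / th0) N) g5 g4.2
  rw [hKc, ← hη] at b3
  have b4 : iw (cw (mZ (fun _ : Finset (Fin (K + 1)) => δ)) (tN (1 / th0) N - tN (θ / th0) N)) (tN (θ / th0) N) (fun _ => 0) ≤
      iw (cw (fun u : Fin (K + 1) → ℤ => δ₁ ^ nc u) (tN (1 / th0) N - tN (θ / th0) N)) (tN (θ / th0) N) (fun _ => 0) := by
    apply (isE_iw _ _).mono
    intro z
    apply (isE_cw _ _).mono
    intro u
    unfold mZ mR
    rw [prod_const]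
    refine (pow_le_pow_left₀ hδ0 (hδ2.trans hδ₁2) _).trans ?_
    apply pow_le_pow_of_le_one hδ₁0 hδ₁1.le
    apply nc_le_card
    intro i
    exact ⟨_, mem_image_of_mem _ (mem_univ i), fun j => by simp⟩
  have hN0 : (0 : ℝ) < N := by exact_mod_cast hN
  have b5 : mom (K := K + 1) s (fun _ => R) N H ≤ 2 * η := by
    have c1 := (abs_le.1 b1).2
    linarith
  rw [← ms_pow] at b5
  unfold ms at b5
  rw [div_le_iff₀ hN0] at b5
  have hp : (1 : ℝ) / 2 ≤ (1 - ε) ^ (K + 1) := by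
    have h1 := one_add_mul_le_pow (show (-2 : ℝ) ≤ -ε by linarith) (K + 1)
    have e : 1 + -ε = 1 - ε := by ring
    rw [e, hKc] at h1
    have h2 : ((K : ℝ) + 1) * -ε = -(((K : ℝ) + 1) * ε) := by ring
    rw [h2] at h1
    linarith
  have b6 : ∑ n ∈ Finset.Icc 1 N, (if 1 - ε ≤ sh R H (s * (n : ℕ)) then (1 : ℝ) / 2 else 0) ≤
      ∑ n ∈ Finset.Icc 1 N, sh R H (s * (n : ℕ)) ^ (K + 1) := by
    apply sum_le_sum
    intro n _
    split_ifs with hh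
    · exact hp.trans (pow_le_pow_left₀ (by linarith) hh _)
    · exact pow_nonneg (sh_mem R H _).1 _
  rw [← sum_filter, sum_const, nsmul_eq_mul] at b6
  have h12 : 4 * η * N ≤ exp (-(c₁ / 4) * √ (log (1 / ε))) * N := mul_le_mul_of_nonneg_right (by rw [hη]; exact hfin) hN0.le
  linarith

theorem num_lo {C₁ : ℝ} (hC : 0 < C₁) : ∃ ε₀ : ℝ, 0 < ε₀ ∧ ∀ ε : ℝ, 0 < ε → ε ≤ ε₀ →
    ε < 1 ∧ ∃ K : ℕ, 2 ≤ K + 1 ∧
      exp (-(2 * C₁ + 1) * √ (log (1 / ε))) + exp (-(2 * C₁ + 1) * √ (log (1 / ε))) + (1 - ε) ^ (K + 1) ≤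
        exp (-C₁ * √ (log ((K : ℝ) + 1))) := by
  obtain ⟨Λ, hΛ⟩ : ∃ Λ : ℝ, Λ = (log 4) ^ 2 + (4 * C₁ + 4) ^ 2 + 3 := ⟨_, rfl⟩
  have l4 : 0 < log 4 := Real.log_pos (by norm_num)
  have l4' : log 4 ≤ 3 := by
    have := Real.log_le_sub_one_of_pos (show (0 : ℝ) < 4 by norm_num)
    linarith
  refine ⟨exp (-Λ), Real.exp_pos _, fun ε hε hε0 => ?_⟩
  obtain ⟨L, hL⟩ : ∃ L : ℝ, L = log (1 / ε) := ⟨_, rfl⟩
  have hε1 : 0 < 1 / ε := by positivity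
  have hexp : exp L = 1 / ε := by rw [hL, Real.exp_log hε1]
  have hLL : Λ ≤ L := by
    rw [hL, Real.le_log_iff_exp_le hε1, le_div_iff₀ hε]
    calc exp Λ * ε ≤ exp Λ * exp (-Λ) := mul_le_mul_of_nonneg_left hε0 (Real.exp_pos _).le
      _ = 1 := by rw [← Real.exp_add, add_neg_cancel, Real.exp_zero]
  have hL3 : 3 ≤ L := by nlinarith [sq_nonneg (log 4), sq_nonneg (4 * C₁ + 4)]
  have hL0 : 0 ≤ L := by linarith
  obtain ⟨x, hx⟩ : ∃ x, x = √ L := ⟨_, rfl⟩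
  have hx2 : x ^ 2 = L := by rw [hx, Real.sq_sqrt hL0]
  have hx0 : 0 ≤ x := by rw [hx]; exact Real.sqrt_nonneg _
  have hx4 : log 4 ≤ x := by
    rw [hx]; apply Real.le_sqrt_of_sq_le; nlinarith [sq_nonneg (4 * C₁ + 4)]
  have hxC : 4 * C₁ + 4 ≤ x := by
    rw [hx]; apply Real.le_sqrt_of_sq_le; nlinarith [sq_nonneg (log 4)]
  have h1e : 1 < 1 / ε := by
    rw [← hexp]
    exact Real.one_lt_exp_iff.2 (by linarith)
  have hεlt : ε < 1 := by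
    rw [lt_div_iff₀ hε] at h1e
    linarith
  refine ⟨hεlt, ?_⟩
  obtain ⟨M, hM⟩ : ∃ M : ℕ, M = ⌈(1 / ε) ^ 2⌉₊ := ⟨_, rfl⟩
  have hMl : (1 / ε) ^ 2 ≤ M := by rw [hM]; exact Nat.le_ceil _
  have hMu : (M : ℝ) < (1 / ε) ^ 2 + 1 := by rw [hM]; exact Nat.ceil_lt_add_one (by positivity)
  have hM2 : (1 : ℝ) < M := by nlinarith
  have hM2' : 2 ≤ M := by
    have : 1 < M := by exact_mod_cast hM2
    omega
  have hMc : ((M - 1 : ℕ) : ℝ) + 1 = M := by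
    have : M - 1 + 1 = M := by omega
    exact_mod_cast this
  refine ⟨M - 1, by omega, ?_⟩
  rw [hMc, show M - 1 + 1 = M by omega, ← hL, ← hx]
  have hMpos : (0 : ℝ) < M := by linarith
  have hlogM : log M ≤ 4 * L := by
    have f1 : (M : ℝ) ≤ exp (4 * L) := by
      have f2 : exp (4 * L) = (1 / ε) ^ 4 := by
        rw [← hexp, ← Real.exp_nat_mul]
        norm_num
      rw [f2]
      have f5 : (4 : ℝ) ≤ 1 / ε := by
        rw [← hexp]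
        have := Real.add_one_le_exp L
        linarith
      have f3 : (16 : ℝ) ≤ (1 / ε) ^ 2 := by nlinarith
      have f6 : (1 / ε) ^ 4 = (1 / ε) ^ 2 * (1 / ε) ^ 2 := by ring
      rw [f6]
      nlinarith
    have := Real.log_le_log hMpos f1
    rwa [Real.log_exp] at this
  have hsM : √ (log M) ≤ 2 * x := by
    rw [hx]
    calc √ (log M) ≤ √ (4 * L) := Real.sqrt_le_sqrt hlogM
      _ = 2 * √ L := by
        rw [Real.sqrt_mul (by norm_num), show (4 : ℝ) = 2 ^ 2 by norm_num, Real.sqrt_sq (by norm_num)]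
  have h1 : exp (-(2 * C₁) * x) ≤ exp (-C₁ * √ (log M)) := by
    apply Real.exp_le_exp.2
    nlinarith
  have he4 : exp (-x) ≤ 1 / 4 := by
    have f1 : (4 : ℝ) ≤ exp x := by
      rw [← Real.exp_log (show (0 : ℝ) < 4 by norm_num)]
      exact Real.exp_le_exp.2 hx4
    rw [Real.exp_neg, ← one_div]
    exact one_div_le_one_div_of_le (by norm_num) f1
  have h2 : exp (-(2 * C₁ + 1) * x) ≤ exp (-(2 * C₁) * x) * (1 / 4) := by
    rw [show -(2 * C₁ + 1) * x = -(2 * C₁) * x + -x by ring, Real.exp_add]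
    exact mul_le_mul_of_nonneg_left he4 (Real.exp_pos _).le
  have h3 : (1 - ε) ^ M ≤ exp (-(2 * C₁) * x) * (1 / 4) := by
    have f1 : 1 - ε ≤ exp (-ε) := by
      have := Real.add_one_le_exp (-ε)
      linarith
    have f2 : (1 - ε) ^ M ≤ exp (-(ε * M)) := by
      refine (pow_le_pow_left₀ (by linarith) f1 M).trans (le_of_eq ?_)
      rw [← Real.exp_nat_mul]
      congr 1
      ring
    refine f2.trans ?_
    refine le_trans ?_ (mul_le_mul_of_nonneg_left he4 (Real.exp_pos _).le)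
    rw [← Real.exp_add]
    apply Real.exp_le_exp.2
    have f3 : 1 / ε ≤ ε * M := by
      calc 1 / ε = ε * (1 / ε) ^ 2 := by field_simp
        _ ≤ ε * M := mul_le_mul_of_nonneg_left hMl hε.le
    have f4 : L + 1 ≤ 1 / ε := by
      rw [← hexp]
      exact Real.add_one_le_exp L
    nlinarith
  have hpos := Real.exp_pos (-(2 * C₁) * x)
  linarith

/-- **Nearly full windows are not too rare.** -/
theorem t_LOT (hF : S_FIN) (hT : S_TLO) {θ δ₀ : ℝ} (hθ : 0 < θ) (hθ1 : θ < 1) (hδ₀ : 0 < δ₀) :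
    ∃ C : ℝ, 0 < C ∧ ∃ ε₀ : ℝ, 0 < ε₀ ∧ ∀ ε : ℝ, 0 < ε → ε ≤ ε₀ → ∀ᶠ N : ℕ in atTop, ∀ s : ℤ, (s = 1 ∨ s = -1) →
      ∀ R : Set ℤ, InvS s R → ∀ δ : ℝ, Tendsto (fun N : ℕ => ct s R N / N) atTop (nhds δ) → δ₀ ≤ δ →
      exp (-C * √ (log (1 / ε))) * N ≤ (full θ ε s R N : ℝ) := by
  classical
  obtain ⟨δ₁, hδ₁⟩ : ∃ δ₁ : ℝ, δ₁ = min δ₀ 1 := ⟨_, rfl⟩
  have hδ₁0 : 0 < δ₁ := by rw [hδ₁]; exact lt_min hδ₀ one_pos
  have hδ₁1 : δ₁ ≤ 1 := by rw [hδ₁]; exact min_le_right _ _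
  have hδ₁2 : δ₁ ≤ δ₀ := by rw [hδ₁]; exact min_le_left _ _
  have hθ' : 0 < 1 - θ := by linarith
  obtain ⟨C₁, hC₁, hK⟩ := hT δ₁ (2 * θ / (1 - θ)) hδ₁0 hδ₁1 (by positivity)
  obtain ⟨ht1, ht2⟩ := times hθ hθ1
  obtain ⟨ε₀, hε₀, hnum⟩ := num_lo hC₁
  refine ⟨2 * C₁ + 1, by positivity, ε₀, hε₀, fun ε hε hεε => ?_⟩
  obtain ⟨hε2, K, hKK, hfin⟩ := hnum ε hε hεε
  obtain ⟨η, hη⟩ : ∃ η : ℝ, η = exp (-(2 * C₁ + 1) * √ (log (1 / ε))) := ⟨_, rfl⟩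
  have hη0 : 0 < η := by rw [hη]; exact Real.exp_pos _
  have hKc : (((K + 1 : ℕ)) : ℝ) = (K : ℝ) + 1 := by push_cast; ring
  filter_upwards [hF K θ hθ hθ1 1 (Or.inl rfl) η hη0, hF K θ hθ hθ1 (-1) (Or.inr rfl) η hη0,
    ht1.eventually (hK (K + 1) hKK), ht2, eventually_ge_atTop 1] with N g1 g1' g3 g4 hN
  intro s hs R hR δ hδ hδ2
  have g : ∀ (R : Fin (K + 1) → Set ℤ) (δ : Finset (Fin (K + 1)) → ℝ), (∀ i, InvS s (R i)) →
      (∀ B, B.Nonempty → Tendsto (fun N : ℕ => ct s {n | ∀ i ∈ B, n ∈ R i} N / N) atTop (nhds (δ B))) →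
      |mom s R N ⌊(N : ℝ) ^ θ⌋₊ - iw (cw (mZ δ) (tN (1 / th0) N - tN (θ / th0) N)) (tN (θ / th0) N) (fun _ => 0)| ≤ η := by
    rcases hs with rfl | rfl
    · exact g1
    · exact g1'
  have b1 := g (fun _ => R) (fun _ => δ) (fun _ => hR) (fun B hB => dens_const hδ B hB)
  rw [full_eq]
  obtain ⟨H, hH⟩ : ∃ H : ℕ, H = ⌊(N : ℝ) ^ θ⌋₊ := ⟨_, rfl⟩
  rw [← hH] at b1 ⊢
  have b3 := g3 (tN (θ / th0) N) g4.1 g4.2
  rw [hKc] at b3
  have b4 : iw (cw (fun u : Fin (K + 1) → ℤ => δ₁ ^ nc u) (tN (1 / th0) N - tN (θ / th0) N)) (tN (θ / th0) N) (fun _ => 0) ≤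
      iw (cw (mZ (fun _ : Finset (Fin (K + 1)) => δ)) (tN (1 / th0) N - tN (θ / th0) N)) (tN (θ / th0) N) (fun _ => 0) := by
    apply (isE_iw _ _).mono
    intro z
    apply (isE_cw _ _).mono
    intro u
    exact mZ_low hδ₁0.le hδ₁1 (fun B _ => by linarith) u
  have hN0 : (0 : ℝ) < N := by exact_mod_cast hN
  have b5 : η + (1 - ε) ^ (K + 1) ≤ mom (K := K + 1) s (fun _ => R) N H := by
    have c1 := (abs_le.1 b1).1
    rw [← hη] at hfin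
    linarith
  rw [← ms_pow] at b5
  unfold ms at b5
  rw [le_div_iff₀ hN0] at b5
  have b6 : ∑ n ∈ Finset.Icc 1 N, sh R H (s * (n : ℕ)) ^ (K + 1) ≤
      ∑ n ∈ Finset.Icc 1 N, ((if 1 - ε ≤ sh R H (s * (n : ℕ)) then (1 : ℝ) else 0) + (1 - ε) ^ (K + 1)) := by
    apply sum_le_sum
    intro n _
    have h3 : (0 : ℝ) ≤ (1 - ε) ^ (K + 1) := pow_nonneg (by linarith) _
    have h4 := sh_mem R H (s * (n : ℕ))
    by_cases hx : 1 - ε ≤ sh R H (s * (n : ℕ))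
    · rw [if_pos hx]
      have := pow_le_one₀ (n := K + 1) h4.1 h4.2
      linarith
    · rw [if_neg hx, zero_add]
      exact pow_le_pow_left₀ h4.1 (not_le.1 hx).le _
  rw [sum_add_distrib, sum_const, Nat.card_Icc, Nat.add_sub_cancel, nsmul_eq_mul, ← sum_filter, sum_const, nsmul_eq_mul, mul_one] at b6
  rw [← hη]
  have b5' : (η + (1 - ε) ^ (K + 1)) * N ≤ ∑ n ∈ Finset.Icc 1 N, sh R H (s * (n : ℕ)) ^ (K + 1) := b5
  linarith

end Pool.Agent.J4H39.KP
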