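import Mathlib
import Pool.Agent.J4H26.KP.Main
import Pool.Agent.J4H39.KP.T6
import Pool.Agent.J4H39.KP.T3
import Pool.Agent.J4H98.KP.Ul
import Pool.Agent.J4H98.KP.Tlo
import Pool.Agent.J4H18.KP.Gms
import Pool.Agent.J4H55.KP.Na
import Pool.Agent.J4H42.KP.Enc

set_option autoImplicit false

/-! Project KP, part TL: the tails of the law of the share, the theorem. -/

namespace Pool.Agent.J4H39.KP

open Finset Filter Real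
open Pool.Agent.J4H26.PC (InvS ct)
open Pool.Agent.J4H26.KP (sh main_FIN inv_compl dens_compl sh_compl)

theorem k_TUP : S_TUP := t_TUP Pool.Agent.J4H98.KP.t_UL Pool.Agent.J4H55.KP.t_NA Pool.Agent.J4H18.KP.t_GMS

theorem k_TLO : S_TLO := Pool.Agent.J4H98.KP.t_TLO Pool.Agent.J4H42.KP.t_ENC

/-- the number of the windows in which the share of `R` is at most `ε` -/
noncomputable def empt (θ ε : ℝ) (s : ℤ) (R : Set ℤ) (N : ℕ) : ℕ :=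
  {m : ℕ | (1 ≤ m ∧ m ≤ N) ∧ sh R ⌊(N : ℝ) ^ θ⌋₊ (s * m) ≤ ε}.ncard

theorem main_TAIL {θ δ₀ : ℝ} (hθ : 0 < θ) (hθ1 : θ < 1) (hδ₀ : 0 < δ₀) : ∃ c C ε₀ : ℝ, 0 < c ∧ 0 < C ∧ 0 < ε₀ ∧
    ∀ ε : ℝ, 0 < ε → ε ≤ ε₀ → ∀ᶠ N : ℕ in atTop, ∀ s : ℤ, (s = 1 ∨ s = -1) →
      ∀ R : Set ℤ, InvS s R → ∀ δ : ℝ, Tendsto (fun N : ℕ => ct s R N / N) atTop (nhds δ) → δ₀ ≤ δ → δ ≤ 1 - δ₀ →
      (exp (-C * √ (log (1 / ε))) * N ≤ (full θ ε s R N : ℝ) ∧ (full θ ε s R N : ℝ) ≤ exp (-c * √ (log (1 / ε))) * N) ∧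
      (exp (-C * √ (log (1 / ε))) * N ≤ (empt θ ε s R N : ℝ) ∧ (empt θ ε s R N : ℝ) ≤ exp (-c * √ (log (1 / ε))) * N) := by
  obtain ⟨c, hc, ε₁, hε₁, h1⟩ := t_UPT main_FIN k_TUP hθ hθ1 hδ₀
  obtain ⟨C, hC, ε₂, hε₂, h2⟩ := t_LOT main_FIN k_TLO hθ hθ1 hδ₀
  refine ⟨c, C, min ε₁ ε₂, hc, hC, lt_min hε₁ hε₂, fun ε hε hεε => ?_⟩
  filter_upwards [h1 ε hε (hεε.trans (min_le_left _ _)), h2 ε hε (hεε.trans (min_le_right _ _)), eventually_ge_atTop 1]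
    with N g1 g2 hN s hs R hR δ hδ hδ1 hδ2
  have hN1 : (1 : ℝ) ≤ N := by exact_mod_cast hN
  have hH : 1 ≤ ⌊(N : ℝ) ^ θ⌋₊ := Nat.le_floor (by rw [Nat.cast_one]; exact Real.one_le_rpow hN1 hθ.le)
  have e : empt θ ε s R N = full θ ε s Rᶜ N := by
    unfold empt full
    congr 1
    ext m
    simp only [Set.mem_setOf_eq]
    rw [sh_compl R hH]
    constructor
    · rintro ⟨a, b⟩
      exact ⟨a, by linarith⟩
    · rintro ⟨a, b⟩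
      exact ⟨a, by linarith⟩
  rw [e]
  exact ⟨⟨g2 s hs R hR δ hδ hδ1, g1 s hs R hR δ hδ hδ2⟩, g2 s hs Rᶜ (inv_compl hR) (1 - δ) (dens_compl hs hδ) (by linarith),
    g1 s hs Rᶜ (inv_compl hR) (1 - δ) (dens_compl hs hδ) (by linarith)⟩

end Pool.Agent.J4H39.KP
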