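import Mathlib
import Pool.Agent.J4H39.KP.T7

set_option autoImplicit false

/-! Project KP, part TL: the tails of the law of the share, with one-sided hypotheses on the density. -/

namespace Pool.Agent.J4H39.KP

open Finset Filter Real
open Pool.Agent.J4H26.PC (InvS ct)
open Pool.Agent.J4H26.KP (sh main_FIN inv_compl dens_compl sh_compl)

theorem main_TL {θ δ₀ : ℝ} (hθ : 0 < θ) (hθ1 : θ < 1) (hδ₀ : 0 < δ₀) : ∃ c C ε₀ : ℝ, 0 < c ∧ 0 < C ∧ 0 < ε₀ ∧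
    ∀ ε : ℝ, 0 < ε → ε ≤ ε₀ → ∀ᶠ N : ℕ in atTop, ∀ s : ℤ, (s = 1 ∨ s = -1) →
      ∀ R : Set ℤ, InvS s R → ∀ δ : ℝ, Tendsto (fun N : ℕ => ct s R N / N) atTop (nhds δ) →
      (δ₀ ≤ δ → exp (-C * √ (log (1 / ε))) * N ≤ (full θ ε s R N : ℝ) ∧ (empt θ ε s R N : ℝ) ≤ exp (-c * √ (log (1 / ε))) * N) ∧
      (δ ≤ 1 - δ₀ → exp (-C * √ (log (1 / ε))) * N ≤ (empt θ ε s R N : ℝ) ∧ (full θ ε s R N : ℝ) ≤ exp (-c * √ (log (1 / ε))) * N) := by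
  obtain ⟨c, hc, ε₁, hε₁, h1⟩ := t_UPT main_FIN k_TUP hθ hθ1 hδ₀
  obtain ⟨C, hC, ε₂, hε₂, h2⟩ := t_LOT main_FIN k_TLO hθ hθ1 hδ₀
  refine ⟨c, C, min ε₁ ε₂, hc, hC, lt_min hε₁ hε₂, fun ε hε hεε => ?_⟩
  filter_upwards [h1 ε hε (hεε.trans (min_le_left _ _)), h2 ε hε (hεε.trans (min_le_right _ _)), eventually_ge_atTop 1]
    with N g1 g2 hN s hs R hR δ hδ
  have hN1 : (1 : ℝ) ≤ N := by exact_mod_cast hN
  have hH : 1 ≤ ⌊(N : ℝ) ^ θ⌋₊ := Nat.le_floor (by rw [Nat.cast_one]; exact Real.one_le_rpow hN1 hθ.le)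
  have e : empt θ ε s R N = full θ ε s Rᶜ N := by
    unfold empt full
    congr 1
    ext m
    simp only [Set.mem_ofPred_eq]
    rw [sh_compl R hH]
    constructor
    · rintro ⟨a, b⟩
      exact ⟨a, by linarith⟩
    · rintro ⟨a, b⟩
      exact ⟨a, by linarith⟩
  rw [e]
  have hRc := inv_compl hR
  have hδc := dens_compl hs hδ
  exact ⟨fun h => ⟨g2 s hs R hR δ hδ h, g1 s hs Rᶜ hRc (1 - δ) hδc (by linarith)⟩,
    fun h => ⟨g2 s hs Rᶜ hRc (1 - δ) hδc (by linarith), g1 s hs R hR δ hδ h⟩⟩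

end Pool.Agent.J4H39.KP
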